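import Pool.Agent.Shared.SingHom.Basic

/-! Comparison of our singular chains with the singular homology functor of Mathlib. -/

set_option autoImplicit false

open Set Pool.Agent.Shared.SingHom

noncomputable section

namespace Pool.Agent.Lib.MP_1ba768_gt

namespace Cmp

open CategoryTheory AlgebraicTopology Simplicial Limits Opposite

theorem torsion_equiv {A B : Type*} [AddCommGroup A] [AddCommGroup B] (θ : A →+ B)
    (hi : Function.Injective θ) (hs : ∀ b, IsOfFinAddOrder b → ∃ a, θ a = b) :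
    Nonempty (AddCommGroup.torsion B ≃+ AddCommGroup.torsion A) := by
  let θ' : AddCommGroup.torsion A →+ AddCommGroup.torsion B :=
    (θ.comp (AddCommGroup.torsion A).subtype).codRestrict _ fun a => θ.isOfFinAddOrder a.2
  refine ⟨(AddEquiv.ofBijective θ' ⟨fun a a' h => Subtype.ext (hi (congrArg Subtype.val h)),
    fun b => ?_⟩).symm⟩
  obtain ⟨a, ha⟩ := hs b b.2
  exact ⟨⟨a, (hi.isOfFinAddOrder_iff).1 (ha ▸ b.2)⟩, Subtype.ext ha⟩

theorem exists_class {R : Type} [Ring R] (K : ChainComplex (ModuleCat.{0} R) ℕ) (n : ℕ) :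
    ∃ q : (K.d n (n - 1)).hom.toAddMonoidHom.ker →+ K.homology n, Function.Surjective q ∧
      ∀ z, q z = 0 ↔ ∃ w, (K.d (n + 1) n).hom w = z.1 := by
  let S := K.sc' (n + 1) n (n - 1)
  let e : K.homology n ≃ₗ[R] S.moduleCatLeftHomologyData.H :=
    ((K.homologyIsoSc' (n + 1) n (n - 1) (by simp) (by cases n <;> simp)).trans
      S.moduleCatHomologyIso).toLinearEquiv
  let q : LinearMap.ker S.g.hom →ₗ[R] K.homology n :=
    e.symm.toLinearMap.comp (LinearMap.range S.moduleCatToCycles).mkQ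
  refine ⟨q.toAddMonoidHom, e.symm.surjective.comp
    (LinearMap.range S.moduleCatToCycles).mkQ_surjective, fun z => ?_⟩
  refine e.symm.map_eq_zero_iff.trans ((Submodule.Quotient.mk_eq_zero _).trans ?_)
  exact ⟨fun ⟨w, hw⟩ => ⟨w, congrArg Subtype.val hw⟩, fun ⟨w, hw⟩ => ⟨w, Subtype.ext hw⟩⟩

theorem iota_induction {R : Type} [CommRing R] (Y : SSet.{0}) (k : ℕ)
    (p : (Y.chainComplex (ModuleCat.of R R)).X k → Prop) (h0 : p 0)
    (h1 : ∀ a b, p a → p b → p (a + b)) (h2 : ∀ (t : R) a, p a → p (t • a))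
    (h : ∀ x, p ((Y.ιChainComplex (R := ModuleCat.of R R) x).hom (1 : R))) (w) : p w := by
  let W : Submodule R ((Y.chainComplex (ModuleCat.of R R)).X k) :=
    { carrier := {w | p w}
      add_mem' := fun ha hb => h1 _ _ ha hb
      zero_mem' := h0
      smul_mem' := fun t a ha => h2 t a ha }
  have h3 : ModuleCat.ofHom W.mkQ = 0 := by
    refine SSet.chainComplex_hom_ext fun x => ?_
    ext
    have h5 : (Y.ιChainComplex (R := ModuleCat.of R R) x).hom (1 : R) ∈ W := h x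
    simpa using h5
  have h4 := congrArg (fun f => ModuleCat.Hom.hom f w) h3
  exact (by simpa using h4 : w ∈ W)

variable {X : Type} [TopologicalSpace X]

/-- the singular chain complex of Mathlib -/
abbrev KX (X : Type) [TopologicalSpace X] : ChainComplex (ModuleCat.{0} ℤ) ℕ :=
  (TopCat.toSSet.obj (TopCat.of X)).chainComplex (ModuleCat.of ℤ ℤ)

/-- from continuous maps to simplices of the singular set -/
def sx {k : ℕ} (σ : C(Dl (k + 1), X)) : (TopCat.toSSet.obj (TopCat.of X)) _⦋k⦌ :=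
  (TopCat.toSSetObjEquiv (TopCat.of X) (op ⦋k⦌)).symm σ

/-- from simplices of the singular set to continuous maps -/
def xs {k : ℕ} (x : (TopCat.toSSet.obj (TopCat.of X)) _⦋k⦌) : C(Dl (k + 1), X) :=
  TopCat.toSSetObjEquiv (TopCat.of X) (op ⦋k⦌) x

theorem xs_sx {k : ℕ} (σ : C(Dl (k + 1), X)) : xs (sx σ) = σ := Equiv.apply_symm_apply _ _

theorem sx_xs {k : ℕ} (x : (TopCat.toSSet.obj (TopCat.of X)) _⦋k⦌) : sx (xs x) = x :=
  Equiv.symm_apply_apply _ _

theorem delta_sx {k : ℕ} (σ : C(Dl (k + 2), X)) (i : Fin (k + 2)) :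
    (TopCat.toSSet.obj (TopCat.of X)).δ i (sx σ) = sx (σ.comp (face (k + 1) i)) := by
  rw [← sx_xs ((TopCat.toSSet.obj (TopCat.of X)).δ i (sx σ))]
  congr 1

/-- the generator attached to a simplex -/
def gen {k : ℕ} (σ : C(Dl (k + 1), X)) : (KX X).X k :=
  ((TopCat.toSSet.obj (TopCat.of X)).ιChainComplex (R := ModuleCat.of ℤ ℤ) (sx σ)).hom (1 : ℤ)

theorem d_gen {k : ℕ} (σ : C(Dl (k + 2), X)) : ((KX X).d (k + 1) k).hom (gen σ) =
    ∑ i : Fin (k + 2), (-1 : ℤ) ^ i.val • gen (σ.comp (face (k + 1) i)) := by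
  have := congrArg (fun f => ModuleCat.Hom.hom f (1 : ℤ))
    (SSet.ιChainComplex_d (TopCat.toSSet.obj (TopCat.of X)) (ModuleCat.of ℤ ℤ) (sx σ))
  simp only [ModuleCat.hom_comp, LinearMap.comp_apply, delta_sx, ModuleCat.hom_sum,
    LinearMap.sum_apply, ModuleCat.hom_zsmul] at this
  exact this

theorem hom_ext {k : ℕ} {G : Type} [AddCommGroup G] {φ ψ : (KX X).X k →+ G}
    (h : ∀ σ, φ (gen σ) = ψ (gen σ)) (w : (KX X).X k) : φ w = ψ w := by
  refine iota_induction _ k (fun w => φ w = ψ w) (by simp)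
    (fun a b ha hb => by simp only [map_add, ha, hb]) (fun t a ha => ?_) (fun x => ?_) w
  · have key : φ (t • a) = ψ (t • a) := by rw [map_zsmul, map_zsmul, ha]
    convert key using 2 <;> exact int_smul_eq_zsmul _ _ _
  · have := h (xs x)
    rwa [gen, sx_xs] at this

/-- from the chains of Mathlib to ours -/
def toCh (k : ℕ) : (KX X).X k →+ Ch X :=
  (Cofan.IsColimit.desc ((TopCat.toSSet.obj (TopCat.of X)).isColimitChainComplexXCofan
    (ModuleCat.of ℤ ℤ) k) (A := ModuleCat.of ℤ (Ch X))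
    (fun x => ModuleCat.ofHom (LinearMap.toSpanSingleton ℤ (Ch X)
      (Finsupp.single ⟨k + 1, xs x⟩ 1)))).hom.toAddMonoidHom

theorem toCh_gen {k : ℕ} (σ : C(Dl (k + 1), X)) :
    toCh k (gen σ) = Finsupp.single ⟨k + 1, σ⟩ 1 := by
  have := congrArg (fun f => ModuleCat.Hom.hom f (1 : ℤ))
    (Cofan.IsColimit.fac ((TopCat.toSSet.obj (TopCat.of X)).isColimitChainComplexXCofan
    (ModuleCat.of ℤ ℤ) k) (A := ModuleCat.of ℤ (Ch X))
    (fun x => ModuleCat.ofHom (LinearMap.toSpanSingleton ℤ (Ch X)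
      (Finsupp.single ⟨k + 1, xs x⟩ 1))) (sx σ))
  simp only [ModuleCat.hom_comp, LinearMap.comp_apply, xs_sx, ModuleCat.hom_ofHom,
    LinearMap.toSpanSingleton_apply, one_smul] at this
  exact this

/-- from our chains to the chains of Mathlib -/
def ofCh (k : ℕ) : Ch X →+ (KX X).X k :=
  Finsupp.liftAddHom fun s => zmultiplesHom _
    (if h : s.1 = k + 1 then gen (cast (congrArg (fun m => C(Dl m, X)) h) s.2) else 0)

theorem ofCh_single {k : ℕ} (σ : C(Dl (k + 1), X)) :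
    ofCh k (Finsupp.single ⟨k + 1, σ⟩ 1) = gen σ := by
  simp [ofCh]

theorem ofCh_toCh {k : ℕ} (w : (KX X).X k) : ofCh k (toCh k w) = w :=
  hom_ext (φ := (ofCh k).comp (toCh k)) (ψ := AddMonoidHom.id _)
    (fun σ => by simp [toCh_gen, ofCh_single]) w

theorem toCh_ofCh {k : ℕ} {x : Ch X} (hx : x ∈ C univ (k + 1)) : toCh k (ofCh k x) = x :=
  eq_on_C ((toCh k).comp (ofCh k)).toIntLinearMap LinearMap.id
    (fun σ _ => by simp [toCh_gen, ofCh_single]) hx

theorem toCh_mem {k : ℕ} (w : (KX X).X k) : toCh k w ∈ C univ (k + 1) := by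
  have := hom_ext (φ := (C (univ : Set X) (k + 1)).mkQ.toAddMonoidHom.comp (toCh k)) (ψ := 0)
    (fun σ => by simpa [toCh_gen] using single_mem_C (fun _ => mem_univ _) _) w
  simpa using this

theorem toCh_d {k : ℕ} (w : (KX X).X (k + 1)) :
    toCh k (((KX X).d (k + 1) k).hom w) = bd (toCh (k + 1) w) :=
  hom_ext (φ := (toCh k).comp ((KX X).d (k + 1) k).hom.toAddMonoidHom)
    (ψ := bd.toAddMonoidHom.comp (toCh (k + 1))) (fun σ => by
      change toCh k (((KX X).d (k + 1) k).hom (gen σ)) = bd (toCh (k + 1) (gen σ))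
      rw [d_gen, toCh_gen, bd_succ, map_sum]
      simp only [map_zsmul, toCh_gen]) w

theorem d_ofCh {k : ℕ} {x : Ch X} (hx : x ∈ C univ (k + 2)) :
    ((KX X).d (k + 1) k).hom (ofCh (k + 1) x) = ofCh k (bd x) := by
  rw [← ofCh_toCh (((KX X).d (k + 1) k).hom _), toCh_d, toCh_ofCh hx]

theorem d_cycle {n : ℕ} {x : Ch X} (hx : x ∈ Z univ (n + 1)) :
    ((KX X).d n (n - 1)).hom (ofCh n x) = 0 := by
  cases n with
  | zero => rw [(KX X).shape 0 (0 - 1) (by simp)]; rfl
  | succ n => exact (d_ofCh hx.1).trans (by rw [(mem_Z.1 hx).2, map_zero])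

end Cmp

open Cmp in
theorem compare_torsion (X : Type) [TopologicalSpace X] (n : ℕ) :
    Nonempty (↥(AddCommGroup.torsion
        (((AlgebraicTopology.singularHomologyFunctor (ModuleCat.{0} ℤ) n).obj
          (ModuleCat.of ℤ ℤ)).obj (TopCat.of X))) ≃+
      ↥(AddCommGroup.torsion (H (univ : Set X) (n + 1)))) := by
  obtain ⟨q, hs, hq⟩ := exists_class (KX X) n
  let j : Z (univ : Set X) (n + 1) →+ ((KX X).d n (n - 1)).hom.toAddMonoidHom.ker :=
    ((ofCh n).comp (Z univ (n + 1)).subtype.toAddMonoidHom).codRestrict _ fun x => d_cycle x.2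
  let θ : H (univ : Set X) (n + 1) →+ (KX X).homology n :=
    (Hq.lift (q.comp j).toIntLinearMap fun x hx => by
      obtain ⟨y, hy, h⟩ := mem_B.1 hx
      exact (hq _).2 ⟨ofCh (n + 1) y, (d_ofCh hy).trans (congrArg _ h)⟩).toAddMonoidHom
  refine torsion_equiv θ ((injective_iff_map_eq_zero θ).2 fun c hc => ?_) fun b hb => ?_
  · obtain ⟨x, hx, rfl⟩ := Hq.mk_surj c
    obtain ⟨w, hw⟩ := (hq _).1 hc
    refine Hq.mk_eq_zero.2 ⟨toCh (n + 1) w, toCh_mem w, ?_⟩
    rw [← toCh_d, hw]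
    exact toCh_ofCh hx.1
  · obtain ⟨z, rfl⟩ := hs b
    obtain ⟨r, hr, hb⟩ := isOfFinAddOrder_iff_nsmul_eq_zero.1 hb
    obtain ⟨w, hw⟩ := (hq (r • z)).1 (by rwa [map_nsmul])
    have h1 : bd (toCh n z.1) = 0 := by
      have h2 : r • bd (toCh n z.1) = 0 := by
        rw [← map_nsmul, ← map_nsmul, ← AddSubgroup.coe_nsmul, ← hw, toCh_d, bd_bd]
      exact (smul_eq_zero.1 h2).resolve_left hr.ne'
    exact ⟨cls (toCh n z.1) ⟨toCh_mem _, h1⟩, congrArg q (Subtype.ext (ofCh_toCh _))⟩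

end Pool.Agent.Lib.MP_1ba768_gt
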