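import Pool.Agent.Shared.SingHom.Basic
import Pool.Agent.Lib.MP_fac2a6_gt.Tools

-- part Pool.Agent.Lib.MP_1ba768_gt.Defs
section

/-! Definitions for the proof of Orlik's conjecture on the torsion of links. -/

set_option autoImplicit false

open Set MvPolynomial Pool.Agent.Shared.SingHom

noncomputable section

namespace Pool.Agent.Lib.MP_1ba768_gt

/-! ### Algebra -/

/-- number of elements killed by `n` -/
def ntor (G : Type*) [AddCommGroup G] (n : ℕ) : ℕ := Nat.card {x : G // n • x = 0}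

/-- differentials of the periodic complex of a cyclic group of order `D` with generator `s` -/
def tau {M : Type*} [AddCommGroup M] (s : Module.End ℤ M) (D j : ℕ) : Module.End ℤ M :=
  if Even j then s - 1 else ∑ l ∈ Finset.range D, s ^ l

/-- Tate cohomology: even `j` gives invariants mod norms, odd `j` gives norm kernel mod
the image of `s - 1` -/
abbrev Hh {M : Type*} [AddCommGroup M] (s : Module.End ℤ M) (D j : ℕ) :=
  Hq (LinearMap.ker (tau s D j)) (LinearMap.range (tau s D (j + 1)))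

variable {ι : Type} [Fintype ι] [DecidableEq ι]

/-- coordinates fixed by the `b`-th power of the monodromy -/
def Fx (w : ι → ℕ) (d b : ℕ) : Finset ι := Finset.univ.filter (fun i => d ∣ b * w i)

/-- index sets of fixed subspaces -/
def Adm (w : ι → ℕ) (d : ℕ) (S : Finset ι) : Prop := ∃ b, S = Fx w d b

/-- The algebraic data extracted from the Milnor lattices `M S` of the restrictions of `f` to the
fixed subspaces, with their monodromies `T S`. -/
structure LatticeData (w : ι → ℕ) (d : ℕ) (M : Finset ι → Type) [∀ S, AddCommGroup (M S)]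
    (T : ∀ S, Module.End ℤ (M S)) : Prop where
  free : ∀ S, Adm w d S → ∃ μ : ℕ, Nonempty (M S ≃ₗ[ℤ] (Fin μ → ℤ)) ∧
    (μ : ℚ) = ∏ i ∈ S, ((d : ℚ) / w i - 1)
  ord : ∀ (S : Finset ι) (b : ℕ), (∀ i ∈ S, d ∣ b * w i) → T S ^ b = 1
  step : ∀ (S S' : Finset ι) (a D p : ℕ), Adm w d S → Adm w d S' → S' ⊆ S → p.Prime → 0 < D →
    p ∣ D → (∀ i ∈ S, d ∣ a * D * w i) → (∀ i ∈ S, i ∉ S' → ¬ d ∣ a * (D / p) * w i) →
    ∀ ε k : ℕ, ntor (Hh (T S ^ a) D (ε + S.card)) (p ^ k) =
      ntor (Hh (T S' ^ a) D (ε + S'.card)) (p ^ k)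

/-! ### Geometry -/

/-- the circle action -/
def rot (w : ι → ℕ) (θ : ℝ) : C(ι → ℂ, ι → ℂ) :=
  ⟨fun z i => Complex.exp (θ * w i * Complex.I) * z i, by fun_prop⟩

/-- thickened Milnor fibre of the restriction of `f` to the coordinates in `S` -/
def W (f : MvPolynomial ι ℂ) (S : Finset ι) : Set (ι → ℂ) :=
  {z | (∀ i, i ∉ S → z i = 0) ∧ 0 < (eval z f).re}

/-- the link -/
def L (f : MvPolynomial ι ℂ) : Set (ι → ℂ) :=
  {z | eval z f = 0 ∧ ∑ i, Complex.normSq (z i) = 1}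

omit [DecidableEq ι] in
/-- weighted homogeneity in the form of a scaling identity -/
theorem eval_scale {w : ι → ℕ} {d : ℕ} {f : MvPolynomial ι ℂ} (hf : IsWeightedHomogeneous w f d)
    (c : ℂ) (z : ι → ℂ) : eval (fun i => c ^ w i * z i) f = c ^ d * eval z f := by
  rw [eval_eq', eval_eq', Finset.mul_sum]
  refine Finset.sum_congr rfl fun m hm => ?_
  have h := hf (mem_support_iff.1 hm)
  rw [Finsupp.weight_apply, Finsupp.sum_fintype _ _ (by simp)] at h
  simp only [mul_pow, Finset.prod_mul_distrib, ← pow_mul]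
  rw [Finset.prod_pow_eq_pow_sum, ← h]
  simp only [smul_eq_mul, mul_comm (w _)]
  ring

omit [DecidableEq ι] in
theorem eval_rot {w : ι → ℕ} {d : ℕ} {f : MvPolynomial ι ℂ} (hf : IsWeightedHomogeneous w f d)
    (θ : ℝ) (z : ι → ℂ) : eval (rot w θ z) f = Complex.exp (θ * d * Complex.I) * eval z f := by
  have h := eval_scale hf (Complex.exp (θ * Complex.I)) z
  simp only [← Complex.exp_nat_mul] at h
  have e1 : (rot w θ z) = fun i => Complex.exp (w i * (θ * Complex.I)) * z i := by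
    ext i
    simp only [rot, ContinuousMap.coe_mk]
    congr 2
    ring
  rw [e1, h]
  congr 2
  ring

omit [Fintype ι] [DecidableEq ι] in
theorem rot_rot (w : ι → ℕ) (θ θ' : ℝ) (z : ι → ℂ) : rot w θ (rot w θ' z) = rot w (θ + θ') z := by
  ext i
  simp only [rot, ContinuousMap.coe_mk, ← mul_assoc, ← Complex.exp_add]
  congr 2
  push_cast
  ring

omit [Fintype ι] [DecidableEq ι] in
theorem rot_zero (w : ι → ℕ) (z : ι → ℂ) : rot w 0 z = z := by
  ext i
  simp [rot]

/-- the geometric monodromy -/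
def mono (w : ι → ℕ) (d : ℕ) : C(ι → ℂ, ι → ℂ) := rot w (2 * Real.pi / d)

omit [DecidableEq ι] in
theorem eval_mono {w : ι → ℕ} {d : ℕ} {f : MvPolynomial ι ℂ} (hf : IsWeightedHomogeneous w f d)
    (hd : 0 < d) (z : ι → ℂ) : eval (mono w d z) f = eval z f := by
  rw [mono, eval_rot hf]
  have : ((2 * Real.pi / d : ℝ) : ℂ) * d * Complex.I = 2 * Real.pi * Complex.I := by
    have : (d : ℂ) ≠ 0 := by exact_mod_cast hd.ne'
    push_cast
    field_simp
  rw [this, Complex.exp_two_pi_mul_I, one_mul]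

omit [DecidableEq ι] in
theorem mono_mapsTo {w : ι → ℕ} {d : ℕ} {f : MvPolynomial ι ℂ} (hf : IsWeightedHomogeneous w f d)
    (hd : 0 < d) (S : Finset ι) : MapsTo (mono w d) (W f S) (W f S) := by
  intro z hz
  refine ⟨fun i hi => ?_, by rw [eval_mono hf hd]; exact hz.2⟩
  simp [mono, rot, hz.1 i hi]

/-- the monodromy on the Milnor lattice `H (W f S) S.card` -/
def tM {w : ι → ℕ} {d : ℕ} {f : MvPolynomial ι ℂ} (hf : IsWeightedHomogeneous w f d)
    (hd : 0 < d) (S : Finset ι) : Module.End ℤ (H (W f S) S.card) :=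
  Hmap (mono w d) (mono_mapsTo hf hd S) S.card

/-- the model quadratic form -/
def Qf (z : ι → ℂ) : ℝ := ∑ i, ((z i).re ^ 2 - (z i).im ^ 2)

/-- near `p`, in affine coordinates, `φ` is the model form up to a remainder with small
Lipschitz constant -/
def LocalModel (φ : (ι → ℂ) → ℝ) (p : ι → ℂ) : Prop :=
  ∃ T : (ι → ℂ) ≃L[ℝ] (ι → ℂ), ∀ η : ℝ, 0 < η → ∃ r : ℝ, 0 < r ∧ ∀ ρ : ℝ, ρ ≤ r →
    ∀ z z' : ι → ℂ, ‖z‖ ≤ ρ → ‖z'‖ ≤ ρ →
      |(φ (p + T z) - Qf z) - (φ (p + T z') - Qf z')| ≤ η * ρ * ‖z - z'‖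

/-- the derivative is bounded below near infinity -/
def Tame {E : Type*} [NormedAddCommGroup E] [NormedSpace ℝ E] (φ : E → ℝ) : Prop :=
  ∃ R δ : ℝ, 0 < δ ∧ ∀ z, R ≤ ‖z‖ → δ ≤ ‖fderiv ℝ φ z‖

end Pool.Agent.Lib.MP_1ba768_gt
end
end

-- part Pool.Agent.Lib.MP_1ba768_gt.Flow
section

/-! Global flows of compactly supported vector fields and gradient-like deformations. -/

set_option autoImplicit false

open Set Filter Topology Metric

noncomputable section

namespace Pool.Agent.Lib.MP_1ba768_gt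

theorem exists_flow {E : Type*} [NormedAddCommGroup E] [NormedSpace ℝ E] [FiniteDimensional ℝ E]
    (ξ : E → E) (hξ : ContDiff ℝ 1 ξ) (hc : HasCompactSupport ξ) :
    ∃ Φ : C(ℝ × E, E), (∀ x, Φ (0, x) = x) ∧
      ∀ x t, HasDerivAt (fun s => Φ (s, x)) (ξ (Φ (t, x))) t := by
  have : CompleteSpace E := FiniteDimensional.complete ℝ E
  obtain ⟨K, hK⟩ := hξ.lipschitzWith_of_hasCompactSupport hc one_ne_zero
  obtain ⟨C, hC⟩ := hc.exists_bound_of_continuous hξ.continuous
  have hC0 : 0 ≤ C := (norm_nonneg _).trans (hC 0)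
  choose α h0 hα using fun x => MP_fac2a6_gt.exists_global (L := ⟨C, hC0⟩) hK hC x
  have hcont : ∀ x, Continuous (α x) := fun x =>
    continuous_iff_continuousAt.2 fun t => (hα x t).continuousAt
  have hd : ∀ (x y : E) (t : ℝ), dist (α x t) (α y t) ≤ dist x y * Real.exp (K * |t|) := by
    intro x y t
    rcases le_total 0 t with ht | ht
    · have := dist_le_of_trajectories_ODE (v := fun _ => ξ) (K := K) (a := 0) (b := t)
        (δ := dist x y) (f := α x) (g := α y) (fun _ => hK) (hcont x).continuousOn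
        (fun s _ => (hα x s).hasDerivWithinAt) (hcont y).continuousOn
        (fun s _ => (hα y s).hasDerivWithinAt) (by rw [h0, h0]) t ⟨ht, le_rfl⟩
      rw [abs_of_nonneg ht]
      rwa [sub_zero] at this
    · have hn : ∀ z s, HasDerivAt (fun s => α z (-s)) (-ξ (α z (-s))) s := fun z s => by
        have := (hα z (-s)).scomp s (hasDerivAt_neg s)
        rw [neg_one_smul] at this
        exact this
      have := dist_le_of_trajectories_ODE (v := fun _ z => -ξ z) (K := K) (a := 0) (b := -t)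
        (δ := dist x y) (f := fun s => α x (-s)) (g := fun s => α y (-s)) (fun _ => hK.neg)
        ((hcont x).comp continuous_neg).continuousOn
        (fun s _ => (hn x s).hasDerivWithinAt) ((hcont y).comp continuous_neg).continuousOn
        (fun s _ => (hn y s).hasDerivWithinAt) (by simp only [neg_zero]; rw [h0, h0]) (-t)
        ⟨by linarith, le_rfl⟩
      rwa [sub_zero, neg_neg, ← abs_of_nonpos ht] at this
  refine ⟨⟨fun p => α p.2 p.1, continuous_iff_continuousAt.2 fun p => ?_⟩, h0, hα⟩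
  have h1 : ContinuousOn (fun p : ℝ × E => α p.2 p.1) (Ioo (-(|p.1| + 1)) (|p.1| + 1) ×ˢ univ) := by
    refine continuousOn_prod_of_continuousOn_lipschitzOnWith' _
      ⟨Real.exp (K * (|p.1| + 1)), (Real.exp_pos _).le⟩ (fun t ht => ?_)
      fun x _ => (hcont x).continuousOn
    refine LipschitzOnWith.of_dist_le_mul fun x _ y _ => (hd x y t).trans ?_
    rw [mul_comm]
    have : |t| ≤ |p.1| + 1 := abs_le.2 ⟨ht.1.le, ht.2.le⟩
    change _ ≤ Real.exp (K * (|p.1| + 1)) * _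
    gcongr
  refine h1.continuousAt ((isOpen_Ioo.prod isOpen_univ).mem_nhds ⟨⟨?_, ?_⟩, trivial⟩)
  · linarith [neg_abs_le p.1]
  · linarith [le_abs_self p.1]

theorem Flow.exists_field {E : Type*} [NormedAddCommGroup E] [NormedSpace ℝ E]
    [FiniteDimensional ℝ E] (φ : E → ℝ) (hφ : ContDiff ℝ 2 φ) (ht : Tame φ) (a b : ℝ)
    (hcrit : ∀ z, fderiv ℝ φ z = 0 → a ≤ φ z → b < φ z) :
    ∃ (ξ : E → E) (C δ : ℝ), ContDiff ℝ 1 ξ ∧ 0 < δ ∧ (∀ z, ‖ξ z‖ ≤ C) ∧
      (∀ z, 0 ≤ fderiv ℝ φ z (ξ z)) ∧ ∀ z, a ≤ φ z → φ z ≤ b → δ ≤ fderiv ℝ φ z (ξ z) := by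
  let β := Module.finBasis ℝ E
  have hD : ∀ k, ContDiff ℝ 1 fun z => fderiv ℝ φ z (β k) := fun k =>
    (hφ.fderiv_right (m := 1) (by norm_num)).clm_apply contDiff_const
  set q : E → ℝ := fun z => ∑ k, fderiv ℝ φ z (β k) ^ 2 with hq
  have hqc : ContDiff ℝ 1 q := ContDiff.sum fun k _ => (hD k).pow 2
  have hq0 : ∀ z, 0 ≤ q z := fun z => Finset.sum_nonneg fun _ _ => sq_nonneg _
  have hqk : ∀ z k, fderiv ℝ φ z (β k) ^ 2 ≤ q z := fun z k =>
    Finset.single_le_sum (f := fun k => fderiv ℝ φ z (β k) ^ 2) (fun _ _ => sq_nonneg _)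
      (Finset.mem_univ k)
  obtain ⟨δ, hδ, hb⟩ : ∃ δ, 0 < δ ∧ ∀ z, a ≤ φ z → φ z ≤ b → δ ≤ q z := by
    obtain ⟨R, δ0, hδ0, hR⟩ := ht
    obtain ⟨C, hC, hop⟩ := β.exists_opNorm_le (F := ℝ)
    have hK : IsCompact (closedBall (0 : E) R ∩ φ ⁻¹' Icc a b) :=
      (isCompact_closedBall 0 R).inter_right (isClosed_Icc.preimage hφ.continuous)
    obtain ⟨δ1, h1, h2⟩ := hK.exists_forall_le' (f := q) (a := 0) hqc.continuous.continuousOn
      fun z hz => by
        refine (hq0 z).lt_of_ne fun h => ?_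
        have : fderiv ℝ φ z = 0 := by
          apply ContinuousLinearMap.coe_injective
          refine β.ext fun k => ?_
          have := hqk z k
          rw [← h] at this
          exact pow_eq_zero_iff two_ne_zero |>.1 (le_antisymm this (sq_nonneg _))
        exact (hcrit z this hz.2.1).not_ge hz.2.2
    refine ⟨min δ1 ((δ0 / C) ^ 2), lt_min h1 (by positivity), fun z ha hb => ?_⟩
    rcases le_total ‖z‖ R with hz | hz
    · exact (min_le_left _ _).trans (h2 z ⟨mem_closedBall_zero_iff.2 hz, ha, hb⟩)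
    · refine (min_le_right _ _).trans ?_
      have h3 : ‖fderiv ℝ φ z‖ ≤ C * Real.sqrt (q z) := hop (Real.sqrt_nonneg _) fun k =>
        Real.abs_le_sqrt (hqk z k)
      have h4 : δ0 / C ≤ Real.sqrt (q z) := by
        rw [div_le_iff₀ hC, mul_comm]
        exact (hR z hz).trans h3
      rw [← Real.sq_sqrt (hq0 z)]
      gcongr
  have he : ∀ z, fderiv ℝ φ z ((1 + q z)⁻¹ • ∑ k, fderiv ℝ φ z (β k) • β k) =
      (1 + q z)⁻¹ * q z := fun z => by
    simp only [map_smul, map_sum, smul_eq_mul, hq, sq]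
  refine ⟨fun z => (1 + q z)⁻¹ • ∑ k, fderiv ℝ φ z (β k) • β k, ∑ k, ‖β k‖, (1 + δ)⁻¹ * δ,
    ?_, by positivity, fun z => ?_, fun z => ?_, fun z h1 h2 => ?_⟩
  · exact ((contDiff_const.add hqc).inv fun z => by linarith [hq0 z]).smul
      (ContDiff.sum fun k _ => (hD k).smul contDiff_const)
  · beta_reduce
    rw [Finset.smul_sum]
    refine norm_sum_le_of_le _ fun k _ => ?_
    have := hq0 z
    rw [smul_smul, norm_smul, norm_mul, norm_inv, Real.norm_of_nonneg (by linarith)]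
    refine mul_le_of_le_one_left (norm_nonneg _) ?_
    rw [inv_mul_le_iff₀ (by linarith), Real.norm_eq_abs]
    have h3 := hqk z k
    rw [← sq_abs] at h3
    nlinarith [sq_nonneg (|fderiv ℝ φ z (β k)| - 1)]
  · rw [he]
    have := hq0 z
    positivity
  · rw [he]
    have h3 := hb z h1 h2
    rw [inv_mul_eq_div, inv_mul_eq_div, div_le_div_iff₀ (by linarith) (by linarith)]
    nlinarith

theorem lyapunov {E : Type*} [NormedAddCommGroup E] [NormedSpace ℝ E] [FiniteDimensional ℝ E]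
    (φ : E → ℝ) (hφ : ContDiff ℝ 2 φ) (ht : Tame φ) (a b : ℝ)
    (hcrit : ∀ z, fderiv ℝ φ z = 0 → a ≤ φ z → b < φ z) (K : Set E) (hK : IsCompact K)
    (hKa : ∀ z ∈ K, a ≤ φ z) :
    ∃ h : C(ℝ × E, E), (∀ x, h (0, x) = x) ∧ (∀ t, 0 ≤ t → ∀ x, φ x ≤ φ (h (t, x))) ∧
      ∀ x ∈ K, b < φ (h (1, x)) := by
  obtain ⟨ξ, C, δ, hξ, hδ, hC, h0, h1⟩ := Flow.exists_field φ hφ ht a b hcrit
  have hC0 : 0 ≤ C := (norm_nonneg _).trans (hC 0)
  obtain ⟨R, hR0, hR⟩ := hK.isBounded.exists_pos_norm_le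
  set T : ℝ := |b - a| / δ + 1 with hT
  have hT0 : 0 < T := by positivity
  let χ : ContDiffBump (0 : E) := ⟨R + T * C, R + T * C + 1, by positivity, by linarith⟩
  obtain ⟨Φ, hΦ0, hΦ⟩ := exists_flow (fun z => (T * χ z) • ξ z)
    ((contDiff_const.mul χ.contDiff).smul hξ)
    (HasCompactSupport.smul_right (f := fun z => T * χ z) χ.hasCompactSupport.mul_left)
  have hd : ∀ x t, HasDerivAt (fun s => φ (Φ (s, x)))
      (T * χ (Φ (t, x)) * fderiv ℝ φ (Φ (t, x)) (ξ (Φ (t, x)))) t := fun x t => by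
    have := ((hφ.differentiable (by norm_num)) (Φ (t, x))).hasFDerivAt.comp_hasDerivAt t (hΦ x t)
    rwa [map_smul, smul_eq_mul] at this
  have hm : ∀ x, Monotone fun s => φ (Φ (s, x)) := fun x =>
    monotone_of_hasDerivAt_nonneg (hd x) fun t =>
      mul_nonneg (mul_nonneg hT0.le χ.nonneg) (h0 _)
  have hm0 : ∀ t, 0 ≤ t → ∀ x, φ x ≤ φ (Φ (t, x)) := fun t ht x => by
    have := hm x ht
    simpa only [hΦ0] using this
  refine ⟨Φ, hΦ0, hm0, fun x hx => ?_⟩
  by_contra hb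
  have hb' : φ (Φ (1, x)) ≤ b := not_lt.1 hb
  obtain ⟨c, hc, he⟩ := exists_hasDerivAt_eq_slope _ _ zero_lt_one
    (fun t _ => (hd x t).continuousAt.continuousWithinAt) fun t _ => hd x t
  have hn : ‖Φ (c, x) - Φ (0, x)‖ ≤ T * C * (c - 0) :=
    norm_image_sub_le_of_norm_deriv_le_segment' (f := fun s => Φ (s, x)) (a := 0) (b := 1)
      (fun t _ => (hΦ x t).hasDerivWithinAt) (fun t _ => by
        rw [norm_smul, Real.norm_of_nonneg (mul_nonneg hT0.le χ.nonneg)]
        have := χ.le_one (x := Φ (t, x))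
        calc _ ≤ T * 1 * C := by gcongr; exact hC _
          _ = _ := by ring) c ⟨hc.1.le, hc.2.le⟩
  have h2 : χ (Φ (c, x)) = 1 := by
    apply χ.one_of_mem_closedBall
    rw [mem_closedBall_zero_iff]
    rw [hΦ0] at hn
    have h3 := norm_add_le (Φ (c, x) - x) x
    rw [sub_add_cancel] at h3
    have h4 : T * C * (c - 0) ≤ T * C := mul_le_of_le_one_right (by positivity) (by linarith [hc.2])
    change _ ≤ R + T * C
    linarith [hR x hx]
  have h3 := h1 (Φ (c, x)) ((hKa x hx).trans (hm0 c hc.1.le x)) ((hm x hc.2.le).trans hb')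
  rw [h2, mul_one, hΦ0, sub_zero, div_one] at he
  have h4 : T * δ = |b - a| + δ := by rw [hT]; field_simp
  have h5 : T * δ ≤ T * fderiv ℝ φ (Φ (c, x)) (ξ (Φ (c, x))) := by gcongr
  linarith [le_abs_self (b - a), hKa x hx]

end Pool.Agent.Lib.MP_1ba768_gt
end
end

-- part Pool.Agent.Lib.MP_1ba768_gt.Herbrand
section

/-! The Herbrand quotient of a lattice with an action of a cyclic group, one prime at a time. -/

set_option autoImplicit false

open Pool.Agent.Shared.SingHom Polynomial Module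

noncomputable section

namespace Pool.Agent.Lib.MP_1ba768_gt.Rank

variable {M : Type*} [AddCommGroup M]

/-- the index of `A ⊓ B` in `B` -/
def ix (A B : Submodule ℤ M) : ℕ := A.toAddSubgroup.relIndex B.toAddSubgroup

theorem ix_mul {A B C : Submodule ℤ M} (h1 : A ≤ B) (h2 : B ≤ C) : ix A B * ix B C = ix A C :=
  AddSubgroup.relIndex_mul_relIndex _ _ _ h1 h2

theorem ix_sup (A B : Submodule ℤ M) : ix A (B ⊔ A) = ix A B := by
  unfold ix
  rw [Submodule.sup_toAddSubgroup, AddSubgroup.relIndex_sup_right]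

theorem ix_congr {A A' B : Submodule ℤ M} (h : ∀ x ∈ B, x ∈ A ↔ x ∈ A') : ix A B = ix A' B := by
  unfold ix AddSubgroup.relIndex
  congr 1
  ext x
  exact h x x.2

theorem ix_eq_one {A B : Submodule ℤ M} (h : B ≤ A) : ix A B = 1 :=
  AddSubgroup.relIndex_eq_one.2 h

theorem ix_dvd {A A' : Submodule ℤ M} (h : A ≤ A') (B : Submodule ℤ M) : ix A' B ∣ ix A B :=
  AddSubgroup.relIndex_dvd_of_le_left _ h

theorem ix_map (g : End ℤ M) {A B : Submodule ℤ M} (h : A ≤ B) :
    ix (A.map g) (B.map g) = ix (A ⊔ LinearMap.ker g) B := by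
  rw [← ix_sup (A ⊔ LinearMap.ker g) B, ← sup_assoc, sup_eq_left.2 h]
  unfold ix
  rw [Submodule.map_toAddSubgroup, Submodule.map_toAddSubgroup, AddSubgroup.relIndex_map_map,
    Submodule.sup_toAddSubgroup, Submodule.sup_toAddSubgroup, LinearMap.ker_toAddSubgroup]
  rfl

theorem ix_nat [Module.Free ℤ M] [Module.Finite ℤ M] (n : ℕ) (C : Submodule ℤ M) :
    ix (C.map (n : End ℤ M)) C = n ^ finrank ℤ C := by
  have : Module.Free ℤ C.toAddSubgroup.toIntSubmodule := inferInstanceAs (Module.Free ℤ C)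
  have : Module.Finite ℤ C.toAddSubgroup.toIntSubmodule := inferInstanceAs (Module.Finite ℤ C)
  have h := AddSubgroup.relIndex_map_nsmul n C.toAddSubgroup
  have e : (C.map (n : End ℤ M)).toAddSubgroup =
      C.toAddSubgroup.map (nsmulAddMonoidHom (α := M) n) := by
    ext x
    simp
  unfold ix
  rw [e]
  exact h

theorem card_Hq (P Q : Submodule ℤ M) : Nat.card (Hq P Q) = ix Q P := rfl

theorem map_map_comm {f g : End ℤ M} (hc : f * g = g * f) (B : Submodule ℤ M) :
    (B.map f).map g = (B.map g).map f := by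
  rw [← Submodule.map_comp, ← Submodule.map_comp]
  congr 1
  exact hc.symm

theorem chain {f g : End ℤ M} (hc : f * g = g * f) (hK : LinearMap.ker f ≤ LinearMap.ker g)
    (hinj : ∀ x, f (g x) = 0 → g x = 0) {B : Submodule ℤ M} (hB : LinearMap.ker g ≤ B)
    (hfB : B.map f ≤ B) :
    ix (B.map f ⊔ LinearMap.ker f) B = ix ((B.map g).map f) (B.map g) *
      ix ((LinearMap.ker g).map f ⊔ LinearMap.ker f) (LinearMap.ker g) := by
  have hc' : ∀ x, f (g x) = g (f x) := fun x => LinearMap.congr_fun hc x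
  rw [← ix_mul (B := B.map f ⊔ LinearMap.ker g) (sup_le_sup_left hK _) (sup_le hfB hB), mul_comm,
    ← map_map_comm hc, ix_map g hfB]
  congr 1
  have e : B.map f ⊔ LinearMap.ker g = LinearMap.ker g ⊔ (B.map f ⊔ LinearMap.ker f) := by
    rw [sup_left_comm, sup_eq_left.2 hK]
  rw [e, ix_sup]
  apply ix_congr
  intro x hx
  simp only [Submodule.mem_sup, Submodule.mem_map]
  constructor
  · rintro ⟨_, ⟨b, hb, rfl⟩, k, hk, rfl⟩
    refine ⟨_, ⟨b, ?_, rfl⟩, k, hk, rfl⟩
    apply hinj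
    rw [LinearMap.mem_ker, map_add, hK hk, add_zero] at hx
    rw [hc', hx]
  · rintro ⟨_, ⟨b, hb, rfl⟩, k, hk, rfl⟩
    exact ⟨_, ⟨b, hB hb, rfl⟩, k, hk, rfl⟩

theorem map_pow_le {f : End ℤ M} {C : Submodule ℤ M} (hC : C.map f ≤ C) (n : ℕ) :
    C.map (f ^ n) ≤ C := by
  induction n with
  | zero => simp [Module.End.one_eq_id]
  | succ n ih =>
    rw [pow_succ', Module.End.mul_eq_comp, Submodule.map_comp]
    exact (Submodule.map_mono ih).trans hC

theorem ix_pow {f : End ℤ M} {C : Submodule ℤ M} (hC : C.map f ≤ C)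
    (hinj : ∀ x ∈ C, f x = 0 → x = 0) (n : ℕ) : ix (C.map (f ^ n)) C = ix (C.map f) C ^ n := by
  induction n with
  | zero => simp [Module.End.one_eq_id, ix_eq_one]
  | succ n ih =>
    have h1 := map_pow_le hC n
    rw [pow_succ' f, Module.End.mul_eq_comp, Submodule.map_comp,
      ← ix_mul (Submodule.map_mono h1) hC, ix_map f h1, pow_succ, ← ih]
    congr 1
    apply ix_congr
    intro x hx
    constructor
    · intro h
      obtain ⟨a, ha, k, hk, rfl⟩ := Submodule.mem_sup.1 h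
      have : k = 0 := hinj k ((Submodule.add_mem_iff_right C (h1 ha)).1 hx) hk
      rwa [this, add_zero]
    · exact fun h => Submodule.mem_sup_left h

theorem rank_nullity [Module.Finite ℤ M] (g : End ℤ M) {B : Submodule ℤ M}
    (hB : LinearMap.ker g ≤ B) :
    finrank ℤ (B.map g) + finrank ℤ (LinearMap.ker g) = finrank ℤ B := by
  have h := (LinearMap.ker (g.domRestrict B)).finrank_quotient_add_finrank
  rw [LinearEquiv.finrank_eq (g.domRestrict B).quotKerEquivRange, LinearMap.range_domRestrict,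
    LinearMap.ker_domRestrict, (Submodule.comapSubtypeEquivOfLe hB).finrank_eq] at h
  exact h

/-- modulo the cyclotomic polynomial, `(X - 1) ^ φ` and `q` are associated -/
theorem poly_assoc {q : ℕ} (hq : q.Prime) (j : ℕ) : ∃ a b c : ℤ[X],
    (X - 1) ^ (q ^ j * (q - 1)) = (q : ℤ[X]) * a + ∑ l ∈ Finset.range q, (X ^ q ^ j) ^ l ∧
    (q : ℤ[X]) = (X - 1) ^ (q ^ j * (q - 1)) * b + c * ∑ l ∈ Finset.range q, (X ^ q ^ j) ^ l := by
  have := Fact.mk hq
  set n := q ^ j * (q - 1) with hn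
  set Φ : ℤ[X] := ∑ l ∈ Finset.range q, (X ^ q ^ j) ^ l with hΦ
  have hn0 : n ≠ 0 := Nat.mul_ne_zero (pow_ne_zero _ hq.ne_zero) (by have := hq.two_le; omega)
  have hdvd : Polynomial.C (q : ℤ) ∣ (X - 1) ^ n - Φ := by
    rw [C_dvd_iff_dvd_coeff]
    intro i
    rw [← ZMod.intCast_zmod_eq_zero_iff_dvd]
    have h : ((X - 1) ^ n - Φ).map (Int.castRingHom (ZMod q)) = 0 := by
      have h1 : (X - 1 : (ZMod q)[X]) ^ q ^ j ≠ 0 := pow_ne_zero _ (X_sub_C_ne_zero 1)
      apply mul_right_cancel₀ h1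
      simp only [hΦ, Polynomial.map_sub, Polynomial.map_pow, Polynomial.map_sum, map_X,
        Polynomial.map_one, zero_mul]
      rw [sub_mul, ← pow_add, show n + q ^ j = q ^ (j + 1) by
        rw [hn, pow_succ, Nat.mul_sub_one, Nat.sub_add_cancel (Nat.le_mul_of_pos_right _ hq.pos)],
        sub_pow_char_pow, sub_pow_char_pow, one_pow, one_pow, geom_sum_mul, ← pow_mul, ← pow_succ,
        sub_self]
    have := congrArg (fun p => coeff p i) h
    simpa only [coeff_map, eq_intCast, coeff_zero] using this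
  obtain ⟨a, ha⟩ := hdvd
  have ha' : (X - 1) ^ n = (q : ℤ[X]) * a + Φ := by
    rw [← sub_eq_iff_eq_add, ha, map_natCast]
  have hev : a.eval 1 = -1 := by
    have h := congrArg (eval 1) ha'
    simp only [hΦ, eval_pow, eval_sub, eval_X, eval_one, sub_self, zero_pow hn0, eval_add, eval_mul,
      eval_natCast, eval_finsetSum, one_pow, Finset.sum_const, Finset.card_range, nsmul_eq_mul,
      mul_one] at h
    have hq0 : (q : ℤ) ≠ 0 := by exact_mod_cast hq.ne_zero
    apply mul_left_cancel₀ hq0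
    linarith
  obtain ⟨H, hH⟩ : X - Polynomial.C 1 ∣ a + 1 := by
    rw [dvd_iff_isRoot]
    simp [hev]
  rw [map_one] at hH
  have hg := geom_sum_mul (a + 1) n
  set U := ∑ i ∈ Finset.range n, (a + 1) ^ i
  refine ⟨a, (q : ℤ[X]) * H ^ n - U, U, ha', ?_⟩
  have e : (a + 1) ^ n = (X - 1) ^ n * H ^ n := by rw [hH, mul_pow]
  rw [e] at hg
  linear_combination (q : ℤ[X]) * hg + U * ha'

theorem aeval_mem {s : End ℤ M} {C : Submodule ℤ M} (hC : C.map s ≤ C) (p : ℤ[X]) {x : M}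
    (hx : x ∈ C) : aeval s p x ∈ C :=
  aeval_apply_smul_mem_of_le_comap hx p s (Submodule.map_le_iff_le_comap.1 hC)

theorem map_sub_one_le {s : End ℤ M} {C : Submodule ℤ M} (hC : C.map s ≤ C) :
    C.map (s - 1) ≤ C := by
  rintro _ ⟨x, hx, rfl⟩
  exact C.sub_mem (hC ⟨x, hx, rfl⟩) hx

theorem ix_cyclo [Module.Free ℤ M] [Module.Finite ℤ M] {q : ℕ} (hq : q.Prime) (j : ℕ)
    {s : End ℤ M} {C : Submodule ℤ M} (hC : C.map s ≤ C)
    (hinj : ∀ x ∈ C, (s - 1) x = 0 → x = 0)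
    (hΦ : ∀ x ∈ C, (∑ l ∈ Finset.range q, (s ^ q ^ j) ^ l) x = 0) :
    ix (C.map (s - 1)) C ^ (q ^ j * (q - 1)) = q ^ finrank ℤ C := by
  rw [← ix_pow (map_sub_one_le hC) hinj, ← ix_nat]
  congr 1
  obtain ⟨a, b, c, h1, h2⟩ := poly_assoc hq j
  have h1' := congrArg (aeval s) h1
  have h2' := congrArg (aeval s) h2
  simp only [map_pow, map_sub, aeval_X, map_one, map_add, map_mul, map_natCast, map_sum] at h1' h2'
  apply le_antisymm
  · rintro _ ⟨x, hx, rfl⟩
    refine ⟨aeval s a x, aeval_mem hC a hx, ?_⟩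
    rw [h1', LinearMap.add_apply, hΦ x hx, add_zero, Module.End.mul_apply]
  · rintro _ ⟨x, hx, rfl⟩
    refine ⟨aeval s b x, aeval_mem hC b hx, ?_⟩
    rw [h2', LinearMap.add_apply, Module.End.mul_apply, Module.End.mul_apply, hΦ x hx, map_zero,
      add_zero]

theorem geom_apply_fixed {s : End ℤ M} {x : M} (hx : (s - 1) x = 0) (m D : ℕ) :
    (∑ l ∈ Finset.range D, (s ^ m) ^ l) x = D • x := by
  have h : s x = x := by simpa [sub_eq_zero] using hx
  have h' : ∀ n, (s ^ n) x = x := fun n => by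
    induction n with
    | zero => rfl
    | succ n ih => rw [pow_succ, Module.End.mul_apply, h, ih]
  simp only [← pow_mul, LinearMap.sum_apply, h', Finset.sum_const, Finset.card_range]

theorem ker_le_ker_pow (s : End ℤ M) (m : ℕ) :
    LinearMap.ker (s - 1) ≤ LinearMap.ker (s ^ m - 1) := by
  intro x hx
  rw [LinearMap.mem_ker, ← geom_sum_mul, Module.End.mul_apply, LinearMap.mem_ker.1 hx, map_zero]

theorem comm_pow (s : End ℤ M) (m : ℕ) : (s - 1) * (s ^ m - 1) = (s ^ m - 1) * (s - 1) :=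
  ((Commute.refl s).pow_right m).sub_right (Commute.one_right _) |>.sub_left (Commute.one_left _)

theorem map_pow_sub_le (s : End ℤ M) (m : ℕ) {B : Submodule ℤ M} (hB : B.map s ≤ B) :
    (B.map (s ^ m - 1)).map s ≤ B.map (s ^ m - 1) := by
  rw [← map_map_comm (((Commute.refl s).pow_right m).sub_right (Commute.one_right _))]
  exact Submodule.map_mono hB

theorem ker_stable (s : End ℤ M) (m : ℕ) :
    (LinearMap.ker (s ^ m - 1)).map s ≤ LinearMap.ker (s ^ m - 1) := by
  rintro _ ⟨x, hx, rfl⟩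
  have h : (s ^ m - 1) * s = s * (s ^ m - 1) :=
    (((Commute.refl s).pow_right m).sub_right (Commute.one_right _)).symm
  rw [LinearMap.mem_ker, ← Module.End.mul_apply, h, Module.End.mul_apply, LinearMap.mem_ker.1 hx,
    map_zero]

section
variable [Module.Free ℤ M] [Module.Finite ℤ M] {s : End ℤ M} {D : ℕ}

omit [Module.Finite ℤ M] in
theorem semisimple (hD : D ≠ 0) (hs : s ^ D = 1) (m : ℕ) (x : M)
    (h : (s - 1) ((s ^ m - 1) x) = 0) : (s ^ m - 1) x = 0 := by
  have h1 := geom_apply_fixed h 1 D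
  rw [pow_one, ← mul_geom_sum s m, Module.End.mul_apply, ← Module.End.mul_apply, geom_sum_mul, hs,
    sub_self, LinearMap.zero_apply] at h1
  rw [← mul_geom_sum s m, Module.End.mul_apply]
  have h2 : (D : ℤ) • ((s - 1) ((∑ i ∈ Finset.range m, s ^ i) x)) = 0 := by
    rw [natCast_zsmul, h1]
  exact (smul_eq_zero_iff_right (by exact_mod_cast hD)).1 h2

/-- the index of the image of `s - 1` on `B` modulo the fixed part -/
def kap (s : End ℤ M) (B : Submodule ℤ M) : ℕ := ix (B.map (s - 1) ⊔ LinearMap.ker (s - 1)) B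

/-- the rank of the fixed part -/
def fr (s : End ℤ M) : ℕ := finrank ℤ (LinearMap.ker (s - 1))

theorem kap_level (hD : D ≠ 0) (hs : s ^ D = 1) {q : ℕ} (hq : q.Prime) (k : ℕ) :
    kap s (LinearMap.ker (s ^ q ^ k - 1)) ≠ 0 ∧
      (padicValNat q (kap s (LinearMap.ker (s ^ q ^ k - 1))) : ℚ) =
        ∑ j ∈ Finset.range k, ((fr (s ^ q ^ (j + 1)) : ℚ) - fr (s ^ q ^ j)) / (q ^ j * (q - 1)) := by
  have := Fact.mk hq
  induction k with
  | zero =>
    have : kap s (LinearMap.ker (s ^ q ^ 0 - 1)) = 1 := by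
      rw [pow_zero, pow_one]
      exact ix_eq_one le_sup_right
    rw [this]
    simp
  | succ k ih =>
    have hle : LinearMap.ker (s ^ q ^ k - 1) ≤ LinearMap.ker (s ^ q ^ (k + 1) - 1) := by
      rw [pow_succ, pow_mul]
      exact ker_le_ker_pow _ _
    have hst := ker_stable s (q ^ (k + 1))
    have h1 := chain (comm_pow s (q ^ k)) (ker_le_ker_pow s _) (semisimple hD hs _) hle
      (map_sub_one_le hst)
    have h2 := ix_cyclo hq k (map_pow_sub_le s (q ^ k) hst)
      (by rintro _ ⟨x, _, rfl⟩ h; exact semisimple hD hs _ x h)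
      (by
        rintro _ ⟨x, hx, rfl⟩
        rw [← Module.End.mul_apply, geom_sum_mul, ← pow_mul, ← pow_succ]
        exact hx)
    have h3 := rank_nullity (s ^ q ^ k - 1) hle
    set I := ix (((LinearMap.ker (s ^ q ^ (k + 1) - 1)).map (s ^ q ^ k - 1)).map (s - 1))
      ((LinearMap.ker (s ^ q ^ (k + 1) - 1)).map (s ^ q ^ k - 1))
    have hn0 : q ^ k * (q - 1) ≠ 0 :=
      Nat.mul_ne_zero (pow_ne_zero _ hq.ne_zero) (by have := hq.two_le; omega)
    have hI : I ≠ 0 := by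
      intro h
      rw [h, zero_pow hn0] at h2
      exact pow_ne_zero _ hq.ne_zero h2.symm
    have h4 := congrArg (padicValNat q) h2
    rw [padicValNat.pow, padicValNat.prime_pow] at h4
    change kap s _ = I * kap s _ at h1
    rw [h1, padicValNat.mul hI ih.1, Finset.sum_range_succ, ← ih.2]
    refine ⟨Nat.mul_ne_zero hI ih.1, ?_⟩
    have h5 : ((q : ℚ) ^ k * (q - 1)) * padicValNat q I = fr (s ^ q ^ (k + 1)) - fr (s ^ q ^ k) := by
      rw [← h4] at h3
      have := congrArg (Nat.cast : ℕ → ℚ) h3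
      push_cast [Nat.cast_sub hq.one_le] at this
      unfold fr
      linarith
    have h6 : ((q : ℚ) ^ k * (q - 1)) ≠ 0 := by
      have := hq.two_le
      have h7 : (2 : ℚ) ≤ q := by exact_mod_cast this
      exact mul_ne_zero (by positivity) (by linarith)
    rw [← h5, mul_div_cancel_left₀ _ h6]
    push_cast
    ring

theorem kap_top {q k r : ℕ} (hq : q.Prime) (hr : ¬ q ∣ r) (hs : s ^ (q ^ k * r) = 1) :
    kap s ⊤ ≠ 0 ∧ (padicValNat q (kap s ⊤) : ℚ) =
        ∑ j ∈ Finset.range k, ((fr (s ^ q ^ (j + 1)) : ℚ) - fr (s ^ q ^ j)) / (q ^ j * (q - 1)) := by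
  have := Fact.mk hq
  have hr0 : r ≠ 0 := by rintro rfl; exact hr (dvd_zero _)
  have hD : q ^ k * r ≠ 0 := Nat.mul_ne_zero (pow_ne_zero _ hq.ne_zero) hr0
  have h1 := chain (B := ⊤) (comm_pow s (q ^ k)) (ker_le_ker_pow s _) (semisimple hD hs _) le_top
    le_top
  set C := (⊤ : Submodule ℤ M).map (s ^ q ^ k - 1)
  have hst : C.map s ≤ C := map_pow_sub_le s _ le_top
  have h2 : C.map (r : End ℤ M) ≤ C.map (s - 1) := by
    rintro _ ⟨x, hx, rfl⟩
    obtain ⟨H, hH⟩ : X - Polynomial.C 1 ∣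
        (r : ℤ[X]) - ∑ l ∈ Finset.range r, (X ^ q ^ k) ^ l := by
      rw [dvd_iff_isRoot]
      simp [eval_finsetSum]
    have h3 := congrArg (aeval s) hH
    simp only [map_pow, map_sub, aeval_X, map_one, map_mul, map_natCast, map_sum] at h3
    refine ⟨aeval s H x, aeval_mem hst H hx, ?_⟩
    rw [← Module.End.mul_apply, ← h3, LinearMap.sub_apply, sub_eq_self]
    obtain ⟨y, _, rfl⟩ := hx
    rw [← Module.End.mul_apply, geom_sum_mul, ← pow_mul, hs, sub_self, LinearMap.zero_apply]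
  have h3 := ix_dvd h2 C
  rw [ix_nat] at h3
  have hI : ix (C.map (s - 1)) C ≠ 0 := ne_zero_of_dvd_ne_zero (pow_ne_zero _ hr0) h3
  have hI' : padicValNat q (ix (C.map (s - 1)) C) = 0 :=
    padicValNat.eq_zero_of_not_dvd fun h => hr (hq.dvd_of_dvd_pow (h.trans h3))
  obtain ⟨l1, l2⟩ := kap_level hD hs hq k
  change kap s _ = _ * kap s _ at h1
  rw [h1, padicValNat.mul hI l1, hI', zero_add]
  exact ⟨Nat.mul_ne_zero hI l1, l2⟩

theorem even_index (s : End ℤ M) (hs : s ^ D = 1) :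
    ix (LinearMap.ker (s - 1) ⊔ LinearMap.ker (∑ l ∈ Finset.range D, s ^ l)) ⊤ *
      ix (LinearMap.range (∑ l ∈ Finset.range D, s ^ l)) (LinearMap.ker (s - 1)) = D ^ fr s := by
  have h1 : LinearMap.range (∑ l ∈ Finset.range D, s ^ l) ≤ LinearMap.ker (s - 1) := by
    rintro _ ⟨x, rfl⟩
    rw [LinearMap.mem_ker, ← Module.End.mul_apply, mul_geom_sum, hs, sub_self, LinearMap.zero_apply]
  rw [← ix_map _ le_top, Submodule.map_top, ix_mul LinearMap.map_le_range h1, fr, ← ix_nat]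
  congr 1
  have h : ∀ x ∈ LinearMap.ker (s - 1), (∑ l ∈ Finset.range D, s ^ l) x = (D : End ℤ M) x := by
    intro x hx
    simpa using geom_apply_fixed (LinearMap.mem_ker.1 hx) 1 D
  ext y
  constructor
  · rintro ⟨x, hx, rfl⟩
    exact ⟨x, hx, (h x hx).symm⟩
  · rintro ⟨x, hx, rfl⟩
    exact ⟨x, hx, h x hx⟩

omit [Module.Finite ℤ M] in
theorem odd_index (s : End ℤ M) (hD : D ≠ 0) (hs : s ^ D = 1) :
    ix (LinearMap.range (s - 1)) (LinearMap.ker (∑ l ∈ Finset.range D, s ^ l)) *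
      ix (LinearMap.ker (s - 1) ⊔ LinearMap.ker (∑ l ∈ Finset.range D, s ^ l)) ⊤ = kap s ⊤ := by
  have h1 : LinearMap.range (s - 1) ≤ LinearMap.ker (∑ l ∈ Finset.range D, s ^ l) := by
    rintro _ ⟨x, rfl⟩
    rw [LinearMap.mem_ker, ← Module.End.mul_apply, geom_sum_mul, hs, sub_self, LinearMap.zero_apply]
  rw [kap, Submodule.map_top, ← ix_mul (B := LinearMap.ker (s - 1) ⊔
    LinearMap.ker (∑ l ∈ Finset.range D, s ^ l)) (sup_le (h1.trans le_sup_right) le_sup_left) le_top]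
  congr 1
  have e : LinearMap.ker (s - 1) ⊔ LinearMap.ker (∑ l ∈ Finset.range D, s ^ l) =
      LinearMap.ker (∑ l ∈ Finset.range D, s ^ l) ⊔
        (LinearMap.range (s - 1) ⊔ LinearMap.ker (s - 1)) := by
    rw [← sup_assoc, sup_eq_left.2 h1, sup_comm]
  rw [e, ix_sup]
  apply ix_congr
  intro x hx
  refine ⟨fun h => Submodule.mem_sup_left h, fun h => ?_⟩
  obtain ⟨a, ha, k, hk, rfl⟩ := Submodule.mem_sup.1 h
  have h2 : (∑ l ∈ Finset.range D, s ^ l) k = 0 :=
    (Submodule.add_mem_iff_right _ (h1 ha)).1 hx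
  have h3 := geom_apply_fixed (LinearMap.mem_ker.1 hk) 1 D
  rw [pow_one, h2, ← natCast_zsmul] at h3
  have : k = 0 := (smul_eq_zero_iff_right (by exact_mod_cast hD)).1 h3.symm
  rwa [this, add_zero]

end

theorem card_Hh (s : End ℤ M) (D j : ℕ) : Nat.card (Hh s D j) =
    if Even j then ix (LinearMap.range (∑ l ∈ Finset.range D, s ^ l)) (LinearMap.ker (s - 1))
    else ix (LinearMap.range (s - 1)) (LinearMap.ker (∑ l ∈ Finset.range D, s ^ l)) := by
  rw [card_Hq]
  unfold tau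
  by_cases h : Even j <;> simp [h, Nat.even_add_one]

theorem nsmul_Hh (s : End ℤ M) (D j : ℕ) (c : Hh s D j) : D • c = 0 := by
  obtain ⟨x, hx, rfl⟩ := Hq.mk_surj c
  have e : D • Hq.mk (LinearMap.range (tau s D (j + 1))) x hx =
      Hq.mk (LinearMap.range (tau s D (j + 1))) (D • x) (Submodule.smul_of_tower_mem _ D hx) :=
    (map_nsmul (Hq.mkL _ _) D ⟨x, hx⟩).symm
  rw [e, Hq.mk_eq_zero]
  unfold tau at hx ⊢
  by_cases h : Even j
  · rw [if_pos h] at hx
    rw [if_neg (by simp [Nat.even_add_one, h])]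
    exact ⟨x, by simpa using geom_apply_fixed (LinearMap.mem_ker.1 hx) 1 D⟩
  · rw [if_neg h] at hx
    rw [if_pos (by simp [Nat.even_add_one, h])]
    obtain ⟨H, hH⟩ : X - Polynomial.C 1 ∣ (D : ℤ[X]) - ∑ l ∈ Finset.range D, X ^ l := by
      rw [dvd_iff_isRoot]
      simp [eval_finsetSum]
    have h3 := congrArg (aeval s) hH
    simp only [map_pow, map_sub, aeval_X, map_one, map_mul, map_natCast, map_sum] at h3
    refine ⟨aeval s H x, ?_⟩
    rw [← Module.End.mul_apply, ← h3, LinearMap.sub_apply, LinearMap.mem_ker.1 hx, sub_zero]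
    simp

theorem val_ntor {G : Type*} [AddCommGroup G] (hG : Nat.card G ≠ 0) {q k r : ℕ} (hq : q.Prime)
    (hr : ¬ q ∣ r) (h : ∀ c : G, (q ^ k * r) • c = 0) :
    padicValNat q (ntor G (q ^ k)) = padicValNat q (Nat.card G) := by
  have := Fact.mk hq
  have : Finite G := Nat.finite_of_card_ne_zero hG
  set φ := nsmulAddMonoidHom (α := G) (q ^ k)
  have h1 : ntor G (q ^ k) = Nat.card φ.ker := rfl
  have h2 : Nat.card φ.ker * Nat.card φ.range = Nat.card G := by
    rw [← AddSubgroup.index_ker, AddSubgroup.card_mul_index]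
  have h3 : ¬ q ∣ Nat.card φ.range := by
    intro hd
    obtain ⟨⟨_, x, rfl⟩, hx⟩ := exists_prime_addOrderOf_dvd_card' q hd
    apply hr
    rw [← hx, addOrderOf_dvd_iff_nsmul_eq_zero]
    apply Subtype.ext
    change r • (q ^ k • x) = 0
    rw [← mul_nsmul', mul_comm, h]
  rw [h1, ← h2, padicValNat.mul Nat.card_pos.ne' Nat.card_pos.ne',
    padicValNat.eq_zero_of_not_dvd h3, add_zero]

/-- the correction term of the Herbrand quotient -/
def vs (q k : ℕ) (s : End ℤ M) : ℚ :=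
  ∑ j ∈ Finset.range k, ((fr (s ^ q ^ (j + 1)) : ℚ) - fr (s ^ q ^ j)) / (q ^ j * (q - 1))

theorem vs_succ {q : ℕ} (hq : q.Prime) (k : ℕ) (s : End ℤ M) :
    q * (q - 1) * vs q (k + 1) s = q * ((fr (s ^ q) : ℚ) - fr s) + (q - 1) * vs q k (s ^ q) := by
  have h7 : (2 : ℚ) ≤ q := by exact_mod_cast hq.two_le
  have h1 : (q : ℚ) - 1 ≠ 0 := by linarith
  have h0 : (q : ℚ) ≠ 0 := by linarith
  unfold vs
  rw [Finset.sum_range_succ', mul_add, Finset.mul_sum, Finset.mul_sum, add_comm]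
  congr 1
  · simp only [zero_add, pow_one, pow_zero]
    field_simp
  · refine Finset.sum_congr rfl fun j _ => ?_
    simp only [← pow_mul, ← pow_succ']
    field_simp
    ring

/-- the Herbrand quotient at the prime `q` -/
theorem herbrand [Module.Free ℤ M] [Module.Finite ℤ M] {s : End ℤ M} {q k r : ℕ} (hq : q.Prime)
    (hr : ¬ q ∣ r) (hs : s ^ (q ^ k * r) = 1) (n : ℕ) :
    (padicValNat q (ntor (Hh s (q ^ k * r) (0 + n)) (q ^ k)) : ℚ) -
      padicValNat q (ntor (Hh s (q ^ k * r) (1 + n)) (q ^ k)) =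
      (-1) ^ n * (k * fr s - vs q k s) := by
  have := Fact.mk hq
  have hr0 : r ≠ 0 := by rintro rfl; exact hr (dvd_zero _)
  have hD : q ^ k * r ≠ 0 := Nat.mul_ne_zero (pow_ne_zero _ hq.ne_zero) hr0
  have e1 := even_index s hs
  have e2 := odd_index s hD hs
  obtain ⟨t1, t2⟩ := kap_top hq hr hs
  set I := ix (LinearMap.ker (s - 1) ⊔ LinearMap.ker (∑ l ∈ Finset.range (q ^ k * r), s ^ l)) ⊤
  set A := ix (LinearMap.range (∑ l ∈ Finset.range (q ^ k * r), s ^ l)) (LinearMap.ker (s - 1))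
    with hA
  set B := ix (LinearMap.range (s - 1)) (LinearMap.ker (∑ l ∈ Finset.range (q ^ k * r), s ^ l))
    with hB
  have hIA : I * A ≠ 0 := by rw [e1]; exact pow_ne_zero _ hD
  have hBI : B * I ≠ 0 := by rw [e2]; exact t1
  have hI := left_ne_zero_of_mul hIA
  have hA0 := right_ne_zero_of_mul hIA
  have hB0 := left_ne_zero_of_mul hBI
  have v1 := congrArg (padicValNat q) e1
  have v2 := congrArg (padicValNat q) e2
  rw [padicValNat.mul hI hA0, padicValNat.pow,
    padicValNat.mul (pow_ne_zero _ hq.ne_zero) hr0, padicValNat.prime_pow,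
    padicValNat.eq_zero_of_not_dvd hr, add_zero] at v1
  rw [padicValNat.mul hB0 hI] at v2
  have key : (padicValNat q A : ℚ) - padicValNat q B = k * fr s - vs q k s := by
    have w1 := congrArg (Nat.cast : ℕ → ℚ) v1
    have w2 := congrArg (Nat.cast : ℕ → ℚ) v2
    push_cast at w1 w2
    rw [t2] at w2
    unfold vs
    linarith
  have hc : ∀ j, Nat.card (Hh s (q ^ k * r) j) ≠ 0 := by
    intro j
    rw [card_Hh]
    split_ifs
    · exact hA0
    · exact hB0
  rw [val_ntor (hc _) hq hr (nsmul_Hh s _ _), val_ntor (hc _) hq hr (nsmul_Hh s _ _), card_Hh,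
    card_Hh, ← hA, ← hB, zero_add, add_comm 1 n, ← key]
  rcases Nat.even_or_odd n with h | h
  · rw [if_pos h, if_neg (by simp [Nat.even_add_one, h]), h.neg_one_pow, one_mul]
  · rw [if_neg (Nat.not_even_iff_odd.2 h), if_pos h.add_one, h.neg_one_pow]
    ring

end Pool.Agent.Lib.MP_1ba768_gt.Rank
end
end

-- part Pool.Agent.Lib.MP_1ba768_gt.Rank
section

/-! The rank of the fixed part of the monodromy, by a recursion of Floyd type. -/

set_option autoImplicit false

open Pool.Agent.Shared.SingHom Module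

noncomputable section

namespace Pool.Agent.Lib.MP_1ba768_gt

variable {ι : Type} [Fintype ι] [DecidableEq ι]

namespace Rank

/-- the order of the `a`-th power of the monodromy on the coordinates in `J` -/
def od (w : ι → ℕ) (d a : ℕ) (J : Finset ι) : ℕ := J.lcm fun i => d / Nat.gcd d (a * w i)

/-- the expected signed rank -/
def Fs (w : ι → ℕ) (d a : ℕ) (S : Finset ι) : ℚ :=
  ∑ J ∈ S.powerset, (-1) ^ J.card * (∏ j ∈ J, ((d : ℚ) / w j)) / od w d a J

theorem div_gcd_dvd_iff {d : ℕ} (hd : 0 < d) (x D : ℕ) : d / Nat.gcd d x ∣ D ↔ d ∣ D * x := by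
  rw [Nat.div_dvd_iff_dvd_mul (Nat.gcd_dvd_left d x) (Nat.gcd_pos_of_pos_left x hd),
    Nat.dvd_gcd_mul_iff_dvd_mul, mul_comm]

omit [Fintype ι] [DecidableEq ι] in
theorem od_dvd_iff {w : ι → ℕ} {d : ℕ} (hd : 0 < d) (a D : ℕ) (J : Finset ι) :
    od w d a J ∣ D ↔ ∀ i ∈ J, d ∣ a * D * w i := by
  unfold od
  rw [Finset.lcm_dvd_iff]
  refine forall₂_congr fun i _ => ?_
  rw [div_gcd_dvd_iff hd, ← mul_assoc, mul_comm D a]

omit [Fintype ι] [DecidableEq ι] in
theorem od_mul {w : ι → ℕ} {d : ℕ} (hd : 0 < d) {a D q : ℕ} (hq : q.Prime) {J : Finset ι}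
    (h1 : ∀ i ∈ J, d ∣ a * (q * D) * w i) (h2 : ¬ ∀ i ∈ J, d ∣ a * D * w i) :
    od w d a J = q * od w d (a * q) J := by
  rw [← od_dvd_iff hd] at h1 h2
  have h3 : q ∣ od w d a J := by
    by_contra h
    exact h2 (((Nat.Prime.coprime_iff_not_dvd hq).2 h).symm.dvd_of_dvd_mul_left h1)
  obtain ⟨m, hm⟩ := h3
  have h4 : ∀ E, od w d (a * q) J ∣ E ↔ m ∣ E := by
    intro E
    rw [od_dvd_iff hd, mul_assoc a q E, ← od_dvd_iff hd, hm, Nat.mul_dvd_mul_iff_left hq.pos]
  rw [hm, Nat.dvd_antisymm ((h4 m).2 dvd_rfl) ((h4 _).1 dvd_rfl)]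

omit [Fintype ι] in
theorem Fs_step {w : ι → ℕ} {d : ℕ} (hd : 0 < d) {a D q : ℕ} (hq : q.Prime) {S : Finset ι}
    (h1 : ∀ i ∈ S, d ∣ a * (q * D) * w i) :
    Fs w d (a * q) S - Fs w d (a * q) (S.filter fun i => d ∣ a * D * w i) =
      q * (Fs w d a S - Fs w d a (S.filter fun i => d ∣ a * D * w i)) := by
  have hsub := Finset.powerset_mono.2 (Finset.filter_subset (fun i => d ∣ a * D * w i) S)
  unfold Fs
  rw [← Finset.sum_sdiff_eq_sub hsub, ← Finset.sum_sdiff_eq_sub hsub, Finset.mul_sum]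
  refine Finset.sum_congr rfl fun J hJ => ?_
  rw [Finset.mem_sdiff, Finset.mem_powerset, Finset.mem_powerset] at hJ
  have h := od_mul hd hq (fun i hi => h1 i (hJ.1 hi))
    (fun h => hJ.2 fun i hi => Finset.mem_filter.2 ⟨hJ.1 hi, h i hi⟩)
  have hq0 : (q : ℚ) ≠ 0 := by exact_mod_cast hq.ne_zero
  rw [h]
  push_cast
  rw [mul_div_assoc' (q : ℚ), mul_div_mul_left _ _ hq0]

omit [Fintype ι] in
theorem Fs_base {w : ι → ℕ} {d : ℕ} (hd : 0 < d) {a : ℕ} {S : Finset ι}
    (h1 : ∀ i ∈ S, d ∣ a * 1 * w i) :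
    Fs w d a S = (-1) ^ S.card * ∏ i ∈ S, ((d : ℚ) / w i - 1) := by
  have e : (-1) ^ S.card * ∏ i ∈ S, ((d : ℚ) / w i - 1) = ∏ i ∈ S, (1 + -((d : ℚ) / w i)) := by
    rw [← Finset.prod_neg]
    exact Finset.prod_congr rfl fun i _ => by ring
  rw [e, Finset.prod_one_add]
  refine Finset.sum_congr rfl fun J hJ => ?_
  have h : od w d a J = 1 :=
    Nat.dvd_one.1 ((od_dvd_iff hd a 1 J).2 fun i hi => h1 i (Finset.mem_powerset.1 hJ hi))
  rw [h, Finset.prod_neg, Nat.cast_one, div_one]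

theorem adm_filter {w : ι → ℕ} {d : ℕ} {S : Finset ι} (hS : Adm w d S) (c : ℕ) :
    Adm w d (S.filter fun i => d ∣ c * w i) := by
  obtain ⟨b, rfl⟩ := hS
  refine ⟨Nat.gcd b c, ?_⟩
  ext i
  simp only [Fx, Finset.mem_filter, Finset.mem_univ, true_and]
  rw [← Nat.gcd_mul_right, Nat.dvd_gcd_iff]

variable {w : ι → ℕ} {d : ℕ} {M : Finset ι → Type} [∀ S, AddCommGroup (M S)]
  {T : ∀ S, Module.End ℤ (M S)}

theorem free_of (h : LatticeData w d M T) {S : Finset ι} (hS : Adm w d S) : Module.Free ℤ (M S) := by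
  obtain ⟨μ, ⟨e⟩, _⟩ := h.free S hS
  exact Module.Free.of_equiv e.symm

theorem finite_of (h : LatticeData w d M T) {S : Finset ι} (hS : Adm w d S) :
    Module.Finite ℤ (M S) := by
  obtain ⟨μ, ⟨e⟩, _⟩ := h.free S hS
  exact Module.Finite.equiv e.symm

theorem herb_step (h : LatticeData w d M T) {S S' : Finset ι} (hS : Adm w d S) (hS' : Adm w d S')
    (hsub : S' ⊆ S) {a q k r : ℕ} (hq : q.Prime) (hr : ¬ q ∣ r)
    (h1 : ∀ i ∈ S, d ∣ a * (q ^ (k + 1) * r) * w i)
    (h2 : ∀ i ∈ S, i ∉ S' → ¬ d ∣ a * (q ^ k * r) * w i) :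
    (-1 : ℚ) ^ S.card * ((k + 1 : ℕ) * fr (T S ^ a) - vs q (k + 1) (T S ^ a)) =
      (-1) ^ S'.card * ((k + 1 : ℕ) * fr (T S' ^ a) - vs q (k + 1) (T S' ^ a)) := by
  have := free_of h hS
  have := finite_of h hS
  have := free_of h hS'
  have := finite_of h hS'
  have hr0 : r ≠ 0 := by rintro rfl; exact hr (dvd_zero _)
  have e : q ^ (k + 1) * r / q = q ^ k * r := by
    rw [pow_succ', mul_assoc, Nat.mul_div_cancel_left _ hq.pos]
  have hs := h.step S S' a (q ^ (k + 1) * r) q hS hS' hsub hq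
    (Nat.mul_pos (pow_pos hq.pos _) (Nat.pos_of_ne_zero hr0))
    ((dvd_pow_self q k.succ_ne_zero).mul_right r) h1 (by rw [e]; exact h2)
  rw [← herbrand hq hr (by rw [← pow_mul]; exact h.ord S _ h1),
    ← herbrand hq hr (by rw [← pow_mul]; exact h.ord S' _ fun i hi => h1 i (hsub hi)), hs, hs]

theorem floyd (h : LatticeData w d M T) {S S' : Finset ι} (hS : Adm w d S) (hS' : Adm w d S')
    (hsub : S' ⊆ S) {a q D : ℕ} (hq : q.Prime) (hD : D ≠ 0)
    (h1 : ∀ i ∈ S, d ∣ a * (q * D) * w i) (h2 : ∀ i ∈ S, i ∉ S' → ¬ d ∣ a * D * w i) :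
    (-1 : ℚ) ^ S.card * fr (T S ^ (a * q)) - (-1) ^ S'.card * fr (T S' ^ (a * q)) =
      q * ((-1) ^ S.card * fr (T S ^ a) - (-1) ^ S'.card * fr (T S' ^ a)) := by
  obtain ⟨k, r, hr, rfl⟩ := Nat.exists_eq_pow_mul_and_not_dvd hD q hq.ne_one
  have e1 := herb_step h hS hS' hsub (a := a) (k := k) hq hr
    (by rw [pow_succ', mul_assoc q]; exact h1) h2
  have e2 : (-1 : ℚ) ^ S.card * (k * fr (T S ^ (a * q)) - vs q k (T S ^ (a * q))) =
      (-1) ^ S'.card * (k * fr (T S' ^ (a * q)) - vs q k (T S' ^ (a * q))) := by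
    rcases k with _ | k
    · simp [vs]
    · refine herb_step h hS hS' hsub hq hr (by rw [mul_assoc a q]; exact h1) ?_
      rw [mul_assoc a q, ← mul_assoc q, ← pow_succ']
      exact h2
  have v1 := vs_succ hq k (T S ^ a)
  have v2 := vs_succ hq k (T S' ^ a)
  rw [← pow_mul] at v1 v2
  have h7 : (2 : ℚ) ≤ q := by exact_mod_cast hq.two_le
  have hne : ((q : ℚ) - 1) * (k + 1) + 1 ≠ 0 := by
    have : (0 : ℚ) ≤ (q - 1) * (k + 1) := mul_nonneg (by linarith) (by positivity)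
    linarith
  apply mul_left_cancel₀ hne
  push_cast at e1
  linear_combination (q - 1 : ℚ) * e2 - (q * (q - 1) : ℚ) * e1 - (-1 : ℚ) ^ S.card * v1 +
    (-1 : ℚ) ^ S'.card * v2

theorem signed_rank (hd : 0 < d) (h : LatticeData w d M T) (S : Finset ι) : Adm w d S →
    ∀ D, D ≠ 0 → ∀ a, (∀ i ∈ S, d ∣ a * D * w i) →
      (-1 : ℚ) ^ S.card * fr (T S ^ a) = Fs w d a S := by
  induction S using Finset.strongInduction with
  | H S ihS =>
    intro hS D
    induction D using Nat.strong_induction_on with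
    | _ D ihD =>
      intro hD a ha
      by_cases hD1 : D = 1
      · subst hD1
        obtain ⟨μ, ⟨e⟩, hμ⟩ := h.free S hS
        rw [Fs_base hd ha, h.ord S a (by simpa using ha), ← hμ, fr, sub_self, LinearMap.ker_zero,
          finrank_top, e.finrank_eq, Module.finrank_fin_fun]
      · obtain ⟨q, hq, D, rfl⟩ := Nat.exists_prime_and_dvd hD1
        have hD0 : D ≠ 0 := right_ne_zero_of_mul hD
        have hlt : D < q * D := by
          have := hq.two_le
          have := Nat.pos_of_ne_zero hD0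
          nlinarith
        by_cases hall : ∀ i ∈ S, d ∣ a * D * w i
        · exact ihD D hlt hD0 a hall
        · have hss : S.filter (fun i => d ∣ a * D * w i) ⊂ S := by
            rw [Finset.filter_ssubset]
            push Not at hall
            exact hall
          have hS' := adm_filter hS (a * D)
          have f1 := floyd h hS hS' hss.subset (a := a) hq hD0 ha
            (fun i hi hi' hdv => hi' (Finset.mem_filter.2 ⟨hi, hdv⟩))
          have f2 := Fs_step hd hq ha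
          have i1 := ihS _ hss hS' D hD0 a fun i hi => (Finset.mem_filter.1 hi).2
          have i2 := ihS _ hss hS' D hD0 (a * q) fun i hi => by
            rw [mul_assoc a q]
            exact ha i (Finset.mem_filter.1 hi).1
          have i3 := ihD D hlt hD0 (a * q) fun i hi => by
            rw [mul_assoc a q]
            exact ha i hi
          have hq0 : (q : ℚ) ≠ 0 := by exact_mod_cast hq.ne_zero
          apply mul_left_cancel₀ hq0
          rw [i1, i2, i3] at f1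
          linarith

end Rank

theorem rank_formula {w : ι → ℕ} {d : ℕ} (hw : ∀ i, 0 < w i) (hd : 0 < d)
    {M : Finset ι → Type} [∀ S, AddCommGroup (M S)] {T : ∀ S, Module.End ℤ (M S)}
    (h : LatticeData w d M T) (u v : ι → ℕ) (hu : ∀ i, u i = d / Nat.gcd d (w i))
    (hv : ∀ i, v i = w i / Nat.gcd d (w i)) (S : Finset ι) (hS : Adm w d S) :
    (Module.finrank ℤ (LinearMap.ker (T S - 1)) : ℚ) =
      ∑ J ∈ S.powerset, (-1 : ℚ) ^ (S.card - J.card) *
        ((∏ j ∈ J, (u j : ℚ)) / ((∏ j ∈ J, (v j : ℚ)) * ((J.lcm u : ℕ) : ℚ))) := by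
  have key := Rank.signed_rank hd h S hS d hd.ne' 1 fun i _ => by
    rw [one_mul]
    exact dvd_mul_right _ _
  rw [pow_one, Rank.fr] at key
  have e : (Module.finrank ℤ (LinearMap.ker (T S - 1)) : ℚ) =
      (-1) ^ S.card * Rank.Fs w d 1 S := by
    rw [← key, ← mul_assoc, ← mul_pow]
    simp
  rw [e, Rank.Fs, Finset.mul_sum]
  refine Finset.sum_congr rfl fun J hJ => ?_
  obtain ⟨m, hm⟩ := Nat.exists_eq_add_of_le (Finset.card_le_card (Finset.mem_powerset.1 hJ))
  have e1 : Rank.od w d 1 J = J.lcm u := by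
    unfold Rank.od
    congr 1
    funext i
    rw [hu, one_mul]
  have e2 : ∀ j, (d : ℚ) / w j = (u j : ℚ) / v j := by
    intro j
    have hg : ((Nat.gcd d (w j) : ℕ) : ℚ) ≠ 0 := by
      exact_mod_cast (Nat.gcd_pos_of_pos_left _ hd).ne'
    have hw' : (w j : ℚ) ≠ 0 := by exact_mod_cast (hw j).ne'
    rw [hu, hv, Nat.cast_div (Nat.gcd_dvd_left _ _) hg, Nat.cast_div (Nat.gcd_dvd_right _ _) hg]
    field_simp
  rw [e1, hm, Nat.add_sub_cancel_left, ← div_div, ← Finset.prod_div_distrib]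
  simp only [e2]
  have e3 : (-1 : ℚ) ^ J.card * (-1) ^ J.card = 1 := by
    rw [← mul_pow]
    simp
  rw [pow_add, mul_div_assoc]
  linear_combination ((-1 : ℚ) ^ m * ((∏ j ∈ J, (u j : ℚ) / v j) / ((J.lcm u : ℕ) : ℚ))) * e3

end Pool.Agent.Lib.MP_1ba768_gt
end
end
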