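import Pool.Agent.Shared.SingHom.Main
import Pool.Agent.Lib.MP_1ba768_gt.Rank


/-! The homology of the link is the cokernel of `t - 1` on the Milnor lattice. -/

set_option autoImplicit false

open Set MvPolynomial Pool.Agent.Shared.SingHom

noncomputable section

namespace Pool.Agent.Lib.MP_1ba768_gt

namespace Link

/-! ### Algebra -/

theorem alg {M Q G Hp Hm HA HB : Type*} [AddCommGroup M] [AddCommGroup Q] [AddCommGroup G]
    [AddCommGroup Hp] [AddCommGroup Hm] [AddCommGroup HA] [AddCommGroup HB] (t : Module.End ℤ M)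
    (δ : Q →ₗ[ℤ] G) (hδ : Function.Surjective δ) (ip : Hp →ₗ[ℤ] Q) (im : Hm →ₗ[ℤ] Q)
    (hex : Function.Exact (ip.coprod im) δ) (kA : Q →ₗ[ℤ] HA) (kB : Q →ₗ[ℤ] HB)
    (hk : Function.Bijective (kA.prod kB)) (jp : M →ₗ[ℤ] Hp) (jm : M →ₗ[ℤ] Hm)
    (jA : M →ₗ[ℤ] HA) (jB : M →ₗ[ℤ] HB) (hjp : Function.Surjective jp)
    (hjm : Function.Surjective jm) (hjA : Function.Bijective jA) (hjB : Function.Bijective jB)
    (r1 : ∀ x, kA (ip (jp x)) = jA x) (r2 : ∀ x, kA (im (jm x)) = jA x)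
    (r3 : ∀ x, kB (ip (jp x)) = jB (t x)) (r4 : ∀ x, kB (im (jm x)) = jB x) :
    Nonempty (G ≃ₗ[ℤ] (M ⧸ LinearMap.range (t - 1))) := by
  let eA := LinearEquiv.ofBijective jA hjA
  let eB := LinearEquiv.ofBijective jB hjB
  have hA : ∀ x, eA.symm (jA x) = x := fun x => eA.symm_apply_apply x
  have hB : ∀ x, eB.symm (jB x) = x := fun x => eB.symm_apply_apply x
  have hA' : ∀ x, jA (eA.symm x) = x := fun x => eA.apply_symm_apply x
  have hB' : ∀ x, jB (eB.symm x) = x := fun x => eB.apply_symm_apply x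
  let ψ : Q →ₗ[ℤ] (M ⧸ LinearMap.range (t - 1)) :=
    (LinearMap.range (t - 1)).mkQ.comp
      (eB.symm.toLinearMap.comp kB - eA.symm.toLinearMap.comp kA)
  have hψ : ∀ q, ψ q = 0 ↔ ∃ x, t x - x = eB.symm (kB q) - eA.symm (kA q) := by
    intro q
    simp only [ψ, LinearMap.comp_apply, Submodule.mkQ_apply, Submodule.Quotient.mk_eq_zero,
      LinearMap.mem_range, LinearMap.sub_apply, Module.End.one_apply, LinearEquiv.coe_coe]
  have hs : Function.Surjective ψ := by
    intro c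
    obtain ⟨b, rfl⟩ := (LinearMap.range (t - 1)).mkQ_surjective c
    obtain ⟨q, hq⟩ := hk.2 (0, jB b)
    have h1 : kA q = 0 := congrArg Prod.fst hq
    have h2 : kB q = jB b := congrArg Prod.snd hq
    refine ⟨q, ?_⟩
    simp only [ψ, LinearMap.comp_apply, LinearMap.sub_apply, LinearEquiv.coe_coe, h1, h2, hB,
      map_zero, sub_zero]
  have hker : LinearMap.ker δ = LinearMap.ker ψ := by
    ext q
    rw [LinearMap.mem_ker, LinearMap.mem_ker, hex q, hψ]
    constructor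
    · rintro ⟨⟨a, b⟩, rfl⟩
      obtain ⟨x, rfl⟩ := hjp a
      obtain ⟨y, rfl⟩ := hjm b
      refine ⟨x, ?_⟩
      simp only [LinearMap.coprod_apply, map_add, r1, r2, r3, r4, hA, hB]
      abel
    · rintro ⟨x, hx⟩
      refine ⟨(jp x, jm (eA.symm (kA q) - x)), hk.1 (Prod.ext ?_ ?_)⟩
      · change kA _ = kA q
        simp only [LinearMap.coprod_apply, map_add, r1, r2, map_sub, hA']
        abel
      · change kB _ = kB q
        have h : eB.symm (kB q) = t x + (eA.symm (kA q) - x) := by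
          rw [← sub_eq_zero, ← sub_self (t x - x)]
          nth_rewrite 1 [hx]
          abel
        rw [← hB' (kB q), h]
        simp only [LinearMap.coprod_apply, map_add, r3, r4]
  exact ⟨((δ.quotKerEquivOfSurjective hδ).symm.trans (Submodule.quotEquivOfEq _ _ hker)).trans
    (ψ.quotKerEquivOfSurjective hs)⟩

theorem quot_equiv {M M' : Type*} [AddCommGroup M] [AddCommGroup M'] (t : Module.End ℤ M)
    (t' : Module.End ℤ M') (κ : M →ₗ[ℤ] M') (hκ : Function.Bijective κ)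
    (h : ∀ x, t' (κ x) = κ (t x)) :
    Nonempty ((M ⧸ LinearMap.range (t - 1)) ≃ₗ[ℤ] (M' ⧸ LinearMap.range (t' - 1))) := by
  refine ⟨Submodule.Quotient.equiv _ _ (LinearEquiv.ofBijective κ hκ) ?_⟩
  ext y
  simp only [Submodule.mem_map, LinearMap.mem_range, LinearMap.sub_apply, Module.End.one_apply,
    LinearEquiv.coe_coe, LinearEquiv.ofBijective_apply]
  constructor
  · rintro ⟨_, ⟨x, rfl⟩, rfl⟩
    exact ⟨κ x, by rw [h, map_sub]⟩
  · rintro ⟨y, rfl⟩
    obtain ⟨x, rfl⟩ := hκ.2 y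
    exact ⟨_, ⟨x, rfl⟩, by rw [h, map_sub]⟩

/-! ### Weighted radial projection onto the sphere -/

variable {ι : Type} [Fintype ι]

/-- squared euclidean norm -/
def nsq (z : ι → ℂ) : ℝ := ∑ i, Complex.normSq (z i)

/-- weighted scaling -/
def scl (w : ι → ℕ) (a : ℝ) (z : ι → ℂ) : ι → ℂ := fun i => (a : ℂ) ^ w i * z i

/-- the part of the sphere where `f` takes values in `E` -/
def XX (f : MvPolynomial ι ℂ) (E : Set ℂ) : Set (ι → ℂ) := {z | nsq z = 1 ∧ eval z f ∈ E}

theorem continuous_nsq : Continuous (nsq : (ι → ℂ) → ℝ) := by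
  unfold nsq
  fun_prop

theorem nsq_zero : nsq (0 : ι → ℂ) = 0 := by simp [nsq]

theorem ne_zero_of_nsq {z : ι → ℂ} (h : nsq z ≠ 0) : z ≠ 0 := by
  rintro rfl
  exact h nsq_zero

theorem nsq_scl (w : ι → ℕ) (a : ℝ) (z : ι → ℂ) :
    nsq (scl w a z) = ∑ i, a ^ (2 * w i) * Complex.normSq (z i) := by
  simp only [nsq, scl, map_mul, map_pow, Complex.normSq_ofReal]
  refine Finset.sum_congr rfl fun i _ => ?_
  ring

omit [Fintype ι] in
theorem scl_one (w : ι → ℕ) (z : ι → ℂ) : scl w 1 z = z := by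
  ext i
  simp [scl]

theorem strictMono_scl {w : ι → ℕ} (hw : ∀ i, 0 < w i) {z : ι → ℂ} (hz : z ≠ 0) :
    StrictMonoOn (fun a => nsq (scl w a z)) (Ici 0) := by
  intro a ha b _ hab
  obtain ⟨j, hj⟩ := Function.ne_iff.1 hz
  simp only [nsq_scl]
  refine Finset.sum_lt_sum (fun i _ => ?_) ⟨j, Finset.mem_univ _, ?_⟩
  · exact mul_le_mul_of_nonneg_right (pow_le_pow_left₀ ha hab.le _) (Complex.normSq_nonneg _)
  · refine mul_lt_mul_of_pos_right (pow_lt_pow_left₀ hab ha ?_) (Complex.normSq_pos.2 hj)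
    have := hw j
    omega

theorem exists_root {w : ι → ℕ} (hw : ∀ i, 0 < w i) {z : ι → ℂ} (hz : z ≠ 0) :
    ∃ a, 0 < a ∧ nsq (scl w a z) = 1 := by
  obtain ⟨j, hj⟩ := Function.ne_iff.1 hz
  have hj' : 0 < Complex.normSq (z j) := Complex.normSq_pos.2 hj
  set b : ℝ := max 1 (Complex.normSq (z j))⁻¹ with hb
  have hb1 : 1 ≤ b := le_max_left _ _
  have h0 : nsq (scl w 0 z) = 0 := by
    rw [nsq_scl]
    refine Finset.sum_eq_zero fun i _ => ?_
    have := hw i
    rw [zero_pow (by omega), zero_mul]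
  have h1 : 1 ≤ nsq (scl w b z) := by
    rw [nsq_scl]
    refine le_trans ?_ (Finset.single_le_sum (f := fun i => b ^ (2 * w i) * Complex.normSq (z i))
      (fun i _ => mul_nonneg (by positivity) (Complex.normSq_nonneg _)) (Finset.mem_univ j))
    have h2 : b ≤ b ^ (2 * w j) := le_self_pow₀ hb1 (by have := hw j; omega)
    calc (1 : ℝ) = (Complex.normSq (z j))⁻¹ * Complex.normSq (z j) := by field_simp
      _ ≤ b ^ (2 * w j) * Complex.normSq (z j) :=
        mul_le_mul_of_nonneg_right ((le_max_right _ _).trans h2) hj'.le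
  have hc : Continuous fun a => nsq (scl w a z) := by
    simp only [nsq_scl]
    fun_prop
  obtain ⟨a, ha, ha1⟩ := intermediate_value_Icc (zero_le_one.trans hb1) hc.continuousOn
    (show (1 : ℝ) ∈ Icc (nsq (scl w 0 z)) (nsq (scl w b z)) from ⟨by rw [h0]; norm_num, h1⟩)
  refine ⟨a, lt_of_le_of_ne ha.1 ?_, ha1⟩
  rintro rfl
  simp only [h0] at ha1
  norm_num at ha1

theorem exists_lam {w : ι → ℕ} (hw : ∀ i, 0 < w i) : ∃ lam : (ι → ℂ) → ℝ,
    ContinuousOn lam {0}ᶜ ∧ (∀ z, z ≠ 0 → 0 < lam z ∧ nsq (scl w (lam z) z) = 1) ∧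
      ∀ z, nsq z = 1 → lam z = 1 := by
  have hex : ∀ z : ι → ℂ, ∃ a : ℝ, z ≠ 0 → 0 < a ∧ nsq (scl w a z) = 1 := by
    intro z
    by_cases hz : z = 0
    · exact ⟨1, fun h => (h hz).elim⟩
    · obtain ⟨a, ha⟩ := exists_root hw hz
      exact ⟨a, fun _ => ha⟩
  choose lam hlam using hex
  have hcont : ∀ a : ℝ, Continuous fun z : ι → ℂ => nsq (scl w a z) := by
    intro a
    simp only [nsq_scl]
    fun_prop
  refine ⟨lam, fun z hz => ContinuousAt.continuousWithinAt ?_, hlam, fun z hz => ?_⟩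
  · have hz' : z ≠ 0 := hz
    have hev : ∀ᶠ y in nhds z, y ≠ 0 := isOpen_compl_singleton.mem_nhds hz
    refine tendsto_order.2 ⟨fun a ha => ?_, fun a ha => ?_⟩
    · rcases lt_or_ge a 0 with h | h
      · filter_upwards [hev] with y hy using h.trans (hlam y hy).1
      · have h1 : nsq (scl w a z) < 1 := by
          rw [← (hlam z hz').2]
          exact strictMono_scl hw hz' h (hlam z hz').1.le ha
        filter_upwards [hev, (hcont a).continuousAt.eventually_lt_const h1] with y hy hy1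
        rw [← (hlam y hy).2] at hy1
        exact ((strictMono_scl hw hy).lt_iff_lt h (hlam y hy).1.le).1 hy1
    · have h : 0 ≤ a := ((hlam z hz').1.trans ha).le
      have h1 : 1 < nsq (scl w a z) := by
        rw [← (hlam z hz').2]
        exact strictMono_scl hw hz' (hlam z hz').1.le h ha
      filter_upwards [hev, (hcont a).continuousAt.eventually_const_lt h1] with y hy hy1
      rw [← (hlam y hy).2] at hy1
      exact ((strictMono_scl hw hy).lt_iff_lt (hlam y hy).1.le h).1 hy1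
  · have hz' : z ≠ 0 := ne_zero_of_nsq (by rw [hz]; norm_num)
    refine (strictMono_scl hw hz').injOn (hlam z hz').1.le (show (0 : ℝ) ≤ 1 by norm_num) ?_
    simp only [(hlam z hz').2, scl_one, hz]

theorem ac_sphere {w : ι → ℕ} (hw : ∀ i, 0 < w i) {Y Y' : Set (ι → ℂ)} (h0 : ∀ z ∈ Y, z ≠ 0)
    (hY : ∀ a : ℝ, 0 < a → ∀ z ∈ Y, scl w a z ∈ Y) (hY' : ∀ z, z ∈ Y' ↔ z ∈ Y ∧ nsq z = 1) :
    Ac Y Y' := by
  obtain ⟨lam, hc, hl, h1⟩ := exists_lam hw
  refine ac_of_deform (fun z hz => ((hY' z).1 hz).1) fun K _ hK => ?_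
  refine ⟨fun p => scl w (1 - p.1 + p.1 * lam p.2) p.2, ?_, fun z _ => ?_, fun t ht z hz => ?_,
    fun t _ z _ hz => ?_, fun z hz => ?_⟩
  · have h2 : ContinuousOn (fun p : ℝ × (ι → ℂ) => lam p.2) (Icc (0 : ℝ) 1 ×ˢ K) :=
      hc.comp continuousOn_snd fun p hp => h0 _ (hK hp.2)
    refine continuousOn_pi.2 fun i => ?_
    simp only [scl]
    refine ContinuousOn.mul (ContinuousOn.pow ?_ _) (by fun_prop)
    refine Complex.continuous_ofReal.comp_continuousOn ?_
    exact ContinuousOn.add (by fun_prop) (continuousOn_fst.mul h2)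
  · simp [scl_one]
  · refine hY _ ?_ z (hK hz)
    have := (hl z (h0 z (hK hz))).1
    rcases ht.2.eq_or_lt with h | h
    · simp only [h]
      linarith
    · have := mul_nonneg ht.1 this.le
      simp only
      linarith
  · simp only [h1 z ((hY' z).1 hz).2]
    rw [show 1 - t + t * 1 = 1 by ring, scl_one]
    exact hz
  · simp only [sub_self, one_mul, zero_add]
    exact (hY' _).2 ⟨hY _ (hl z (h0 z (hK hz))).1 z (hK hz), (hl z (h0 z (hK hz))).2⟩

/-! ### The tube around the link -/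

open ComplexConjugate in
/-- conjugate gradient made orthogonal to the position vector -/
def gv (f : MvPolynomial ι ℂ) (z : ι → ℂ) : ι → ℂ := fun i =>
  (∑ j, conj (z j) * z j) * conj (eval z (pderiv i f)) -
    (∑ j, conj (z j) * conj (eval z (pderiv j f))) * z i

/-- derivative of `f` along `gv` -/
def qv (f : MvPolynomial ι ℂ) (z : ι → ℂ) : ℂ := ∑ i, eval z (pderiv i f) * gv f z i

open ComplexConjugate in
theorem gv_orth (f : MvPolynomial ι ℂ) (z : ι → ℂ) : ∑ i, conj (z i) * gv f z i = 0 := by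
  simp only [gv, mul_sub, Finset.sum_sub_distrib]
  have h1 : ∀ a : ℂ, ∑ i, conj (z i) * (a * conj (eval z (pderiv i f))) =
      a * ∑ i, conj (z i) * conj (eval z (pderiv i f)) := fun a => by
    rw [Finset.mul_sum]
    exact Finset.sum_congr rfl fun i _ => by ring
  have h2 : ∀ a : ℂ, ∑ i, conj (z i) * (a * z i) = a * ∑ i, conj (z i) * z i := fun a => by
    rw [Finset.mul_sum]
    exact Finset.sum_congr rfl fun i _ => by ring
  rw [h1, h2]
  ring

open ComplexConjugate in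
theorem qv_ne {w : ι → ℕ} {d : ℕ} {f : MvPolynomial ι ℂ} (hw : ∀ i, 0 < w i)
    (hf : IsWeightedHomogeneous w f d)
    (hiso : ∀ z : ι → ℂ, (∀ i, eval z (pderiv i f) = 0) → z = 0) {z : ι → ℂ} (hz : z ≠ 0)
    (h0 : eval z f = 0) : qv f z ≠ 0 := by
  intro hq
  set N : ℂ := ∑ j, conj (z j) * z j with hN
  set a : ℂ := ∑ j, conj (z j) * conj (eval z (pderiv j f)) with ha
  have hg : ∀ i, gv f z i = N * conj (eval z (pderiv i f)) - a * z i := fun i => rfl
  have hNc : conj N = N := by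
    simp only [hN, map_sum, map_mul, Complex.conj_conj]
    exact Finset.sum_congr rfl fun i _ => by ring
  have h1 : ∑ i, ((Complex.normSq (gv f z i) : ℝ) : ℂ) = 0 := by
    have : ∀ i, ((Complex.normSq (gv f z i) : ℝ) : ℂ) =
        N * (eval z (pderiv i f) * gv f z i) - conj a * (conj (z i) * gv f z i) := fun i => by
      rw [Complex.normSq_eq_conj_mul_self]
      nth_rewrite 1 [hg i]
      simp only [map_sub, map_mul, Complex.conj_conj, hNc]
      ring
    simp only [this, Finset.sum_sub_distrib, ← Finset.mul_sum, gv_orth]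
    rw [show ∑ i, eval z (pderiv i f) * gv f z i = 0 from hq]
    ring
  have h2 : ∀ i, gv f z i = 0 := by
    have h3 : ∑ i, Complex.normSq (gv f z i) = 0 := by exact_mod_cast h1
    intro i
    exact Complex.normSq_eq_zero.1 ((Finset.sum_eq_zero_iff_of_nonneg
      (fun i _ => Complex.normSq_nonneg _)).1 h3 i (Finset.mem_univ i))
  have h4 : ∀ i, N * eval z (pderiv i f) = conj a * conj (z i) := fun i => by
    have := congrArg conj (h2 i)
    rw [hg] at this
    simp only [map_sub, map_mul, Complex.conj_conj, hNc, map_zero] at this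
    exact sub_eq_zero.1 this
  have hE := congrArg (eval z) hf.sum_weight_X_mul_pderiv
  simp only [map_sum, map_nsmul, map_mul, eval_X, h0, smul_zero] at hE
  simp only [nsmul_eq_mul] at hE
  obtain ⟨j, hj⟩ := Function.ne_iff.1 hz
  have hpos : ∀ v : ι → ℕ, (∀ i, 0 < v i) → (∑ i, (v i : ℂ) * (conj (z i) * z i)) ≠ 0 := by
    intro v hv
    have h5 : 0 < ∑ i, (v i : ℝ) * Complex.normSq (z i) :=
      Finset.sum_pos' (fun i _ => mul_nonneg (Nat.cast_nonneg _) (Complex.normSq_nonneg _))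
        ⟨j, Finset.mem_univ _, mul_pos (Nat.cast_pos.2 (hv j)) (Complex.normSq_pos.2 hj)⟩
    have h6 : (∑ i, (v i : ℂ) * (conj (z i) * z i)) =
        ((∑ i, (v i : ℝ) * Complex.normSq (z i) : ℝ) : ℂ) := by
      push_cast
      simp only [Complex.normSq_eq_conj_mul_self]
    rw [h6]
    exact_mod_cast h5.ne'
  have hN0 : N ≠ 0 := by simpa using hpos (fun _ => 1) (fun _ => one_pos)
  have ha0 : conj a = 0 := by
    have h7 : conj a * ∑ i, (w i : ℂ) * (conj (z i) * z i) = 0 := by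
      rw [← mul_zero N, ← hE, Finset.mul_sum, Finset.mul_sum]
      refine Finset.sum_congr rfl fun i _ => ?_
      linear_combination (-(w i : ℂ) * z i) * h4 i
    exact (mul_eq_zero.1 h7).resolve_right (hpos w hw)
  refine hz (hiso z fun i => ?_)
  have := h4 i
  rw [ha0, zero_mul] at this
  exact (mul_eq_zero.1 this).resolve_left hN0

theorem contDiff_eval (f : MvPolynomial ι ℂ) : ContDiff ℝ 1 fun z : ι → ℂ => eval z f :=
  contDiffOn_univ.1 ((AnalyticOnNhd.eval_continuousLinearMap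
    (ContinuousLinearMap.id ℝ (ι → ℂ)) f).contDiffOn uniqueDiffOn_univ)

open ComplexConjugate in
theorem contDiff_conj {E : Type*} [NormedAddCommGroup E] [NormedSpace ℝ E] {g : E → ℂ}
    (hg : ContDiff ℝ 1 g) : ContDiff ℝ 1 fun x => conj (g x) :=
  Complex.conjCLE.contDiff.comp hg

theorem contDiff_gv (f : MvPolynomial ι ℂ) (i : ι) : ContDiff ℝ 1 fun z => gv f z i := by
  have hp : ∀ j, ContDiff ℝ 1 fun z : ι → ℂ => z j := fun j => contDiff_apply ℝ ℂ j
  exact ((ContDiff.sum fun j _ => (contDiff_conj (hp j)).mul (hp j)).mul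
    (contDiff_conj (contDiff_eval _))).sub
    ((ContDiff.sum fun j _ => (contDiff_conj (hp j)).mul (contDiff_conj (contDiff_eval _))).mul
      (hp i))

theorem contDiff_qv (f : MvPolynomial ι ℂ) : ContDiff ℝ 1 (qv f) :=
  ContDiff.sum fun i _ => (contDiff_eval _).mul (contDiff_gv f i)

theorem contDiff_nsq : ContDiff ℝ 1 (nsq : (ι → ℂ) → ℝ) := by
  have hp : ∀ j, ContDiff ℝ 1 fun z : ι → ℂ => z j := fun j => contDiff_apply ℝ ℂ j
  refine ContDiff.sum fun j _ => ?_
  simp only [Complex.normSq_apply]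
  have h1 := Complex.reCLM.contDiff.comp (hp j)
  have h2 := Complex.imCLM.contDiff.comp (hp j)
  exact (h1.mul h1).add (h2.mul h2)

theorem hasDerivAt_eval (f : MvPolynomial ι ℂ) {z : ℝ → ι → ℂ} {v : ι → ℂ} {t : ℝ}
    (h : HasDerivAt z v t) :
    HasDerivAt (fun s => eval (z s) f) (∑ i, eval (z t) (pderiv i f) * v i) t := by
  classical
  induction f using MvPolynomial.induction_on with
  | C a => simpa using hasDerivAt_const t a
  | add p q hp hq =>
    simp only [map_add, add_mul, Finset.sum_add_distrib]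
    exact hp.add hq
  | mul_X p j hp =>
    have hj : HasDerivAt (fun s => z s j) (v j) t := hasDerivAt_pi.1 h j
    simp only [map_mul, eval_X]
    refine (hp.fun_mul hj).congr_deriv (Eq.symm ?_)
    simp only [Derivation.leibniz, smul_eq_mul, map_add, map_mul, eval_X, pderiv_X, add_mul,
      Finset.sum_add_distrib, Finset.sum_mul]
    rw [add_comm]
    congr 1
    · exact Finset.sum_congr rfl fun i _ => by ring
    · rw [Finset.sum_eq_single j]
      · simp
      · intro i _ hi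
        simp [hi.symm]
      · simp

open ComplexConjugate in
theorem hasDerivAt_nsq {z : ℝ → ι → ℂ} {v : ι → ℂ} {t : ℝ} (h : HasDerivAt z v t) :
    HasDerivAt (fun s => nsq (z s)) (2 * (∑ i, conj (z t i) * v i).re) t := by
  have h1 : ∀ i, HasDerivAt (fun s => Complex.normSq (z s i)) (2 * (conj (z t i) * v i).re) t := by
    intro i
    have hi : HasDerivAt (fun s => z s i) (v i) t := hasDerivAt_pi.1 h i
    have hr := Complex.reCLM.hasFDerivAt.comp_hasDerivAt t hi
    have him := Complex.imCLM.hasFDerivAt.comp_hasDerivAt t hi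
    simp only [Complex.normSq_apply]
    refine ((hr.fun_mul hr).fun_add (him.fun_mul him)).congr_deriv ?_
    simp
    ring
  have := HasDerivAt.fun_sum (u := Finset.univ) fun i _ => h1 i
  rwa [← Finset.mul_sum, ← Complex.re_sum] at this

theorem norm_le_of_nsq {z : ι → ℂ} (h : nsq z ≤ 4) : ‖z‖ ≤ 2 := by
  refine (pi_norm_le_iff_of_nonneg (by norm_num)).2 fun i => ?_
  have h1 : Complex.normSq (z i) ≤ nsq z :=
    Finset.single_le_sum (f := fun i => Complex.normSq (z i))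
      (fun i _ => Complex.normSq_nonneg _) (Finset.mem_univ i)
  rw [Complex.normSq_eq_norm_sq] at h1
  nlinarith [norm_nonneg (z i)]

theorem exists_eta {w : ι → ℕ} {d : ℕ} {f : MvPolynomial ι ℂ} (hw : ∀ i, 0 < w i)
    (hf : IsWeightedHomogeneous w f d)
    (hiso : ∀ z : ι → ℂ, (∀ i, eval z (pderiv i f) = 0) → z = 0) :
    ∃ η : ℝ, 0 < η ∧ ∀ z, dist (nsq z) 1 ≤ 1 / 2 → ‖eval z f‖ ≤ 3 * η → qv f z ≠ 0 := by
  have hK : IsCompact {z : ι → ℂ | dist (nsq z) 1 ≤ 1 / 2 ∧ qv f z = 0} := by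
    refine (isCompact_closedBall (0 : ι → ℂ) 2).of_isClosed_subset ?_ fun z hz => ?_
    · exact (isClosed_le (continuous_nsq.dist continuous_const) continuous_const).inter
        (isClosed_eq (contDiff_qv f).continuous continuous_const)
    · have := hz.1
      rw [Real.dist_eq, abs_le] at this
      exact mem_closedBall_zero_iff.2 (norm_le_of_nsq (by linarith))
  obtain ⟨a, ha, h⟩ := hK.exists_forall_le' (f := fun z => ‖eval z f‖) (a := 0)
    (contDiff_eval f).continuous.norm.continuousOn (fun z hz => by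
      refine norm_pos_iff.2 fun h0 => qv_ne hw hf hiso (ne_zero_of_nsq ?_) h0 hz.2
      have := hz.1
      rw [Real.dist_eq, abs_le] at this
      linarith)
  refine ⟨a / 4, by positivity, fun z hz h1 h2 => ?_⟩
  have := h z ⟨hz, h2⟩
  linarith

theorem exists_field {w : ι → ℕ} {d : ℕ} {f : MvPolynomial ι ℂ} (hw : ∀ i, 0 < w i)
    (hf : IsWeightedHomogeneous w f d)
    (hiso : ∀ z : ι → ℂ, (∀ i, eval z (pderiv i f) = 0) → z = 0) :
    ∃ η : ℝ, 0 < η ∧ ∃ χ : ℂ × (ι → ℂ) → ℝ, Continuous χ ∧ (∀ p, 0 ≤ χ p ∧ χ p ≤ 1) ∧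
      (∀ p, ‖p.1‖ ≤ 2 * η → nsq p.2 = 1 → ‖eval p.2 f‖ ≤ 2 * η → χ p = 1) ∧
      (∀ p, qv f p.2 = 0 → χ p = 0) ∧
      ∃ Φ : C(ℝ × ℂ × (ι → ℂ), ℂ × (ι → ℂ)), (∀ x, Φ (0, x) = x) ∧
        ∀ x t, HasDerivAt (fun s => Φ (s, x)) (χ (Φ (t, x)) • ((0 : ℂ), fun i =>
          (Φ (t, x)).1 * (qv f (Φ (t, x)).2)⁻¹ * gv f (Φ (t, x)).2 i)) t := by
  obtain ⟨η, hη, hq⟩ := exists_eta hw hf hiso
  let β : ContDiffBump (0 : ℂ) := ⟨2 * η, 3 * η, by positivity, by linarith⟩
  let γ : ContDiffBump (1 : ℝ) := ⟨1 / 4, 1 / 2, by norm_num, by norm_num⟩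
  let χ : ℂ × (ι → ℂ) → ℝ := fun p => β p.1 * β (eval p.2 f) * γ (nsq p.2)
  have hχ : ContDiff ℝ 1 χ :=
    ((β.contDiff.comp contDiff_fst).mul
      (β.contDiff.comp ((contDiff_eval f).comp contDiff_snd))).mul
      (γ.contDiff.comp (contDiff_nsq.comp contDiff_snd))
  let Zs : Set (ℂ × (ι → ℂ)) :=
    {p | ‖p.1‖ ≤ 3 * η ∧ ‖eval p.2 f‖ ≤ 3 * η ∧ dist (nsq p.2) 1 ≤ 1 / 2}
  have hZc : IsClosed Zs :=
    (isClosed_le continuous_fst.norm continuous_const).inter
      ((isClosed_le ((contDiff_eval f).continuous.comp continuous_snd).norm continuous_const).inter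
        (isClosed_le ((continuous_nsq.comp continuous_snd).dist continuous_const) continuous_const))
  have hZ : ∀ p, p ∉ Zs → χ p = 0 := by
    intro p hp
    by_contra h
    have h1 : β p.1 ≠ 0 := fun h' => h (by simp only [χ, h', zero_mul])
    have h2 : β (eval p.2 f) ≠ 0 := fun h' => h (by simp only [χ, h', zero_mul, mul_zero])
    have h3 : γ (nsq p.2) ≠ 0 := fun h' => h (by simp only [χ, h', mul_zero])
    refine hp ⟨?_, ?_, ?_⟩
    · by_contra h4
      exact h1 (β.zero_of_le_dist (by rw [dist_zero_right]; exact (not_le.1 h4).le))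
    · by_contra h4
      exact h2 (β.zero_of_le_dist (by rw [dist_zero_right]; exact (not_le.1 h4).le))
    · by_contra h4
      exact h3 (γ.zero_of_le_dist (not_le.1 h4).le)
  have hZK : IsCompact Zs := by
    refine ((isCompact_closedBall (0 : ℂ) (3 * η)).prod
      (isCompact_closedBall (0 : ι → ℂ) 2)).of_isClosed_subset hZc fun p hp => ⟨?_, ?_⟩
    · exact mem_closedBall_zero_iff.2 hp.1
    · have := hp.2.2
      rw [Real.dist_eq, abs_le] at this
      exact mem_closedBall_zero_iff.2 (norm_le_of_nsq (by linarith))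
  let ξ : ℂ × (ι → ℂ) → ℂ × (ι → ℂ) := fun p =>
    χ p • ((0 : ℂ), fun i => p.1 * (qv f p.2)⁻¹ * gv f p.2 i)
  have hξ : ContDiff ℝ 1 ξ := by
    refine contDiff_iff_contDiffAt.2 fun p => ?_
    by_cases hp : p ∈ Zs
    · refine hχ.contDiffAt.smul (contDiffAt_const.prodMk (contDiffAt_pi.2 fun i => ?_))
      exact (contDiffAt_fst.mul (((contDiff_qv f).comp contDiff_snd).contDiffAt.inv
        (hq _ hp.2.2 hp.2.1))).mul ((contDiff_gv f i).comp contDiff_snd).contDiffAt
    · refine (contDiffAt_const (c := (0 : ℂ × (ι → ℂ)))).congr_of_eventuallyEq ?_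
      filter_upwards [hZc.isOpen_compl.mem_nhds hp] with y hy
      simp only [ξ, hZ y hy, zero_smul]
  obtain ⟨Φ, h0, hΦ⟩ := exists_flow ξ hξ
    (HasCompactSupport.intro hZK fun p hp => by simp only [ξ, hZ p hp, zero_smul])
  refine ⟨η, hη, χ, hχ.continuous, fun p => ⟨?_, ?_⟩, fun p h1 h2 h3 => ?_, fun p hp => ?_,
    Φ, h0, hΦ⟩
  · exact mul_nonneg (mul_nonneg β.nonneg β.nonneg) γ.nonneg
  · exact mul_le_one₀ (mul_le_one₀ β.le_one β.nonneg β.le_one) γ.nonneg γ.le_one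
  · simp only [χ]
    rw [β.one_of_mem_closedBall (mem_closedBall_zero_iff.2 h1),
      β.one_of_mem_closedBall (mem_closedBall_zero_iff.2 h3), h2,
      γ.one_of_mem_closedBall (Metric.mem_closedBall_self (by norm_num [γ]))]
    norm_num
  · exact hZ p fun h => hq _ h.2.2 h.2.1 hp

theorem exists_tube {w : ι → ℕ} {d : ℕ} {f : MvPolynomial ι ℂ} (hw : ∀ i, 0 < w i)
    (hf : IsWeightedHomogeneous w f d)
    (hiso : ∀ z : ι → ℂ, (∀ i, eval z (pderiv i f) = 0) → z = 0) :
    ∃ η : ℝ, 0 < η ∧ ∃ G : ℝ × ℂ × (ι → ℂ) → (ι → ℂ), Continuous G ∧ (∀ u z, G (0, u, z) = z) ∧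
      (∀ t u z, nsq (G (t, u, z)) = nsq z) ∧
      ∀ u, ‖u‖ ≤ 2 * η → ∀ z, nsq z = 1 → ∀ t : ℝ, 0 ≤ t → ∃ s ∈ Icc 0 t,
        eval (G (t, u, z)) f = eval z f + s * u ∧
          ((∀ τ ∈ Icc 0 t, ‖eval z f + τ * u‖ ≤ 2 * η) → s = t) := by
  obtain ⟨η, hη, χ, hχ, h01, h1, hq, Φ, h0, hΦ⟩ := exists_field hw hf hiso
  have hu : ∀ x t, (Φ (t, x)).1 = x.1 := by
    intro x t
    have hd : ∀ t, HasDerivAt (fun s => (Φ (s, x)).1) 0 t := fun t => by
      refine ((ContinuousLinearMap.fst ℝ ℂ (ι → ℂ)).hasFDerivAt.comp_hasDerivAt t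
        (hΦ x t)).congr_deriv ?_
      simp
    have := is_const_of_deriv_eq_zero (fun t => (hd t).differentiableAt) (fun t => (hd t).deriv) t 0
    rw [this, h0]
  have hz : ∀ x t, HasDerivAt (fun s => (Φ (s, x)).2) (fun i =>
      (χ (Φ (t, x)) : ℂ) * x.1 * (qv f (Φ (t, x)).2)⁻¹ * gv f (Φ (t, x)).2 i) t := by
    intro x t
    refine ((ContinuousLinearMap.snd ℝ ℂ (ι → ℂ)).hasFDerivAt.comp_hasDerivAt t
      (hΦ x t)).congr_deriv ?_
    ext i
    simp only [ContinuousLinearMap.coe_snd', Prod.smul_snd, Pi.smul_apply, Complex.real_smul, hu]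
    ring
  have hn : ∀ x t, nsq (Φ (t, x)).2 = nsq x.2 := by
    intro x t
    have hd : ∀ t, HasDerivAt (fun s => nsq (Φ (s, x)).2) 0 t := fun t => by
      refine (hasDerivAt_nsq (hz x t)).congr_deriv ?_
      simp only [mul_left_comm _ (_ * _ * _), ← Finset.mul_sum, gv_orth]
      simp
    have := is_const_of_deriv_eq_zero (fun t => (hd t).differentiableAt) (fun t => (hd t).deriv) t 0
    rw [this, h0]
  have hc : ∀ x t, HasDerivAt (fun s => eval (Φ (s, x)).2 f) ((χ (Φ (t, x)) : ℂ) * x.1) t := by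
    intro x t
    refine (hasDerivAt_eval f (hz x t)).congr_deriv ?_
    simp only [mul_left_comm _ (_ * _ * _), ← Finset.mul_sum]
    change _ * qv f _ = _
    by_cases h : qv f (Φ (t, x)).2 = 0
    · simp [hq _ h]
    · field_simp
  refine ⟨η, hη, fun p => (Φ p).2, Φ.continuous.snd, fun u z => by simp only [h0],
    fun t u z => hn _ t, fun u hu' z hz1 => ?_⟩
  have ha : Continuous fun τ : ℝ => χ (Φ (τ, u, z)) := hχ.comp (Φ.continuous.comp (by fun_prop))
  set s : ℝ → ℝ := fun t => ∫ τ in (0 : ℝ)..t, χ (Φ (τ, u, z)) with hs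
  have hs1 : ∀ t, eval (Φ (t, u, z)).2 f = eval z f + s t * u := by
    intro t
    have hd : ∀ t, HasDerivAt (fun t => eval (Φ (t, u, z)).2 f - s t * u) 0 t := fun t => by
      refine ((hc (u, z) t).fun_sub
        ((ha.integral_hasStrictDerivAt 0 t).hasDerivAt.ofReal_comp.mul_const u)).congr_deriv
        (sub_self _)
    have := is_const_of_deriv_eq_zero (fun t => (hd t).differentiableAt) (fun t => (hd t).deriv) t 0
    simp only [h0, hs, intervalIntegral.integral_same, Complex.ofReal_zero, zero_mul,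
      sub_zero] at this
    rw [← this]
    ring
  have hs2 : ∀ t, 0 ≤ t → s t ∈ Icc 0 t := by
    intro t ht
    refine ⟨intervalIntegral.integral_nonneg ht fun τ _ => (h01 _).1, ?_⟩
    have := intervalIntegral.integral_mono_on (μ := MeasureTheory.volume) ht
      (ha.intervalIntegrable 0 t) (intervalIntegrable_const (c := (1 : ℝ)))
      fun τ _ => (h01 (Φ (τ, u, z))).2
    simpa using this
  intro t ht
  refine ⟨s t, hs2 t ht, hs1 t, fun h => ?_⟩
  have : ∫ τ in (0 : ℝ)..t, χ (Φ (τ, u, z)) = ∫ _ in (0 : ℝ)..t, (1 : ℝ) := by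
    refine intervalIntegral.integral_congr fun τ hτ => ?_
    rw [uIcc_of_le ht] at hτ
    refine h1 _ (by rw [hu]; exact hu') (by rw [hn]; exact hz1) ?_
    rw [hs1]
    exact h _ ⟨(hs2 τ hτ.1).1, (hs2 τ hτ.1).2.trans hτ.2⟩
  simpa using this

/-- the right half plane -/
def H0 : Set ℂ := {c | 0 < c.re}

theorem XX_mono (f : MvPolynomial ι ℂ) {E E' : Set ℂ} (h : E ⊆ E') : XX f E ⊆ XX f E' :=
  fun _ hz => ⟨hz.1, h hz.2⟩

theorem exists_ac {w : ι → ℕ} {d : ℕ} {f : MvPolynomial ι ℂ} (hw : ∀ i, 0 < w i)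
    (hf : IsWeightedHomogeneous w f d)
    (hiso : ∀ z : ι → ℂ, (∀ i, eval z (pderiv i f) = 0) → z = 0) :
    ∃ η : ℝ, 0 < η ∧ Ac (XX f (Metric.ball 0 η)) (XX f {0}) ∧
      ∀ E : Set ℂ, H0 ⊆ E → (∀ c ∈ E, ∀ s : ℝ, 0 ≤ s → c + s ∈ E) →
        Ac (XX f (E ∪ Metric.ball 0 η)) (XX f E) := by
  obtain ⟨η, hη, G, hG, h0, hn, hm⟩ := exists_tube hw hf hiso
  have hev := (contDiff_eval f).continuous
  refine ⟨η, hη, ?_, fun E hE hE' => ?_⟩
  · have hseg : ∀ (c : ℂ) (s : ℝ), 0 ≤ s → s ≤ 1 → ‖c + s * -c‖ ≤ ‖c‖ := by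
      intro c s h1 h2
      rw [show c + s * -c = ((1 - s : ℝ) : ℂ) * c by push_cast; ring, norm_mul, Complex.norm_real,
        Real.norm_of_nonneg (by linarith)]
      nlinarith [norm_nonneg c]
    refine ac_of_deform (XX_mono f (by simpa using hη)) fun K _ hK => ?_
    have hK' : ∀ z ∈ K, ‖eval z f‖ < η := fun z hz => mem_ball_zero_iff.1 (hK hz).2
    have hm' := fun z (hz : z ∈ K) =>
      hm (-eval z f) (by rw [norm_neg]; linarith [hK' z hz]) z (hK hz).1
    refine ⟨fun p => G (p.1, -eval p.2 f, p.2), ?_, fun z _ => h0 _ _, fun t ht z hz => ?_,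
      fun t ht z hz hz' => ?_, fun z hz => ?_⟩
    · exact (hG.comp (continuous_fst.prodMk
        ((hev.comp continuous_snd).neg.prodMk continuous_snd))).continuousOn
    · obtain ⟨s, hs, h1, -⟩ := hm' z hz t ht.1
      refine ⟨(hn _ _ _).trans (hK hz).1, mem_ball_zero_iff.2 ?_⟩
      simp only [h1]
      exact (hseg _ s hs.1 (hs.2.trans ht.2)).trans_lt (hK' z hz)
    · obtain ⟨s, hs, h1, -⟩ := hm' z hz t ht.1
      refine ⟨(hn _ _ _).trans (hK hz).1, ?_⟩
      have h2 : eval z f = 0 := hz'.2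
      rw [h1, h2]
      simp
    · obtain ⟨s, hs, h1, h2⟩ := hm' z hz 1 zero_le_one
      refine ⟨(hn _ _ _).trans (hK hz).1, ?_⟩
      rw [h1, h2 fun τ hτ => (hseg _ τ hτ.1 hτ.2).trans (by linarith [hK' z hz])]
      simp
  · refine ac_of_deform (XX_mono f subset_union_left) fun K _ hK => ?_
    have hm' := fun z (hz : z ∈ K) =>
      hm (η : ℂ) (by rw [Complex.norm_real, Real.norm_of_nonneg hη.le]; linarith) z (hK hz).1
    have hE'' : ∀ c ∈ E, ∀ s : ℝ, 0 ≤ s → c + s * η ∈ E := fun c hc s hs => by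
      simpa using hE' c hc (s * η) (by positivity)
    refine ⟨fun p => G (p.1, η, p.2), ?_, fun z _ => h0 _ _, fun t ht z hz => ?_,
      fun t ht z hz hz' => ?_, fun z hz => ?_⟩
    · exact (hG.comp (by fun_prop)).continuousOn
    · obtain ⟨s, hs, h1, -⟩ := hm' z hz t ht.1
      refine ⟨(hn _ _ _).trans (hK hz).1, ?_⟩
      rw [h1]
      rcases (hK hz).2 with h2 | h2
      · exact Or.inl (hE'' _ h2 s hs.1)
      · by_cases h3 : 0 < (eval z f + s * η).re
        · exact Or.inl (hE h3)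
        · refine Or.inr (mem_ball_zero_iff.2 (lt_of_le_of_lt ?_ (mem_ball_zero_iff.1 h2)))
          have h4 : 0 ≤ s * η := mul_nonneg hs.1 hη.le
          rw [← sq_le_sq₀ (norm_nonneg _) (norm_nonneg _), ← Complex.normSq_eq_norm_sq,
            ← Complex.normSq_eq_norm_sq]
          simp only [Complex.normSq_apply, Complex.add_re, Complex.add_im, Complex.mul_re,
            Complex.mul_im, Complex.ofReal_re, Complex.ofReal_im] at h3 ⊢
          nlinarith
    · obtain ⟨s, hs, h1, -⟩ := hm' z hz t ht.1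
      refine ⟨(hn _ _ _).trans (hK hz).1, ?_⟩
      rw [h1]
      exact hE'' _ hz'.2 s hs.1
    · obtain ⟨s, hs, h1, h2⟩ := hm' z hz 1 zero_le_one
      refine ⟨(hn _ _ _).trans (hK hz).1, ?_⟩
      rw [h1]
      rcases (hK hz).2 with h3 | h3
      · exact hE'' _ h3 s hs.1
      · have h4 := mem_ball_zero_iff.1 h3
        rw [h2 fun τ hτ => ?_]
        · refine hE ?_
          have := (abs_le.1 (Complex.abs_re_le_norm (eval z f))).1
          simp only [H0, mem_ofPred_eq, Complex.add_re, Complex.ofReal_one, one_mul,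
            Complex.ofReal_re]
          linarith
        · refine (norm_add_le _ _).trans ?_
          rw [norm_mul, Complex.norm_real, Complex.norm_real, Real.norm_of_nonneg hτ.1,
            Real.norm_of_nonneg hη.le]
          nlinarith [hτ.2]

/-! ### Rotations -/

theorem nsq_rot (w : ι → ℕ) (θ : ℝ) (z : ι → ℂ) : nsq (rot w θ z) = nsq z := by
  refine Finset.sum_congr rfl fun i _ => ?_
  simp only [rot, ContinuousMap.coe_mk, map_mul]
  rw [show (θ : ℂ) * w i = ((θ * w i : ℝ) : ℂ) by push_cast; ring, Complex.normSq_eq_norm_sq,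
    Complex.norm_exp_ofReal_mul_I]
  ring

variable {w : ι → ℕ} {d : ℕ} {f : MvPolynomial ι ℂ}

theorem eval_rr (hf : IsWeightedHomogeneous w f d) (hd : 0 < d) (θ : ℝ) (z : ι → ℂ) :
    eval (rot w (θ / d) z) f = Complex.exp (θ * Complex.I) * eval z f := by
  rw [eval_rot hf]
  have : (d : ℂ) ≠ 0 := by exact_mod_cast hd.ne'
  congr 3
  push_cast
  field_simp

theorem mapsTo_rr (hf : IsWeightedHomogeneous w f d) (hd : 0 < d) (θ : ℝ) {E E' : Set ℂ}
    (h : ∀ c ∈ E, Complex.exp (θ * Complex.I) * c ∈ E') :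
    MapsTo (rot w (θ / d)) (XX f E) (XX f E') := fun z hz =>
  ⟨(nsq_rot _ _ _).trans hz.1, by rw [eval_rr hf hd]; exact h _ hz.2⟩

omit [Fintype ι] in
theorem continuous_rot (w : ι → ℕ) : Continuous fun p : ℝ × (ι → ℂ) => rot w p.1 p.2 := by
  simp only [rot, ContinuousMap.coe_mk]
  fun_prop

theorem bij_rr (hf : IsWeightedHomogeneous w f d) (hd : 0 < d) (θ : ℝ) {E E₁ E' : Set ℂ}
    (hE : E ⊆ E₁) (hac : Ac (XX f E₁) (XX f E))
    (h : ∀ c, c ∈ E₁ ↔ Complex.exp (θ * Complex.I) * c ∈ E')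
    (hm : MapsTo (rot w (θ / d)) (XX f E) (XX f E')) (m : ℕ) :
    Function.Bijective (Hmap (rot w (θ / d)) hm m) := by
  have hinv : ∀ θ : ℝ, ∀ z, rot w (-θ) (rot w θ z) = z := fun θ z => by
    rw [rot_rot, neg_add_cancel, rot_zero]
  have h1 := Hmap_bijective_of_embedding (rot w (θ / d))
    (Function.LeftInverse.isEmbedding (hinv (θ / d)) (rot w _).continuous (rot w _).continuous)
    (mapsTo_rr hf hd θ fun c => (h c).1) (fun z hz => by
      have h2 : rot w (θ / d) (rot w (-(θ / d)) z) = z := by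
        rw [rot_rot, add_neg_cancel, rot_zero]
      refine ⟨rot w (-(θ / d)) z, ⟨(nsq_rot _ _ _).trans hz.1, (h _).2 ?_⟩, h2⟩
      rw [← eval_rr hf hd, h2]
      exact hz.2) m
  have h2 := h1.comp (hac.bijective (XX_mono f hE) m)
  convert h2 using 1
  ext c
  exact (Hmap_Hinc _ _ _ _ _).symm

theorem hom_rr (hf : IsWeightedHomogeneous w f d) (hd : 0 < d) (θ₀ θ₁ : ℝ) {E E' : Set ℂ}
    (h : ∀ θ ∈ uIcc θ₀ θ₁, ∀ c ∈ E, Complex.exp (θ * Complex.I) * c ∈ E')
    (h₀ : MapsTo (rot w (θ₀ / d)) (XX f E) (XX f E'))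
    (h₁ : MapsTo (rot w (θ₁ / d)) (XX f E) (XX f E')) (m : ℕ) :
    Hmap _ h₀ m = Hmap _ h₁ m := by
  refine Hmap_homotopic (fun p => rot w ((θ₀ + p.1 * (θ₁ - θ₀)) / d) p.2) ?_
    (fun t ht z hz => ?_) (fun z _ => by simp) (fun z _ => by simp) h₀ h₁ m
  · exact ((continuous_rot w).comp (f := fun p : ℝ × (ι → ℂ) =>
      ((θ₀ + p.1 * (θ₁ - θ₀)) / d, p.2)) (by fun_prop)).continuousOn
  · refine mapsTo_rr hf hd _ (h _ ?_) hz
    rw [← segment_eq_uIcc, segment_eq_image']
    exact ⟨t, ht, rfl⟩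

theorem ac_slit (hf : IsWeightedHomogeneous w f d) (hd : 0 < d) :
    Ac (XX f Complex.slitPlane) (XX f H0) := by
  have hev := (contDiff_eval f).continuous
  have key : ∀ (c : ℂ), c ≠ 0 → ∀ t ∈ Icc (0 : ℝ) 1,
      Complex.exp ((-t * c.arg : ℝ) * Complex.I) * c ≠ 0 ∧
      |(Complex.exp ((-t * c.arg : ℝ) * Complex.I) * c).arg| = (1 - t) * |c.arg| := by
    intro c hc t ht
    refine ⟨mul_ne_zero (Complex.exp_ne_zero _) hc, ?_⟩
    have h1 : Complex.exp ((-t * c.arg : ℝ) * Complex.I) * c =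
        (‖c‖ : ℝ) * (Complex.cos ((1 - t) * c.arg : ℝ) +
          Complex.sin ((1 - t) * c.arg : ℝ) * Complex.I) := by
      nth_rewrite 2 [← Complex.norm_mul_exp_arg_mul_I c]
      rw [← Complex.exp_mul_I, mul_left_comm, ← Complex.exp_add]
      congr 2
      push_cast
      ring
    rw [h1, Complex.arg_mul_cos_add_sin_mul_I (norm_pos_iff.2 hc), abs_mul,
      abs_of_nonneg (by linarith [ht.2])]
    have h2 := Complex.neg_pi_lt_arg c
    have h3 := Complex.arg_le_pi c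
    have h4 := Real.pi_pos
    constructor
    · rcases ht.2.eq_or_lt with h | h
      · rw [h]; linarith
      · nlinarith [ht.1]
    · nlinarith [ht.1, ht.2]
  have hs : ∀ c : ℂ, c ∈ Complex.slitPlane ↔ c ≠ 0 ∧ |c.arg| < Real.pi := fun c => by
    rw [Complex.mem_slitPlane_iff_arg, abs_lt]
    exact ⟨fun h => ⟨h.2, Complex.neg_pi_lt_arg c, lt_of_le_of_ne (Complex.arg_le_pi c) h.1⟩,
      fun h => ⟨h.2.2.ne, h.1⟩⟩
  have hH : ∀ c : ℂ, c ≠ 0 → (c ∈ H0 ↔ |c.arg| < Real.pi / 2) := fun c hc => by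
    rw [Complex.abs_arg_lt_pi_div_two_iff]
    exact ⟨Or.inl, fun h => h.resolve_right hc⟩
  refine ac_of_deform (XX_mono f fun c hc => Or.inl hc) fun K _ hK => ?_
  have hK0 : ∀ z ∈ K, eval z f ≠ 0 := fun z hz => ((hs _).1 (hK hz).2).1
  refine ⟨fun p => rot w ((-p.1 * (eval p.2 f).arg) / d) p.2, ?_, fun z _ => by simp [rot_zero],
    fun t ht z hz => ⟨(nsq_rot _ _ _).trans (hK hz).1, ?_⟩,
    fun t ht z hz hz' => ⟨(nsq_rot _ _ _).trans (hK hz).1, ?_⟩,
    fun z hz => ⟨(nsq_rot _ _ _).trans (hK hz).1, ?_⟩⟩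
  · refine (continuous_rot w).comp_continuousOn (f := fun p : ℝ × (ι → ℂ) =>
      ((-p.1 * (eval p.2 f).arg) / d, p.2)) (ContinuousOn.prodMk ?_ continuousOn_snd)
    refine (continuousOn_fst.neg.mul ?_).div_const _
    exact Complex.continuousOn_arg.comp (hev.comp continuous_snd).continuousOn
      fun p hp => (hK hp.2).2
  · rw [eval_rr hf hd, hs, (key _ (hK0 z hz) t ht).2]
    refine ⟨(key _ (hK0 z hz) t ht).1, ?_⟩
    nlinarith [((hs _).1 (hK hz).2).2, abs_nonneg (eval z f).arg, ht.1]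
  · rw [eval_rr hf hd, hH _ (key _ (hK0 z hz) t ht).1, (key _ (hK0 z hz) t ht).2]
    nlinarith [(hH _ (hK0 z hz)).1 hz'.2, abs_nonneg (eval z f).arg, ht.1]
  · have ht : (1 : ℝ) ∈ Icc (0 : ℝ) 1 := ⟨zero_le_one, le_rfl⟩
    rw [eval_rr hf hd, hH _ (key _ (hK0 z hz) 1 ht).1, (key _ (hK0 z hz) 1 ht).2]
    linarith [Real.pi_pos]

theorem slit_of_cos {θ : ℝ} (hθ : 0 ≤ Real.cos θ) {c : ℂ} (hc : c ∈ H0) :
    Complex.exp (θ * Complex.I) * c ∈ Complex.slitPlane := by
  by_contra h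
  rw [Complex.mem_slitPlane_iff, not_or, not_lt, not_not] at h
  have hc' : 0 < c.re := hc
  simp only [Complex.mul_re, Complex.mul_im, Complex.exp_ofReal_mul_I_re,
    Complex.exp_ofReal_mul_I_im] at h
  have h1 := Real.cos_sq_add_sin_sq θ
  have h2 : c.re = Real.cos θ * (Real.cos θ * c.re - Real.sin θ * c.im) := by
    linear_combination (-c.re) * h1 + Real.sin θ * h.2
  nlinarith [h.1]

theorem neg_slit_of_cos {θ : ℝ} (hθ : Real.cos θ ≤ 0) {c : ℂ} (hc : c ∈ H0) :
    -(Complex.exp (θ * Complex.I) * c) ∈ Complex.slitPlane := by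
  have := slit_of_cos (θ := θ + Real.pi) (by rw [Real.cos_add_pi]; linarith) hc
  rw [Complex.ofReal_add, add_mul, Complex.exp_add, Complex.exp_pi_mul_I] at this
  simpa using this

theorem exc_XX (f : MvPolynomial ι ℂ) {E E₁ E₂ E₀ : Set ℂ} (h₁ : IsOpen E₁) (h₂ : IsOpen E₂)
    (hE : E = E₁ ∪ E₂) (h₀ : E₀ = E₁ ∩ E₂) : Exc (XX f E) (XX f E₁) (XX f E₂) (XX f E₀) := by
  have hev := (contDiff_eval f).continuous
  subst hE h₀
  refine exc_of_open (h₁.preimage hev) (h₂.preimage hev) (fun z hz => hz.2) ?_ ?_ ?_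
  · ext z
    exact ⟨fun h => ⟨⟨h.1, Or.inl h.2⟩, h.2⟩, fun h => ⟨h.1.1, h.2⟩⟩
  · ext z
    exact ⟨fun h => ⟨⟨h.1, Or.inr h.2⟩, h.2⟩, fun h => ⟨h.1.1, h.2⟩⟩
  · ext z
    exact ⟨fun h => ⟨⟨h.1, h.2.1⟩, h.1, h.2.2⟩, fun h => ⟨h.1.1, h.1.2, h.2.2⟩⟩

/-! ### Assembly -/

theorem conc_sphere (hw : ∀ i, 0 < w i) (f : MvPolynomial ι ℂ) :
    Conc (XX f univ) (2 * Fintype.card ι) 1 := by
  have h1 : Ac ({0}ᶜ : Set (ι → ℂ)) (XX f univ) := by
    refine ac_sphere hw (fun z hz => hz) (fun a ha z hz h => hz ?_) fun z => ?_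
    · ext i
      have h2 := congrFun h i
      simp only [scl, Pi.zero_apply, mul_eq_zero] at h2
      exact h2.resolve_left (pow_ne_zero _ (by exact_mod_cast ha.ne'))
    · exact ⟨fun h => ⟨ne_zero_of_nsq (by rw [h.1]; norm_num), h.1⟩, fun h => ⟨h.2, trivial⟩⟩
  have h2 := conc_compl_point (0 : ι → ℂ)
  rw [Module.finrank_pi_fintype] at h2
  simp only [Complex.finrank_real_complex, Finset.sum_const, Finset.card_univ, smul_eq_mul] at h2
  rw [mul_comm]
  exact (h1.conc_iff fun z hz => ne_zero_of_nsq (by rw [hz.1]; norm_num)).1 h2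

theorem ac_W (hw : ∀ i, 0 < w i) (hd : 0 < d) (hf : IsWeightedHomogeneous w f d) :
    Ac (W f Finset.univ) (XX f H0) := by
  refine ac_sphere hw ?_ (fun a ha z hz => ⟨by simp, ?_⟩) fun z => ?_
  · rintro z hz rfl
    have h := eval_scale hf 0 0
    rw [zero_pow hd.ne', zero_mul] at h
    simp only [Pi.zero_apply, mul_zero] at h
    have h2 := hz.2
    rw [show (0 : ι → ℂ) = fun _ => 0 from rfl, h] at h2
    simp at h2
  · have h := eval_scale hf a z
    change 0 < (eval (fun i => (a : ℂ) ^ w i * z i) f).re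
    rw [h, ← Complex.ofReal_pow, Complex.re_ofReal_mul]
    exact mul_pos (pow_pos ha _) hz.2
  · exact ⟨fun h => ⟨⟨by simp, h.2⟩, h.1⟩, fun h => ⟨h.2, h.1.2⟩⟩

theorem link_sphere (hw : ∀ i, 0 < w i) (hd : 0 < d) (hf : IsWeightedHomogeneous w f d)
    (hiso : ∀ z : ι → ℂ, (∀ i, eval z (pderiv i f) = 0) → z = 0) (n : ℕ) (hn : 1 ≤ n)
    (hcard : Fintype.card ι = n + 1) (hc : ∀ c : H (XX f H0) n, c = 0)
    (hm : MapsTo (mono w d) (XX f H0) (XX f H0)) :
    Nonempty (H (XX f {0}) n ≃ₗ[ℤ] (H (XX f H0) (n + 1) ⧸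
      LinearMap.range ((Hmap (mono w d) hm (n + 1) : Module.End ℤ _) - 1))) := by
  obtain ⟨η, hη, hT, hP⟩ := exists_ac hw hf hiso
  set D : Set ℂ := Metric.ball 0 η with hD
  have hπ := Real.pi_pos
  let EA : Set ℂ := Complex.slitPlane ∪ D
  let EB : Set ℂ := {c | -c ∈ Complex.slitPlane} ∪ D
  let Ep : Set ℂ := {c | 0 < c.im} ∪ D
  let Em : Set ℂ := {c | c.im < 0} ∪ D
  have oD : IsOpen D := Metric.isOpen_ball
  have x1 : Exc (XX f univ) (XX f EA) (XX f EB) (XX f (Ep ∪ Em)) := by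
    refine exc_XX f (Complex.isOpen_slitPlane.union oD)
      ((Complex.isOpen_slitPlane.preimage continuous_neg).union oD) ?_ ?_
    · refine (eq_univ_of_forall fun c => ?_).symm
      by_cases h : c = 0
      · exact Or.inl (Or.inr (by rw [h]; exact Metric.mem_ball_self hη))
      · rcases Complex.mem_slitPlane_or_neg_mem_slitPlane h with h | h
        · exact Or.inl (Or.inl h)
        · exact Or.inr (Or.inl h)
    · ext c
      simp only [EA, EB, Ep, Em, mem_union, mem_inter_iff, mem_ofPred_eq,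
        Complex.mem_slitPlane_iff, Complex.neg_re, Complex.neg_im, neg_ne_zero]
      by_cases h : c ∈ D
      · simp [h]
      · simp only [h, or_false]
        constructor
        · rintro (h1 | h1)
          · exact ⟨Or.inr h1.ne', Or.inr h1.ne'⟩
          · exact ⟨Or.inr h1.ne, Or.inr h1.ne⟩
        · rintro ⟨h1 | h1, h2 | h2⟩
          · linarith
          all_goals first | exact (lt_or_gt_of_ne h1).symm | exact (lt_or_gt_of_ne h2).symm
  have x2 : Exc (XX f (Ep ∪ Em)) (XX f Ep) (XX f Em) (XX f D) := by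
    refine exc_XX f ((isOpen_lt continuous_const Complex.continuous_im).union oD)
      ((isOpen_lt Complex.continuous_im continuous_const).union oD) rfl ?_
    ext c
    simp only [Ep, Em, mem_union, mem_inter_iff, mem_ofPred_eq]
    by_cases h : c ∈ D
    · simp [h]
    · simp only [h, or_false, false_iff, not_and, not_lt]
      exact le_of_lt
  have hS := (conc_sphere hw f).1
  have hS1 := Z_le_B_iff.1 (hS (n + 1) (by omega))
  have hS2 := Z_le_B_iff.1 (hS (n + 1 + 1) (by omega))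
  have hk : Function.Bijective ((Hinc x1.int₁ (n + 1)).prod (Hinc x1.int₂ (n + 1))) := by
    constructor
    · obtain ⟨δ, -, h2⟩ := x1.mv (n + 1)
      refine (injective_iff_map_eq_zero _).2 fun q hq => ?_
      obtain ⟨y, rfl⟩ := (h2 q).1 hq
      rw [hS2 y, map_zero]
    · rintro ⟨a, b⟩
      obtain ⟨q, hq⟩ := (x1.exact_mid (n + 1) (a, -b)).1 (hS1 _)
      have h1 : Hinc x1.int₁ (n + 1) q = a := congrArg Prod.fst hq
      have h2 : -Hinc x1.int₂ (n + 1) q = -b := congrArg Prod.snd hq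
      exact ⟨q, Prod.ext h1 (neg_injective h2)⟩
  have hac0 : Ac (XX f (H0 ∪ D)) (XX f H0) := hP H0 subset_rfl fun c hc s hs => by
    have : 0 < c.re := hc
    simp only [H0, mem_ofPred_eq, Complex.add_re, Complex.ofReal_re]
    linarith
  have hHs : H0 ⊆ Complex.slitPlane := fun c hc => Or.inl hc
  have hacA : Ac (XX f EA) (XX f H0) := by
    refine (hP Complex.slitPlane hHs fun c hc s hs => ?_).trans (ac_slit hf hd)
      (XX_mono f subset_union_left) (XX_mono f hHs)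
    simp only [Complex.mem_slitPlane_iff, Complex.add_re, Complex.add_im, Complex.ofReal_re,
      Complex.ofReal_im, add_zero] at hc ⊢
    exact hc.imp_left fun h => by linarith
  have hDr : ∀ (θ : ℝ) (c : ℂ), Complex.exp (θ * Complex.I) * c ∈ D ↔ c ∈ D := fun θ c => by
    simp only [hD, mem_ball_zero_iff, norm_mul, Complex.norm_exp_ofReal_mul_I, one_mul]
  have ep : ∀ c, c ∈ H0 ∪ D ↔ Complex.exp ((Real.pi / 2 : ℝ) * Complex.I) * c ∈ Ep := fun c => by
    simp only [Ep, mem_union, hDr, H0, mem_ofPred_eq, Complex.mul_im,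
      Complex.exp_ofReal_mul_I_re, Complex.exp_ofReal_mul_I_im, Real.cos_pi_div_two,
      Real.sin_pi_div_two, zero_mul, one_mul, zero_add]
  have em : ∀ c, c ∈ H0 ∪ D ↔ Complex.exp ((-(Real.pi / 2) : ℝ) * Complex.I) * c ∈ Em :=
    fun c => by
    simp only [Em, mem_union, hDr, H0, mem_ofPred_eq, Complex.mul_im,
      Complex.exp_ofReal_mul_I_re, Complex.exp_ofReal_mul_I_im, Real.cos_neg, Real.sin_neg,
      Real.cos_pi_div_two, Real.sin_pi_div_two, zero_mul, one_mul, zero_add, neg_mul,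
      neg_lt_zero]
  have eA : ∀ c, c ∈ EA ↔ Complex.exp ((0 : ℝ) * Complex.I) * c ∈ EA := fun c => by simp
  have eB : ∀ c, c ∈ EA ↔ Complex.exp ((-Real.pi : ℝ) * Complex.I) * c ∈ EB := fun c => by
    simp only [EA, EB, mem_union, hDr, mem_ofPred_eq]
    rw [Complex.ofReal_neg, neg_mul, Complex.exp_neg, Complex.exp_pi_mul_I]
    simp
  have mp := mapsTo_rr hf hd _ fun c (hc : c ∈ H0) => (ep c).1 (Or.inl hc)
  have mm := mapsTo_rr hf hd _ fun c (hc : c ∈ H0) => (em c).1 (Or.inl hc)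
  have mA := mapsTo_rr hf hd _ fun c (hc : c ∈ H0) => (eA c).1 (Or.inl (hHs hc))
  have mB := mapsTo_rr hf hd _ fun c (hc : c ∈ H0) => (eB c).1 (Or.inl (hHs hc))
  have bp := bij_rr hf hd _ subset_union_left hac0 ep mp
  have bm := bij_rr hf hd _ subset_union_left hac0 em mm
  have bA := bij_rr hf hd _ (hHs.trans subset_union_left) hacA eA mA
  have bB := bij_rr hf hd _ (hHs.trans subset_union_left) hacA eB mB
  obtain ⟨δ, d1, d2⟩ := x2.mv n
  have hδ : Function.Surjective δ := by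
    intro q
    refine (d2 q).1 (Prod.ext ?_ ?_)
    · obtain ⟨y, hy⟩ := (bp n).2 (Hinc x2.int₁ n q)
      rw [hc y, map_zero] at hy
      exact hy.symm
    · obtain ⟨y, hy⟩ := (bm n).2 (Hinc x2.int₂ n q)
      rw [hc y, map_zero] at hy
      exact hy.symm
  obtain ⟨e⟩ := alg (Hmap (mono w d) hm (n + 1)) δ hδ _ _ d1 _ _ hk _ _ _ _ (bp (n + 1)).2
    (bm (n + 1)).2 (bA (n + 1)) (bB (n + 1))
    (fun x => by
      rw [Hinc_Hmap, Hinc_Hmap]
      refine LinearMap.congr_fun (hom_rr hf hd _ _ (fun θ hθ c hc => Or.inl ?_) _ _ _) x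
      rw [uIcc_of_ge (by linarith)] at hθ
      exact slit_of_cos (Real.cos_nonneg_of_mem_Icc ⟨by linarith [hθ.1], hθ.2⟩) hc)
    (fun x => by
      rw [Hinc_Hmap, Hinc_Hmap]
      refine LinearMap.congr_fun (hom_rr hf hd _ _ (fun θ hθ c hc => Or.inl ?_) _ _ _) x
      rw [uIcc_of_le (by linarith)] at hθ
      exact slit_of_cos (Real.cos_nonneg_of_mem_Icc ⟨hθ.1, by linarith [hθ.2]⟩) hc)
    (fun x => by
      have mB' : MapsTo (rot w (Real.pi / d)) (XX f H0) (XX f EB) :=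
        mapsTo_rr hf hd _ fun c hc => Or.inl (neg_slit_of_cos (by simp) hc)
      rw [Hinc_Hmap, Hinc_Hmap, Hmap_Hmap,
        Hmap_congr (g := (rot w (-Real.pi / d)).comp (mono w d)) _ mB' (fun z _ => ?_)]
      · refine LinearMap.congr_fun (hom_rr hf hd _ _ (fun θ hθ c hc => Or.inl ?_) _ _ _) x
        rw [uIcc_of_le (by linarith)] at hθ
        exact neg_slit_of_cos
          (Real.cos_nonpos_of_pi_div_two_le_of_le hθ.1 (by linarith [hθ.2])) hc
      · simp only [ContinuousMap.comp_apply, mono, rot_rot]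
        congr 2
        ring)
    (fun x => by
      rw [Hinc_Hmap, Hinc_Hmap]
      refine LinearMap.congr_fun (hom_rr hf hd _ _ (fun θ hθ c hc => Or.inl ?_) _ _ _) x
      rw [uIcc_of_ge (by linarith)] at hθ
      refine neg_slit_of_cos ?_ hc
      rw [← Real.cos_neg]
      exact Real.cos_nonpos_of_pi_div_two_le_of_le (by linarith [hθ.2]) (by linarith [hθ.1]))
  exact ⟨(LinearEquiv.ofBijective _
    (hT.bijective (XX_mono f (by simpa [hD] using hη)) n)).trans e⟩

end Link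

variable {ι : Type} [Fintype ι] [DecidableEq ι]

set_option linter.unusedSectionVars false in
theorem link_iso {w : ι → ℕ} {d : ℕ} {f : MvPolynomial ι ℂ} (hw : ∀ i, 0 < w i) (hd : 0 < d)
    (hf : IsWeightedHomogeneous w f d)
    (hiso : ∀ z : ι → ℂ, (∀ i, eval z (pderiv i f) = 0) → z = 0) (n : ℕ) (hn : 1 ≤ n)
    (hcard : Fintype.card ι = n + 1) {μ : ℕ} (hc : Conc (W f Finset.univ) (n + 1) μ) :
    Nonempty (H (L f) n ≃ₗ[ℤ] (H (W f Finset.univ) (Finset.univ : Finset ι).card ⧸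
      LinearMap.range (tM hf hd Finset.univ - 1))) := by
  have hsub : Link.XX f Link.H0 ⊆ W f Finset.univ := fun z hz => ⟨by simp, hz.2⟩
  have hac := Link.ac_W hw hd hf
  have hm : MapsTo (mono w d) (Link.XX f Link.H0) (Link.XX f Link.H0) := fun z hz =>
    ⟨(Link.nsq_rot _ _ _).trans hz.1, by rw [eval_mono hf hd]; exact hz.2⟩
  have hL : L f = Link.XX f {0} := by
    ext z
    exact ⟨fun h => ⟨h.2, h.1⟩, fun h => ⟨h.2, h.1⟩⟩
  obtain ⟨e⟩ := Link.link_sphere hw hd hf hiso n hn hcard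
    (Z_le_B_iff.1 (((hac.conc_iff hsub).1 hc).1 n (by omega))) hm
  have key : ∀ N, N = n + 1 → Nonempty (H (L f) n ≃ₗ[ℤ] (H (W f Finset.univ) N ⧸
      LinearMap.range ((Hmap (mono w d) (mono_mapsTo hf hd Finset.univ) N :
        Module.End ℤ _) - 1))) := by
    rintro N rfl
    obtain ⟨e'⟩ := Link.quot_equiv (Hmap (mono w d) hm (n + 1))
      (Hmap (mono w d) (mono_mapsTo hf hd Finset.univ) (n + 1)) _ (hac.bijective hsub (n + 1))
      fun x => by rw [Hmap_Hinc, Hinc_Hmap]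
    rw [hL]
    exact ⟨e.trans e'⟩
  exact key _ hcard

end Pool.Agent.Lib.MP_1ba768_gt
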