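import Pool.Agent.Lib.MP_1ba768_gt.Rank

set_option autoImplicit false

open Set MvPolynomial Pool.Agent.Shared.SingHom

noncomputable section

namespace Pool.Agent.Lib.MP_1ba768_gt

namespace Orl

/-! ### Counting torsion elements -/

theorem ntor_congr {A B : Type*} [AddCommGroup A] [AddCommGroup B] (e : A ≃+ B) (n : ℕ) :
    ntor A n = ntor B n := by
  unfold ntor
  refine Nat.card_congr (e.toEquiv.subtypeEquiv fun x => ?_)
  simp only [AddEquiv.toEquiv_eq_coe, EquivLike.coe_coe]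
  rw [← map_nsmul, map_eq_zero_iff e e.injective]

theorem ntor_one (A : Type*) [AddCommGroup A] : ntor A 1 = 1 := by
  unfold ntor
  simp only [one_smul]
  exact Nat.card_unique

theorem ntor_pi {κ : Type*} [Fintype κ] (G : κ → Type*) [∀ i, AddCommGroup (G i)] (n : ℕ) :
    ntor (∀ i, G i) n = ∏ i, ntor (G i) n := by
  unfold ntor
  rw [← Nat.card_pi]
  refine Nat.card_congr ((Equiv.subtypeEquivRight fun x => ?_).trans
    (Equiv.subtypePiEquivPi (p := fun i (x : G i) => n • x = 0)))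
  simp [funext_iff]

theorem ntor_zmod (m n : ℕ) (hm : m ≠ 0) : ntor (ZMod m) n = m.gcd n := by
  have : NeZero m := ⟨hm⟩
  have h := IsAddCyclic.card_nsmulAddMonoidHom_ker (ZMod m) n
  rw [Nat.card_zmod] at h
  rw [← h]
  rfl

theorem gcd_prime_pow {p : ℕ} (hp : p.Prime) {m : ℕ} (hm : m ≠ 0) (a : ℕ) :
    m.gcd (p ^ a) = p ^ min a (m.factorization p) := by
  obtain ⟨b, hb, hg⟩ := (Nat.dvd_prime_pow hp).1 (Nat.gcd_dvd_right m (p ^ a))
  have h1 : b ≤ m.factorization p :=
    (hp.pow_dvd_iff_le_factorization hm).1 (hg ▸ Nat.gcd_dvd_left m (p ^ a))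
  have h2 : p ^ min a (m.factorization p) ∣ p ^ b := by
    rw [← hg]
    exact Nat.dvd_gcd ((hp.pow_dvd_iff_le_factorization hm).2 (min_le_right _ _))
      (pow_dvd_pow _ (min_le_left _ _))
  have h3 := (Nat.pow_dvd_pow_iff_le_right hp.one_lt).1 h2
  rw [hg]
  congr 1
  omega

theorem ntor_pi_zmod {κ : Type*} [Fintype κ] (m : κ → ℕ) (hm : ∀ i, m i ≠ 0) {p : ℕ}
    (hp : p.Prime) (a : ℕ) :
    ntor (∀ i, ZMod (m i)) (p ^ a) = p ^ ∑ i, min a ((m i).factorization p) := by
  rw [ntor_pi, ← Finset.prod_pow_eq_pow_sum]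
  exact Finset.prod_congr rfl fun i _ => by rw [ntor_zmod _ _ (hm i), gcd_prime_pow hp (hm i)]

/-- structure theorem without trivial factors -/
theorem structure_thm (A : Type*) [AddCommGroup A] [Finite A] :
    ∃ (κ : Type) (_ : Fintype κ) (q : κ → ℕ × ℕ), (∀ i, (q i).1.Prime) ∧ (∀ i, (q i).2 ≠ 0) ∧
      Nonempty (A ≃+ ∀ i, ZMod ((q i).1 ^ (q i).2)) := by
  classical
  obtain ⟨κ, hκ, p, hp, e, ⟨f⟩⟩ := AddCommGroup.equiv_directSum_zmod_of_finite A
  refine ⟨{i // e i ≠ 0}, inferInstance, fun i => (p i, e i), fun i => hp i, fun i => i.2,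
    ⟨(f.trans (DirectSum.addEquivProd _)).trans ?_⟩⟩
  refine AddEquiv.ofBijective
    (AddMonoidHom.pi fun i : {i // e i ≠ 0} =>
      Pi.evalAddMonoidHom (fun i => ZMod (p i ^ e i)) i.1) ⟨?_, ?_⟩
  · rw [injective_iff_map_eq_zero]
    intro x hx
    funext i
    by_cases hi : e i = 0
    · have : Subsingleton (ZMod (p i ^ e i)) := by
        rw [hi, pow_zero]
        infer_instance
      exact Subsingleton.elim _ _
    · exact congrFun hx ⟨i, hi⟩
  · intro y
    refine ⟨fun i => if hi : e i = 0 then 0 else y ⟨i, hi⟩, ?_⟩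
    funext i
    exact dif_neg i.2

theorem sum_min_succ {κ : Type*} [Fintype κ] (f : κ → ℕ) (a : ℕ) :
    ∑ i, min (a + 1) (f i) = ∑ i, min a (f i) + (Finset.univ.filter fun i => a < f i).card := by
  rw [Finset.card_filter, ← Finset.sum_add_distrib]
  refine Finset.sum_congr rfl fun i _ => ?_
  split_ifs <;> omega

theorem card_lt_succ {κ : Type*} [Fintype κ] (f : κ → ℕ) (a : ℕ) :
    (Finset.univ.filter fun i => a < f i).card =
      (Finset.univ.filter fun i => a + 1 < f i).card +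
        (Finset.univ.filter fun i => f i = a + 1).card := by
  simp only [Finset.card_filter, ← Finset.sum_add_distrib]
  refine Finset.sum_congr rfl fun i _ => ?_
  split_ifs <;> omega

theorem card_fiber_eq {κ κ' : Type*} [Fintype κ] [Fintype κ'] (f : κ → ℕ) (g : κ' → ℕ)
    (h : ∀ a, ∑ i, min a (f i) = ∑ i, min a (g i)) (a : ℕ) :
    (Finset.univ.filter fun i => f i = a + 1).card =
      (Finset.univ.filter fun i => g i = a + 1).card := by
  have h1 : ∀ a, (Finset.univ.filter fun i => a < f i).card =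
      (Finset.univ.filter fun i => a < g i).card := by
    intro a
    have h2 := sum_min_succ f a
    have h3 := sum_min_succ g a
    rw [h, h] at h2
    omega
  have h2 := card_lt_succ f a
  have h3 := card_lt_succ g a
  rw [h1, h1] at h2
  omega

/-- a finite abelian group is determined by the numbers of its prime power torsion elements -/
theorem equiv_of_ntor (A B : Type*) [AddCommGroup A] [AddCommGroup B] [Finite A] [Finite B]
    (h : ∀ p a : ℕ, p.Prime → ntor A (p ^ a) = ntor B (p ^ a)) : Nonempty (A ≃+ B) := by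
  classical
  obtain ⟨κ, _, q, hq, he, ⟨f⟩⟩ := structure_thm A
  obtain ⟨κ', _, q', hq', he', ⟨f'⟩⟩ := structure_thm B
  have hne : ∀ i, (q i).1 ^ (q i).2 ≠ 0 := fun i => pow_ne_zero _ (hq i).ne_zero
  have hne' : ∀ i, (q' i).1 ^ (q' i).2 ≠ 0 := fun i => pow_ne_zero _ (hq' i).ne_zero
  have fac : ∀ (r e p a : ℕ), r.Prime → ((r ^ e).factorization p = a + 1 ↔ (r, e) = (p, a + 1)) := by
    intro r e p a hr
    rw [hr.factorization_pow, Finsupp.single_apply, Prod.mk.injEq]
    split_ifs with h1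
    · simp [h1]
    · simp [h1]
  have key : ∀ z : ℕ × ℕ, Nonempty ({i // q i = z} ≃ {i // q' i = z}) := by
    rintro ⟨p, a⟩
    rw [← Fintype.card_eq, Fintype.card_subtype, Fintype.card_subtype]
    by_cases hp : p.Prime
    · cases a with
      | zero =>
        rw [Finset.filter_false_of_mem, Finset.filter_false_of_mem]
        · rfl
        · intro i _ hi
          exact he' i (by rw [hi])
        · intro i _ hi
          exact he i (by rw [hi])
      | succ a =>
        have h1 := card_fiber_eq (fun i => ((q i).1 ^ (q i).2).factorization p)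
          (fun i => ((q' i).1 ^ (q' i).2).factorization p) (fun b => by
            have h2 := h p b hp
            rw [ntor_congr f, ntor_congr f', ntor_pi_zmod _ hne hp, ntor_pi_zmod _ hne' hp] at h2
            exact Nat.pow_right_injective hp.two_le h2) a
        simpa only [fac _ _ _ _ (hq _), fac _ _ _ _ (hq' _)] using h1
    · rw [Finset.filter_false_of_mem, Finset.filter_false_of_mem]
      · rfl
      · intro i _ hi
        exact hp (by have := hq' i; rwa [hi] at this)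
      · intro i _ hi
        exact hp (by have := hq i; rwa [hi] at this)
  let σ : κ ≃ κ' := Equiv.ofFiberEquiv fun z => (key z).some
  have hσ : ∀ i, q' (σ i) = q i := fun i => Equiv.ofFiberEquiv_map _ i
  have e1 : (∀ i, ZMod ((q i).1 ^ (q i).2)) ≃+ ∀ i, ZMod ((q' (σ i)).1 ^ (q' (σ i)).2) :=
    AddEquiv.piCongrRight fun i => (ZMod.ringEquivCongr (by rw [hσ])).toAddEquiv
  have e2 : (∀ i, ZMod ((q' (σ i)).1 ^ (q' (σ i)).2)) ≃+ ∀ i, ZMod ((q' i).1 ^ (q' i).2) :=
    (LinearEquiv.piCongrLeft ℤ (fun i => ZMod ((q' i).1 ^ (q' i).2)) σ).toAddEquiv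
  exact ⟨((f.trans e1).trans e2).trans f'.symm⟩

/-! ### Subquotients -/

section Sub

variable {G : Type*} [AddCommGroup G]

/-- the elements of `P` whose `n`-th multiple lies in `Q` -/
def sat (P Q : Submodule ℤ G) (n : ℕ) : AddSubgroup G :=
  P.toAddSubgroup ⊓ Q.toAddSubgroup.comap (nsmulAddMonoidHom n)

theorem mem_sat {P Q : Submodule ℤ G} {n : ℕ} {x : G} : x ∈ sat P Q n ↔ x ∈ P ∧ n • x ∈ Q :=
  Iff.rfl

theorem mk_nsmul {P Q : Submodule ℤ G} (n : ℕ) {x : G} (hx : x ∈ P) :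
    n • Hq.mk Q x hx = Hq.mk Q (n • x) (P.smul_of_tower_mem n hx) := by
  rw [← natCast_zsmul, Hq.mk_smul]
  congr 1
  exact natCast_zsmul x n

theorem ntor_Hq (P Q : Submodule ℤ G) (n : ℕ) :
    ntor (Hq P Q) n = Q.toAddSubgroup.relIndex (sat P Q n) := by
  let f : sat P Q n →+ Hq P Q :=
    { toFun := fun x => Hq.mk Q x.1 x.2.1
      map_zero' := Hq.mk_eq_zero.2 Q.zero_mem
      map_add' := fun x y => rfl }
  have hker : f.ker = Q.toAddSubgroup.addSubgroupOf (sat P Q n) := by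
    ext x
    exact Hq.mk_eq_zero
  rw [AddSubgroup.relIndex, ← hker, AddSubgroup.index_ker]
  refine Nat.card_congr (Equiv.subtypeEquivRight fun y => ?_)
  constructor
  · intro hy
    obtain ⟨x, hx, rfl⟩ := Hq.mk_surj y
    rw [mk_nsmul, Hq.mk_eq_zero] at hy
    exact ⟨⟨x, hx, hy⟩, rfl⟩
  · rintro ⟨x, rfl⟩
    exact (mk_nsmul n x.2.1).trans (Hq.mk_eq_zero.2 x.2.2)

theorem ntor_eq_one {A : Type*} [AddCommGroup A] {D n : ℕ} (hD : ∀ x : A, D • x = 0)
    (h : Nat.Coprime D n) : ntor A n = 1 := by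
  unfold ntor
  rw [Nat.card_eq_one_iff_unique]
  refine ⟨⟨?_⟩, ⟨⟨0, smul_zero _⟩⟩⟩
  have key : ∀ x : A, n • x = 0 → x = 0 := by
    intro x hx
    have h1 : addOrderOf x ∣ Nat.gcd D n :=
      Nat.dvd_gcd (addOrderOf_dvd_of_nsmul_eq_zero (hD x)) (addOrderOf_dvd_of_nsmul_eq_zero hx)
    rw [h, Nat.dvd_one] at h1
    exact AddMonoid.addOrderOf_eq_one_iff.1 h1
  rintro ⟨x, hx⟩ ⟨y, hy⟩
  exact Subtype.ext ((key x hx).trans (key y hy).symm)

/-- the norm element -/
def nm (s : Module.End ℤ G) (D : ℕ) : Module.End ℤ G := ∑ l ∈ Finset.range D, s ^ l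

theorem tau_even (s : Module.End ℤ G) (D : ℕ) {j : ℕ} (hj : Even j) : tau s D j = s - 1 :=
  if_pos hj

theorem tau_odd (s : Module.End ℤ G) (D : ℕ) {j : ℕ} (hj : ¬ Even j) : tau s D j = nm s D :=
  if_neg hj

theorem nm_fix (s : Module.End ℤ G) (D : ℕ) {x : G} (hx : x ∈ LinearMap.ker (s - 1)) :
    nm s D x = D • x := by
  have h1 : s x = x := by simpa [sub_eq_zero] using hx
  have h2 : ∀ l : ℕ, (s ^ l) x = x := by
    intro l
    induction l with
    | zero => rfl
    | succ l ih => rw [pow_succ, Module.End.mul_apply, h1, ih]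
  simp [nm, h2]

theorem nm_sub_mem (s : Module.End ℤ G) (D : ℕ) (x : G) :
    nm s D x - D • x ∈ LinearMap.range (s - 1) := by
  have h2 : ∀ l : ℕ, (s ^ l) x - x ∈ LinearMap.range (s - 1) := by
    intro l
    refine ⟨(∑ i ∈ Finset.range l, s ^ i) x, ?_⟩
    rw [← Module.End.mul_apply, mul_geom_sum]
    rfl
  have h3 : nm s D x - D • x = ∑ l ∈ Finset.range D, ((s ^ l) x - x) := by
    simp [nm]
  rw [h3]
  exact Submodule.sum_mem _ fun l _ => h2 l

theorem nm_sub_one (s : Module.End ℤ G) {D : ℕ} (h : s ^ D = 1) (x : G) :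
    nm s D ((s - 1) x) = 0 := by
  rw [← Module.End.mul_apply, nm, geom_sum_mul, h, sub_self]
  rfl

theorem sub_one_nm (s : Module.End ℤ G) {D : ℕ} (h : s ^ D = 1) (x : G) :
    (s - 1) (nm s D x) = 0 := by
  rw [← Module.End.mul_apply, nm, mul_geom_sum, h, sub_self]
  rfl

theorem nm_mul (s : Module.End ℤ G) {D : ℕ} (h : s ^ D = 1) (p : ℕ) (x : G) :
    nm s (p * D) x = p • nm s D x := by
  induction p with
  | zero => simp [nm]
  | succ p ih =>
    rw [Nat.succ_mul, succ_nsmul, ← ih]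
    simp only [nm]
    rw [Finset.sum_range_add, LinearMap.add_apply]
    congr 3
    funext l
    rw [pow_add, mul_comm p D, pow_mul, h, one_pow, one_mul]

theorem Hh_killed (s : Module.End ℤ G) (D j : ℕ) (y : Hh s D j) : D • y = 0 := by
  obtain ⟨x, hx, rfl⟩ := Hq.mk_surj y
  rw [mk_nsmul, Hq.mk_eq_zero]
  by_cases hj : Even j
  · rw [tau_even s D hj] at hx
    rw [tau_odd s D (by simpa [Nat.even_add_one] using hj)]
    exact ⟨x, nm_fix s D hx⟩
  · rw [tau_odd s D hj, LinearMap.mem_ker] at hx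
    rw [tau_even s D (by simpa [Nat.even_add_one] using hj)]
    have := nm_sub_mem s D x
    rw [hx, zero_sub] at this
    exact (Submodule.neg_mem_iff _).1 this

variable [Module.Free ℤ G] [Module.Finite ℤ G]

theorem nsmul_cancel {n : ℕ} (hn : n ≠ 0) {x y : G} (h : n • x = n • y) : x = y :=
  AddSubgroup.nsmulAddMonoidHom_injective_of_isTorsionFree hn h

theorem relIndex_nsmul (S : AddSubgroup G) (n : ℕ) :
    (S.map (nsmulAddMonoidHom n)).relIndex S = n ^ Module.finrank ℤ S.toIntSubmodule :=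
  AddSubgroup.relIndex_map_nsmul n S

theorem Hh_odd (s : Module.End ℤ G) {D : ℕ} (h : s ^ D = 1) {p : ℕ} (hp : p ≠ 0) {j : ℕ}
    (hj : ¬ Even j) (n : ℕ) : ntor (Hh s (p * D) j) n = ntor (Hh s D j) n := by
  have hj' : Even (j + 1) := by simpa [Nat.even_add_one] using hj
  have h1 : LinearMap.ker (nm s (p * D)) = LinearMap.ker (nm s D) := by
    ext x
    rw [LinearMap.mem_ker, LinearMap.mem_ker, nm_mul s h]
    constructor
    · intro hx
      exact nsmul_cancel hp (by rw [hx, smul_zero])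
    · intro hx
      rw [hx, smul_zero]
  rw [ntor_Hq, ntor_Hq, tau_odd s _ hj, tau_odd s _ hj, tau_even s _ hj', tau_even s _ hj', h1]

theorem finrank_nm (s : Module.End ℤ G) {D : ℕ} (h : s ^ D = 1) (hD : D ≠ 0) :
    Module.finrank ℤ (LinearMap.range (nm s D)) = Module.finrank ℤ (LinearMap.ker (s - 1)) := by
  apply le_antisymm
  · refine Submodule.finrank_mono ?_
    rintro _ ⟨x, rfl⟩
    exact sub_one_nm s h x
  · let f : LinearMap.ker (s - 1) →ₗ[ℤ] LinearMap.range (nm s D) :=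
      ((nm s D).comp (LinearMap.ker (s - 1)).subtype).codRestrict _ fun x => ⟨x, rfl⟩
    refine LinearMap.finrank_le_finrank_of_injective (f := f) ?_
    intro x y hxy
    have h1 : nm s D x = nm s D y := congrArg Subtype.val hxy
    rw [nm_fix s D x.2, nm_fix s D y.2] at h1
    exact Subtype.ext (nsmul_cancel hD h1)

theorem Hh_even (s : Module.End ℤ G) {D : ℕ} (h : s ^ D = 1) (hD : D ≠ 0) {p : ℕ} (hp : p ≠ 0)
    {j : ℕ} (hj : Even j) (n : ℕ) :
    ntor (Hh s (p * D) j) (p * n) =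
      p ^ Module.finrank ℤ (LinearMap.ker (s - 1)) * ntor (Hh s D j) n := by
  have hj' : ¬ Even (j + 1) := by simpa [Nat.even_add_one] using hj
  rw [ntor_Hq, ntor_Hq, tau_odd s _ hj', tau_odd s _ hj', tau_even s _ hj, tau_even s _ hj]
  have h1 : (LinearMap.range (nm s (p * D))).toAddSubgroup =
      (LinearMap.range (nm s D)).toAddSubgroup.map (nsmulAddMonoidHom p) := by
    ext x
    constructor
    · rintro ⟨y, rfl⟩
      exact ⟨nm s D y, ⟨y, rfl⟩, (nm_mul s h p y).symm⟩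
    · rintro ⟨_, ⟨y, rfl⟩, rfl⟩
      exact ⟨y, nm_mul s h p y⟩
  have h2 : sat (LinearMap.ker (s - 1)) (LinearMap.range (nm s (p * D))) (p * n) =
      sat (LinearMap.ker (s - 1)) (LinearMap.range (nm s D)) n := by
    ext x
    rw [mem_sat, mem_sat]
    refine and_congr_right fun _ => ⟨?_, ?_⟩
    · rintro ⟨y, hy⟩
      rw [nm_mul s h, mul_smul] at hy
      exact ⟨y, nsmul_cancel hp hy⟩
    · rintro ⟨y, hy⟩
      exact ⟨y, by rw [nm_mul s h, mul_smul, hy]⟩
  rw [h1, h2, ← finrank_nm s h hD]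
  have h3 := relIndex_nsmul (LinearMap.range (nm s D)).toAddSubgroup p
  rw [Submodule.toAddSubgroup_toIntSubmodule] at h3
  rw [← h3, AddSubgroup.relIndex_mul_relIndex]
  · rintro _ ⟨x, hx, rfl⟩
    exact AddSubgroup.nsmul_mem _ hx p
  · rintro _ ⟨x, rfl⟩
    exact mem_sat.2 ⟨sub_one_nm s h x, ⟨n • x, map_nsmul _ _ _⟩⟩

theorem ntor_Hq_le (P Q : Submodule ℤ G) {p : ℕ} (hp : p ≠ 0) :
    ntor (Hq P Q) p ≤ p ^ Module.finrank ℤ P := by
  rw [ntor_Hq]
  have h1 : (sat P Q p).map (nsmulAddMonoidHom p) ≤ Q.toAddSubgroup := by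
    rintro _ ⟨x, hx, rfl⟩
    exact hx.2
  have h2 := AddSubgroup.relIndex_dvd_of_le_left (sat P Q p) h1
  rw [relIndex_nsmul] at h2
  refine (Nat.le_of_dvd (pow_pos (Nat.pos_of_ne_zero hp) _) h2).trans ?_
  refine Nat.pow_le_pow_right (Nat.pos_of_ne_zero hp) (Submodule.finrank_mono ?_)
  intro x hx
  exact hx.1

theorem ntor_torsion (s : Module.End ℤ G) {D : ℕ} (h : s ^ D = 1) (hD : D ≠ 0) {j : ℕ}
    (hj : ¬ Even j) (n : ℕ) :
    ntor (AddCommGroup.torsion (G ⧸ LinearMap.range (s - 1))) n = ntor (Hh s D j) n := by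
  have hj' : Even (j + 1) := by simpa [Nat.even_add_one] using hj
  let f : Hh s D j →ₗ[ℤ] G ⧸ LinearMap.range (s - 1) :=
    Hq.lift ((LinearMap.range (s - 1)).mkQ.comp (Submodule.subtype _)) fun x hx => by
      rw [tau_even s D hj'] at hx
      exact (Submodule.Quotient.mk_eq_zero _).2 hx
  have hf : ∀ y, f y ∈ AddCommGroup.torsion (G ⧸ LinearMap.range (s - 1)) := by
    intro y
    rw [AddCommGroup.mem_torsion, isOfFinAddOrder_iff_nsmul_eq_zero]
    exact ⟨D, Nat.pos_of_ne_zero hD, by rw [← map_nsmul, Hh_killed, map_zero]⟩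
  refine (ntor_congr (AddEquiv.ofBijective (f.toAddMonoidHom.codRestrict _ hf) ⟨?_, ?_⟩) n).symm
  · rw [injective_iff_map_eq_zero]
    intro y hy
    obtain ⟨x, hx, rfl⟩ := Hq.mk_surj y
    rw [Hq.mk_eq_zero, tau_even s D hj']
    exact (Submodule.Quotient.mk_eq_zero _).1 (congrArg Subtype.val hy)
  · rintro ⟨y, hy⟩
    obtain ⟨x, rfl⟩ := (LinearMap.range (s - 1)).mkQ_surjective y
    rw [AddCommGroup.mem_torsion, isOfFinAddOrder_iff_nsmul_eq_zero] at hy
    obtain ⟨r, hr, hy⟩ := hy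
    rw [← map_nsmul] at hy
    obtain ⟨z, hz⟩ := (Submodule.Quotient.mk_eq_zero _).1 hy
    have hx : x ∈ LinearMap.ker (tau s D j) := by
      rw [tau_odd s D hj, LinearMap.mem_ker]
      refine nsmul_cancel hr.ne' ?_
      rw [← map_nsmul, ← hz, nm_sub_one s h, smul_zero]
    exact ⟨Hq.mk _ x hx, rfl⟩

theorem finite_torsion (Q : Submodule ℤ G) : Finite (AddCommGroup.torsion (G ⧸ Q)) := by
  have h1 : Module.Finite ℤ (AddCommGroup.torsion (G ⧸ Q)).toIntSubmodule := inferInstance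
  have h2 : AddGroup.FG (AddCommGroup.torsion (G ⧸ Q)) := Module.Finite.iff_addGroup_fg.1 h1
  refine AddCommGroup.finite_of_fg_isAddTorsion _ ?_
  rintro ⟨x, hx⟩
  rw [isOfFinAddOrder_iff_nsmul_eq_zero]
  obtain ⟨r, hr, h⟩ := isOfFinAddOrder_iff_nsmul_eq_zero.1 hx
  exact ⟨r, hr, Subtype.ext h⟩

end Sub

/-! ### Combinatorics of the invariant -/

theorem step_sum (r ρ : ℕ) (β : ℕ → ℕ) (hβ : Antitone β) (hρ : ρ ≤ r)
    (hb : ∑ j ∈ Finset.range r, min 1 (β j) ≤ ρ) (a : ℕ) :
    ∑ j ∈ Finset.range r, min (a + 1) (β j + if j + 1 ≤ ρ then 1 else 0) =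
      ρ + ∑ j ∈ Finset.range r, min a (β j) := by
  have hz : ∀ j, j < r → ρ ≤ j → β j = 0 := by
    intro j hj hρj
    by_contra hne
    have h1 : ∑ i ∈ Finset.range (j + 1), min 1 (β i) ≤ ∑ i ∈ Finset.range r, min 1 (β i) :=
      Finset.sum_le_sum_of_subset (Finset.range_subset_range.2 hj)
    have h2 : ∑ i ∈ Finset.range (j + 1), min 1 (β i) = j + 1 := by
      rw [Finset.sum_congr rfl (g := fun _ => 1)]
      · simp
      · intro i hi
        have := hβ (Nat.lt_succ_iff.1 (Finset.mem_range.1 hi))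
        omega
    omega
  have h3 : ρ = ∑ j ∈ Finset.range r, if j + 1 ≤ ρ then 1 else 0 := by
    rw [← Finset.card_filter]
    have : (Finset.range r).filter (fun j => j + 1 ≤ ρ) = Finset.range ρ := by
      ext j
      simp only [Finset.mem_filter, Finset.mem_range]
      omega
    rw [this, Finset.card_range]
  conv_rhs => rw [h3, ← Finset.sum_add_distrib]
  refine Finset.sum_congr rfl fun j hj => ?_
  have := hz j (Finset.mem_range.1 hj)
  split_ifs <;> omega

variable {ι : Type} [Fintype ι] [DecidableEq ι]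

/-- the index set at level `s` -/
def lev (w : ι → ℕ) (d p s : ℕ) : Finset ι := Fx w d (d / p ^ s)

omit [DecidableEq ι] in
theorem mem_lev' {w : ι → ℕ} {d p s : ℕ} {i : ι} : i ∈ lev w d p s ↔ d ∣ d / p ^ s * w i := by
  simp [lev, Fx]

omit [DecidableEq ι] in
theorem mem_lev {w : ι → ℕ} {d p s : ℕ} (hd : 0 < d) (hs : p ^ s ∣ d) {i : ι} :
    i ∈ lev w d p s ↔ p ^ s ∣ w i := by
  obtain ⟨D, rfl⟩ := hs
  have hp : 0 < p ^ s := Nat.pos_of_mul_pos_right hd
  have hD : 0 < D := Nat.pos_of_mul_pos_left hd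
  rw [mem_lev', Nat.mul_div_cancel_left _ hp, mul_comm (p ^ s) D]
  exact Nat.mul_dvd_mul_iff_left hD

omit [DecidableEq ι] in
theorem lev_zero (w : ι → ℕ) (d p : ℕ) : lev w d p 0 = Finset.univ := by
  ext i
  simp [mem_lev']

/-- number of levels above `s` contributing to the `j`-th cyclic factor -/
def bet (k : ℕ → ℚ) (e s j : ℕ) : ℕ :=
  ((Finset.Ioc s e).filter fun t => ((j + 1 : ℕ) : ℚ) ≤ k t).card

theorem bet_anti (k : ℕ → ℚ) (e s : ℕ) : Antitone (bet k e s) := by
  intro j j' hj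
  refine Finset.card_le_card fun t ht => ?_
  rw [Finset.mem_filter] at ht ⊢
  refine ⟨ht.1, le_trans ?_ ht.2⟩
  exact_mod_cast Nat.succ_le_succ hj

theorem bet_self (k : ℕ → ℚ) (e j : ℕ) : bet k e e j = 0 := by
  simp [bet]

theorem bet_succ (k : ℕ → ℚ) {e s : ℕ} (hs : s < e) (j : ℕ) :
    bet k e s j = bet k e (s + 1) j + if ((j + 1 : ℕ) : ℚ) ≤ k (s + 1) then 1 else 0 := by
  have h1 : Finset.Ioc s e = insert (s + 1) (Finset.Ioc (s + 1) e) := by
    ext t
    simp only [Finset.mem_insert, Finset.mem_Ioc]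
    omega
  unfold bet
  rw [h1, Finset.filter_insert]
  split_ifs with h
  · rw [Finset.card_insert_of_notMem]
    simp
  · rfl

theorem invariant {w : ι → ℕ} {d : ℕ} (hd : 0 < d)
    {M : Finset ι → Type} [∀ S, AddCommGroup (M S)] {T : ∀ S, Module.End ℤ (M S)}
    (h : LatticeData w d M T) (k : Finset ι → ℚ) (r : ℕ)
    (hk : ∀ S, Adm w d S → k S = if (Fintype.card ι - S.card) % 2 = 1 then
      (Module.finrank ℤ (LinearMap.ker (T S - 1)) : ℚ) else 0)
    (hr : ∀ (S : Finset ι) (ρ : ℕ), (ρ : ℚ) ≤ k S → ρ ≤ r) {p : ℕ} (hp : p.Prime) (s : ℕ)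
    (hs : s ≤ d.factorization p) (a : ℕ) :
    ntor (Hh (T (lev w d p s)) (d / p ^ s) (Fintype.card ι + 1 + (lev w d p s).card)) (p ^ a) =
      p ^ ∑ j ∈ Finset.range r, min a (bet (fun t => k (lev w d p t)) (d.factorization p) s j) := by
  induction hs using Nat.decreasingInduction generalizing a with
  | self =>
    simp only [bet_self, Nat.min_zero, Finset.sum_const_zero, pow_zero]
    exact ntor_eq_one (Hh_killed _ _ _)
      (Nat.Coprime.pow_right _ (Nat.coprime_ordCompl hp hd.ne').symm)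
  | of_succ s hs ih =>
    have hdvd : p ^ (s + 1) ∣ d := (hp.pow_dvd_iff_le_factorization hd.ne').2 hs
    have hdvd' : p ^ s ∣ d := (pow_dvd_pow p (Nat.le_succ s)).trans hdvd
    have hDpos : 0 < d / p ^ (s + 1) := Nat.div_pos (Nat.le_of_dvd hd hdvd) (pow_pos hp.pos _)
    have hD : d / p ^ s = p * (d / p ^ (s + 1)) := by
      obtain ⟨D, hD⟩ := hdvd
      rw [hD, Nat.mul_div_cancel_left _ (pow_pos hp.pos _), pow_succ, mul_assoc,
        Nat.mul_div_cancel_left _ (pow_pos hp.pos _)]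
    have hadm : Adm w d (lev w d p (s + 1)) := ⟨_, rfl⟩
    have hstep := h.step (lev w d p s) (lev w d p (s + 1)) 1 (d / p ^ s) p ⟨_, rfl⟩ hadm
      (fun i hi => (mem_lev hd hdvd').2
        ((pow_dvd_pow p (Nat.le_succ s)).trans ((mem_lev hd hdvd).1 hi))) hp
      (by rw [hD]; exact Nat.mul_pos hp.pos hDpos) ⟨_, hD⟩
      (fun i hi => by rw [one_mul]; exact mem_lev'.1 hi)
      (fun i _ hi => by
        rw [one_mul, hD, Nat.mul_div_cancel_left _ hp.pos]
        exact fun h1 => hi (mem_lev'.2 h1)) (Fintype.card ι + 1) a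
    rw [pow_one, pow_one] at hstep
    rw [hstep, hD]
    obtain ⟨μ, ⟨eM⟩, -⟩ := h.free _ hadm
    have : Module.Free ℤ (M (lev w d p (s + 1))) := Module.Free.of_equiv eM.symm
    have : Module.Finite ℤ (M (lev w d p (s + 1))) := Module.Finite.equiv eM.symm
    have hord : T (lev w d p (s + 1)) ^ (d / p ^ (s + 1)) = 1 :=
      h.ord _ _ fun i hi => mem_lev'.1 hi
    have hcard : (lev w d p (s + 1)).card ≤ Fintype.card ι := Finset.card_le_univ _
    have hkS := hk _ hadm
    simp only [bet_succ _ hs]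
    by_cases hj : Even (Fintype.card ι + 1 + (lev w d p (s + 1)).card)
    · rw [if_pos (by obtain ⟨m, hm⟩ := hj; omega)] at hkS
      cases a with
      | zero => simp [ntor_one]
      | succ a =>
        have hb := ih 1
        rw [pow_one] at hb
        have hb2 := ntor_Hq_le (LinearMap.ker (tau (T (lev w d p (s + 1))) (d / p ^ (s + 1))
          (Fintype.card ι + 1 + (lev w d p (s + 1)).card)))
          (LinearMap.range (tau (T (lev w d p (s + 1))) (d / p ^ (s + 1))
            (Fintype.card ι + 1 + (lev w d p (s + 1)).card + 1))) hp.ne_zero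
        rw [hb, tau_even _ _ hj] at hb2
        have hb3 := (Nat.pow_le_pow_iff_right hp.one_lt).1 hb2
        rw [pow_succ' p a, Hh_even _ hord hDpos.ne' hp.ne_zero hj, ih a, ← pow_add,
          ← step_sum r _ _ (bet_anti _ _ _) (hr _ _ hkS.ge) hb3 a]
        simp only [hkS, Nat.cast_le]
    · rw [if_neg (by rw [Nat.not_even_iff] at hj; omega)] at hkS
      rw [Hh_odd _ hord hp.ne_zero hj, ih a]
      congr 1
      refine Finset.sum_congr rfl fun j _ => ?_
      rw [hkS, if_neg (by push_cast; linarith [(Nat.cast_nonneg j : (0 : ℚ) ≤ j)]), add_zero]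

/-! ### Valuations of the numbers `c I` -/

omit [Fintype ι] [DecidableEq ι] in
theorem pow_dvd_u {d wi p t : ℕ} (hd : 0 < d) (hw : 0 < wi) (hp : p.Prime) (ht : 1 ≤ t)
    (hte : t ≤ d.factorization p) :
    p ^ (d.factorization p + 1 - t) ∣ d / Nat.gcd d wi ↔ ¬ p ^ t ∣ wi := by
  have hg : 0 < Nat.gcd d wi := Nat.gcd_pos_of_pos_left _ hd
  have hu : 0 < d / Nat.gcd d wi := Nat.div_pos (Nat.gcd_le_left _ hd) hg
  rw [hp.pow_dvd_iff_le_factorization hu.ne', hp.pow_dvd_iff_le_factorization hw.ne',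
    Nat.factorization_div (Nat.gcd_dvd_left _ _), Nat.factorization_gcd hd.ne' hw.ne']
  simp only [Finsupp.coe_tsub, Pi.sub_apply, Finsupp.inf_apply]
  omega

theorem gcd_ne_zero {w : ι → ℕ} {d : ℕ} (hd : 0 < d) (u : ι → ℕ)
    (hu : ∀ i, u i = d / Nat.gcd d (w i)) {I : Finset ι} (hI : I ≠ Finset.univ) :
    (Finset.univ \ I).gcd u ≠ 0 ∧ (Finset.univ \ I).gcd u ∣ d := by
  obtain ⟨i, hi⟩ : ∃ i, i ∉ I := by
    by_contra hne
    exact hI (Finset.eq_univ_of_forall fun i => by_contra fun hi => hne ⟨i, hi⟩)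
  have h1 : (Finset.univ \ I).gcd u ∣ d :=
    (Finset.gcd_dvd (by simpa using hi)).trans (hu i ▸ Nat.div_dvd_of_dvd (Nat.gcd_dvd_left _ _))
  exact ⟨fun h0 => hd.ne' (by rwa [h0, Nat.zero_dvd] at h1), h1⟩

theorem fact_gcd {w : ι → ℕ} {d : ℕ} (hw : ∀ i, 0 < w i) (hd : 0 < d) (u : ι → ℕ)
    (hu : ∀ i, u i = d / Nat.gcd d (w i)) {I : Finset ι} (hI : I ≠ Finset.univ) {p : ℕ}
    (hp : p.Prime) :
    ((Finset.univ \ I).gcd u).factorization p =
      ((Finset.Ioc 0 (d.factorization p)).filter fun t => lev w d p t ⊆ I).card := by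
  obtain ⟨h0, h1⟩ := gcd_ne_zero hd u hu hI
  have h2 : ((Finset.univ \ I).gcd u).factorization p ≤ d.factorization p :=
    (Nat.factorization_le_iff_dvd h0 hd.ne').2 h1 p
  have h3 : ((Finset.Ioc 0 (d.factorization p)).filter fun t => lev w d p t ⊆ I) =
      Finset.Ioc (d.factorization p - ((Finset.univ \ I).gcd u).factorization p)
        (d.factorization p) := by
    ext t
    simp only [Finset.mem_filter, Finset.mem_Ioc]
    have key : 0 < t → t ≤ d.factorization p → (lev w d p t ⊆ I ↔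
        d.factorization p + 1 - t ≤ ((Finset.univ \ I).gcd u).factorization p) := by
      intro ht hte
      rw [← hp.pow_dvd_iff_le_factorization h0, Finset.dvd_gcd_iff]
      have hdv : p ^ t ∣ d := (hp.pow_dvd_iff_le_factorization hd.ne').2 hte
      constructor
      · intro hsub i hi
        rw [hu, pow_dvd_u hd (hw i) hp ht hte, ← mem_lev hd hdv]
        exact fun h => (Finset.mem_sdiff.1 hi).2 (hsub h)
      · intro hall i hi
        by_contra hiI
        have := hall i (by simpa using hiI)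
        rw [hu, pow_dvd_u hd (hw i) hp ht hte, ← mem_lev hd hdv] at this
        exact this hi
    constructor
    · rintro ⟨⟨ht, hte⟩, hsub⟩
      have := (key ht hte).1 hsub
      omega
    · rintro ⟨ht, hte⟩
      exact ⟨⟨by omega, hte⟩, (key (by omega) hte).2 (by omega)⟩
  rw [h3, Nat.card_Ioc]
  omega

theorem c_ne_zero {w : ι → ℕ} {d : ℕ} (hd : 0 < d) (u : ι → ℕ)
    (hu : ∀ i, u i = d / Nat.gcd d (w i)) (c : Finset ι → ℕ)
    (hc : ∀ I : Finset ι, ∏ J ∈ I.powerset, c J = (Finset.univ \ I).gcd u) {I : Finset ι}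
    (hI : I ≠ Finset.univ) : c I ≠ 0 := by
  have h0 := (gcd_ne_zero hd u hu hI).1
  rw [← hc, Finset.prod_ne_zero_iff] at h0
  exact h0 I (Finset.mem_powerset_self I)

theorem fact_c {w : ι → ℕ} {d : ℕ} (hw : ∀ i, 0 < w i) (hd : 0 < d) (u : ι → ℕ)
    (hu : ∀ i, u i = d / Nat.gcd d (w i)) (c : Finset ι → ℕ)
    (hc : ∀ I : Finset ι, ∏ J ∈ I.powerset, c J = (Finset.univ \ I).gcd u) {p : ℕ}
    (hp : p.Prime) (I : Finset ι) (hI : I ≠ Finset.univ) :
    (c I).factorization p =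
      ((Finset.Ioc 0 (d.factorization p)).filter fun t => lev w d p t = I).card := by
  induction I using Finset.strongInduction with
  | H I ih =>
    have hne : ∀ J ∈ I.powerset, J ≠ Finset.univ := by
      intro J hJ h
      rw [h, Finset.mem_powerset, Finset.univ_subset_iff] at hJ
      exact hI hJ
    have h1 := fact_gcd hw hd u hu hI hp
    rw [← hc, Nat.factorization_prod fun J hJ => c_ne_zero hd u hu c hc (hne J hJ),
      Finsupp.finsetSum_apply] at h1
    have h2 := Finset.sum_card_fiberwise_eq_card_filter (Finset.Ioc 0 (d.factorization p))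
      I.powerset (lev w d p)
    simp only [Finset.mem_powerset] at h2
    rw [← h2, ← Finset.add_sum_erase _ _ (Finset.mem_powerset_self I),
      ← Finset.add_sum_erase _ _ (Finset.mem_powerset_self I),
      Finset.sum_congr rfl fun J hJ => ih J ?_ (hne J (Finset.mem_of_mem_erase hJ))] at h1
    · exact Nat.add_right_cancel h1
    · rw [Finset.mem_erase, Finset.mem_powerset] at hJ
      exact Finset.ssubset_iff_subset_ne.2 ⟨hJ.2, hJ.1⟩

end Orl

variable {ι : Type} [Fintype ι] [DecidableEq ι]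

theorem alg_main {w : ι → ℕ} {d : ℕ} (hw : ∀ i, 0 < w i) (hd : 0 < d)
    {M : Finset ι → Type} [∀ S, AddCommGroup (M S)] {T : ∀ S, Module.End ℤ (M S)}
    (h : LatticeData w d M T) (u v : ι → ℕ) (hu : ∀ i, u i = d / Nat.gcd d (w i))
    (c : Finset ι → ℕ) (hc : ∀ I : Finset ι, ∏ J ∈ I.powerset, c J = (Finset.univ \ I).gcd u)
    (k : Finset ι → ℚ)
    (hk : ∀ I : Finset ι, k I = (if (Fintype.card ι - I.card) % 2 = 1 then (1 : ℚ) else 0) *
      ∑ J ∈ I.powerset, (-1 : ℚ) ^ (I.card - J.card) *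
        ((∏ j ∈ J, (u j : ℚ)) / ((∏ j ∈ J, (v j : ℚ)) * ((J.lcm u : ℕ) : ℚ))))
    (hrank : ∀ S, Adm w d S → (Module.finrank ℤ (LinearMap.ker (T S - 1)) : ℚ) =
      ∑ J ∈ S.powerset, (-1 : ℚ) ^ (S.card - J.card) *
        ((∏ j ∈ J, (u j : ℚ)) / ((∏ j ∈ J, (v j : ℚ)) * ((J.lcm u : ℕ) : ℚ)))) :
    Nonempty (↥(AddCommGroup.torsion (M Finset.univ ⧸ LinearMap.range (T Finset.univ - 1))) ≃+
      ((j : Fin ⌊Finset.univ.sup' Finset.univ_nonempty k⌋₊) →
        ZMod (∏ I ∈ Finset.univ.filter (fun I => (((j : ℕ) + 1 : ℕ) : ℚ) ≤ k I), c I))) := by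
  have hadm : Adm w d Finset.univ := ⟨0, by ext i; simp [Fx]⟩
  obtain ⟨μ, ⟨eM⟩, -⟩ := h.free _ hadm
  have : Module.Free ℤ (M Finset.univ) := Module.Free.of_equiv eM.symm
  have : Module.Finite ℤ (M Finset.univ) := Module.Finite.equiv eM.symm
  have hord : T Finset.univ ^ d = 1 := h.ord _ _ fun i _ => Dvd.intro _ rfl
  have hku : k Finset.univ = 0 := by
    rw [hk, Finset.card_univ, Nat.sub_self, if_neg (by norm_num), zero_mul]
  have hne : ∀ (j : ℕ), ∀ I ∈ Finset.univ.filter (fun I => ((j + 1 : ℕ) : ℚ) ≤ k I),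
      I ≠ Finset.univ := by
    intro j I hI hIu
    rw [Finset.mem_filter, hIu, hku] at hI
    have h1 := hI.2
    push_cast at h1
    linarith [(Nat.cast_nonneg j : (0 : ℚ) ≤ j)]
  have hd0 : ∀ j : ℕ, ∏ I ∈ Finset.univ.filter (fun I => ((j + 1 : ℕ) : ℚ) ≤ k I), c I ≠ 0 :=
    fun j => Finset.prod_ne_zero_iff.2 fun I hI => Orl.c_ne_zero hd u hu c hc (hne j I hI)
  have : Finite (AddCommGroup.torsion (M Finset.univ ⧸ LinearMap.range (T Finset.univ - 1))) :=
    Orl.finite_torsion _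
  have : ∀ j : Fin ⌊Finset.univ.sup' Finset.univ_nonempty k⌋₊,
      NeZero (∏ I ∈ Finset.univ.filter (fun I => (((j : ℕ) + 1 : ℕ) : ℚ) ≤ k I), c I) :=
    fun j => ⟨hd0 j⟩
  refine Orl.equiv_of_ntor _ _ fun p a hp => ?_
  have hinv := Orl.invariant hd h k ⌊Finset.univ.sup' Finset.univ_nonempty k⌋₊
    (fun S hS => by
      rw [hk, hrank S hS]
      split_ifs
      · rw [one_mul]
      · rw [zero_mul])
    (fun S ρ hρ => Nat.le_floor (hρ.trans (Finset.le_sup' k (Finset.mem_univ S)))) hp 0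
    (Nat.zero_le _) a
  rw [Orl.lev_zero, pow_zero, Nat.div_one] at hinv
  rw [Orl.ntor_torsion _ hord hd.ne' (j := Fintype.card ι + 1 + (Finset.univ : Finset ι).card)
    (by rw [Finset.card_univ, Nat.not_even_iff]; omega), hinv,
    Orl.ntor_pi_zmod _ (fun j : Fin _ => hd0 j) hp, Finset.sum_range]
  congr 1
  refine Finset.sum_congr rfl fun j _ => ?_
  congr 1
  rw [Nat.factorization_prod fun I hI => Orl.c_ne_zero hd u hu c hc (hne j I hI),
    Finsupp.finsetSum_apply,
    Finset.sum_congr rfl fun I hI => Orl.fact_c hw hd u hu c hc hp I (hne j I hI),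
    Finset.sum_card_fiberwise_eq_card_filter]
  simp only [Orl.bet, Finset.mem_filter, Finset.mem_univ, true_and]

end Pool.Agent.Lib.MP_1ba768_gt
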