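import Pool.Agent.Shared.SingHom.Main
import Pool.Agent.Lib.MP_1ba768_gt.Rank

/-! Tate cohomology of singular chains and localisation at the fixed subspace. -/

set_option autoImplicit false

open Set MvPolynomial Pool.Agent.Shared.SingHom

noncomputable section

namespace Pool.Agent.Lib.MP_1ba768_gt

namespace Tate

/-! ### Algebra -/

theorem ntor_eq {A B : Type*} [AddCommGroup A] [AddCommGroup B] (φ : A →ₗ[ℤ] B) (p k : ℕ)
    (hker : ∀ a, φ a = 0 → ∃ r : ℕ, r.Coprime p ∧ r • a = 0)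
    (hcok : ∀ b, ∃ r : ℕ, r.Coprime p ∧ ∃ a, φ a = r • b) : ntor A (p ^ k) = ntor B (p ^ k) := by
  have inv : ∀ r : ℕ, r.Coprime p → ∃ c e : ℤ, c * r + e * (p ^ k : ℕ) = 1 := by
    intro r hr
    exact Nat.isCoprime_iff_coprime.2 (hr.pow_right k)
  refine Nat.card_congr (Equiv.ofBijective
    (fun a => ⟨φ a.1, by rw [← map_nsmul, a.2, map_zero]⟩) ⟨?_, ?_⟩)
  · rintro ⟨a, ha⟩ ⟨a', ha'⟩ he
    have he' : φ (a - a') = 0 := by rw [map_sub, sub_eq_zero]; exact congrArg Subtype.val he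
    obtain ⟨r, hr, h0⟩ := hker _ he'
    obtain ⟨c, e, h1⟩ := inv r hr
    have h2 : p ^ k • (a - a') = 0 := by rw [smul_sub, ha, ha', sub_zero]
    apply Subtype.ext
    rw [← sub_eq_zero, ← one_zsmul (a - a'), ← h1, add_smul, mul_smul, mul_smul, natCast_zsmul,
      natCast_zsmul, h0, h2]
    simp
  · rintro ⟨b, hb⟩
    obtain ⟨r, hr, a, ha⟩ := hcok b
    obtain ⟨r', hr', h0⟩ := hker (p ^ k • a) (by rw [map_nsmul, ha, smul_comm, hb, smul_zero])
    obtain ⟨c, e, h1⟩ := inv (r' * r) (Nat.Coprime.mul_left hr' hr)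
    refine ⟨⟨c • r' • a, by rw [smul_comm, smul_comm (p ^ k), h0, smul_zero]⟩, Subtype.ext ?_⟩
    change φ (c • r' • a) = b
    rw [map_zsmul, map_nsmul, ha, ← mul_smul]
    conv_rhs => rw [← one_zsmul b, ← h1, add_smul, mul_smul, mul_smul, natCast_zsmul,
      natCast_zsmul, hb]
    simp

theorem tau_add_two {M : Type*} [AddCommGroup M] (s : Module.End ℤ M) (D j : ℕ) :
    tau s D (j + 2) = tau s D j := by
  simp [tau, Nat.even_add]

theorem tau_tau {M : Type*} [AddCommGroup M] (s : Module.End ℤ M) (D j : ℕ) {x : M}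
    (hx : (s ^ D) x = x) : tau s D j (tau s D (j + 1) x) = 0 := by
  have : tau s D j * tau s D (j + 1) = s ^ D - 1 := by
    by_cases h : Even j
    · simp [tau, h, Nat.even_add_one, mul_geom_sum]
    · simp [tau, h, Nat.even_add_one, geom_sum_mul]
  rw [← Module.End.mul_apply, this]
  simp [hx]

theorem tau_mem {M : Type*} [AddCommGroup M] {s : Module.End ℤ M} {K : Submodule ℤ M}
    (h : ∀ x ∈ K, s x ∈ K) (D j : ℕ) {x : M} (hx : x ∈ K) : tau s D j x ∈ K := by
  have hp : ∀ l, (s ^ l) x ∈ K := by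
    intro l
    induction l with
    | zero => simpa using hx
    | succ l ih => rw [pow_succ', Module.End.mul_apply]; exact h _ ih
  unfold tau
  split_ifs
  · exact K.sub_mem (h x hx) hx
  · rw [LinearMap.sum_apply]; exact K.sum_mem fun l _ => hp l

theorem tau_comm {M : Type*} [AddCommGroup M] {s b : Module.End ℤ M} (h : Commute b s) (D j : ℕ) :
    Commute b (tau s D j) := by
  unfold tau
  split_ifs
  · exact h.sub_right (Commute.one_right _)
  · exact Commute.sum_right _ _ _ fun l _ => h.pow_right l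

section Ring

variable {R : Type*} [Ring R] {s t : R} (π : R)

/-- the homotopy in odd degrees -/
def hP (s t π : R) (n : ℕ) : R :=
  -∑ j ∈ Finset.range n, s ^ j * π * ∑ l ∈ Finset.range j, t ^ (l + 1)

theorem geom_inv (hts : t * s = 1) (j : ℕ) :
    (∑ l ∈ Finset.range j, t ^ (l + 1)) * (s - 1) = 1 - t ^ j := by
  induction j with
  | zero => simp
  | succ j ih =>
    rw [Finset.sum_range_succ, add_mul, ih, mul_sub, pow_succ, mul_assoc, hts]
    noncomm_ring

theorem hP_mul (hts : t * s = 1) (n : ℕ) : hP s t π n * (s - 1) =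
    ∑ j ∈ Finset.range n, s ^ j * π * t ^ j - (∑ j ∈ Finset.range n, s ^ j) * π := by
  rw [hP, neg_mul, Finset.sum_mul, Finset.sum_mul, ← Finset.sum_sub_distrib,
    ← Finset.sum_neg_distrib]
  refine Finset.sum_congr rfl fun j _ => ?_
  rw [mul_assoc, geom_inv hts]
  noncomm_ring

theorem mul_hP (n : ℕ) : (s - 1) * hP s t π n =
    ∑ l ∈ Finset.range n, s ^ (l + 1) * π * t ^ (l + 1) -
      s ^ n * π * ∑ l ∈ Finset.range n, t ^ (l + 1) := by
  induction n with
  | zero => simp [hP]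
  | succ n ih =>
    have : hP s t π (n + 1) = hP s t π n - s ^ n * π * ∑ l ∈ Finset.range n, t ^ (l + 1) := by
      rw [hP, hP, Finset.sum_range_succ]; abel
    rw [this, mul_sub, ih, Finset.sum_range_succ, Finset.sum_range_succ, pow_succ' s n]
    noncomm_ring

end Ring

/-! ### The Tate complex -/

variable {X : Type*} [TopologicalSpace X]

/-- the Tate differential -/
def Dt (s : Module.End ℤ (Ch X)) (D e : ℕ) : (ℕ → Ch X) →ₗ[ℤ] (ℕ → Ch X) :=
  LinearMap.pi fun m => bd ∘ₗ LinearMap.proj (m + 1) +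
    ((-1 : ℤ) ^ m) • (tau s D (e + m) ∘ₗ LinearMap.proj m)

theorem Dt_apply (s : Module.End ℤ (Ch X)) (D e : ℕ) (x : ℕ → Ch X) (m : ℕ) :
    Dt s D e x m = bd (x (m + 1)) + (-1 : ℤ) ^ m • tau s D (e + m) (x m) := rfl

theorem Dt_add_two (s : Module.End ℤ (Ch X)) (D e : ℕ) : Dt s D (e + 2) = Dt s D e := by
  ext1 x
  funext m
  rw [Dt_apply, Dt_apply, add_right_comm e 2 m, tau_add_two]

/-- product of a graded family -/
def TK (K : ℕ → Submodule ℤ (Ch X)) : Submodule ℤ (ℕ → Ch X) := Submodule.pi univ K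

theorem mem_TK {K : ℕ → Submodule ℤ (Ch X)} {x : ℕ → Ch X} : x ∈ TK K ↔ ∀ m, x m ∈ K m := by
  simp [TK]

/-- equivariant subcomplexes -/
structure Good (s : Module.End ℤ (Ch X)) (D : ℕ) (K : ℕ → Submodule ℤ (Ch X)) : Prop where
  bd0 : ∀ x ∈ K 0, bd x = 0
  bd : ∀ m, ∀ x ∈ K (m + 1), bd x ∈ K m
  act : ∀ m, ∀ x ∈ K m, s x ∈ K m
  ord : ∀ m, ∀ x ∈ K m, (s ^ D) x = x

/-- Tate group -/
abbrev TG (s : Module.End ℤ (Ch X)) (D e : ℕ) (K : ℕ → Submodule ℤ (Ch X)) :=
  Hq (TK K ⊓ LinearMap.ker (Dt s D e)) ((TK K).map (Dt s D (e + 1)))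

/-- the relative Tate groups are prime-to-`p` torsion -/
def Null (s : Module.End ℤ (Ch X)) (D p : ℕ) (K K' : ℕ → Submodule ℤ (Ch X)) : Prop :=
  ∀ e, ∀ x ∈ TK K, Dt s D e x ∈ TK K' →
    ∃ r : ℕ, r.Coprime p ∧ ∃ y ∈ TK K, r • x - Dt s D (e + 1) y ∈ TK K'

variable {s : Module.End ℤ (Ch X)} {D p : ℕ} {K K' K'' : ℕ → Submodule ℤ (Ch X)}

theorem TK_mono (h : ∀ m, K' m ≤ K m) : TK K' ≤ TK K :=
  fun _ hx => mem_TK.2 fun m => h m (mem_TK.1 hx m)

theorem bd_tau (hs : Commute bd s) (j : ℕ) (x : Ch X) : bd (tau s D j x) = tau s D j (bd x) :=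
  LinearMap.congr_fun (tau_comm hs D j).eq x

theorem neg_one_sq (m : ℕ) : (-1 : ℤ) ^ m * (-1) ^ m = 1 := by
  rw [← mul_pow]; simp

theorem Dt_mem (hK : Good s D K) (e : ℕ) {x : ℕ → Ch X} (hx : x ∈ TK K) : Dt s D e x ∈ TK K := by
  rw [mem_TK] at hx ⊢
  intro m
  exact (K m).add_mem (hK.bd m _ (hx _))
    ((K m).smul_mem _ (tau_mem (hK.act m) _ _ (hx m)))

theorem Dt_Dt (hs : Commute bd s) (hK : Good s D K) (e : ℕ) {x : ℕ → Ch X} (hx : x ∈ TK K) :
    Dt s D e (Dt s D (e + 1) x) = 0 := by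
  funext m
  have h1 := tau_tau s D (e + m) (hK.ord m _ (mem_TK.1 hx m))
  have e1 : e + 1 + (m + 1) = e + m + 2 := by ring
  have e2 : e + 1 + m = e + m + 1 := by ring
  simp only [Dt_apply, map_add, map_smul, bd_bd, bd_tau hs, e1, e2, tau_add_two, h1, pow_succ]
  simp

theorem exists_of_acK (hs : Commute bd s) (hK : Good s D K) (hK' : Good s D K') (h : AcK K K')
    (e : ℕ) {x : ℕ → Ch X} (hx : x ∈ TK K) (hd : Dt s D e x ∈ TK K') :
    ∃ y ∈ TK K, x - Dt s D (e + 1) y ∈ TK K' := by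
  rw [mem_TK] at hx hd
  let P : ℕ → Ch X → Prop := fun m y => y ∈ K m ∧
    bd (x m - (-1 : ℤ) ^ m • tau s D (e + 1 + m) y) ∈ K' (m - 1)
  have step : ∀ m y, P m y → ∃ y', P (m + 1) y' ∧
      x m - (bd y' + (-1 : ℤ) ^ m • tau s D (e + 1 + m) y) ∈ K' m := by
    rintro m y ⟨hy, hb⟩
    obtain ⟨y', hy', hw⟩ := h m _ ((K m).sub_mem (hx m)
      ((K m).smul_mem _ (tau_mem (hK.act m) _ _ hy))) hb
    refine ⟨y', ⟨hy', ?_⟩, by convert hw using 1; abel⟩
    have h1 := tau_tau s D (e + m) (hK.ord m _ hy)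
    have e1 : e + 1 + (m + 1) = e + m + 2 := by ring
    have e2 : e + 1 + m = e + m + 1 := by ring
    have h2 := (K' m).sub_mem (hd m) ((K' m).smul_mem ((-1 : ℤ) ^ m)
      (tau_mem (hK'.act m) D (e + m) hw))
    have h3 : bd (x (m + 1) - (-1 : ℤ) ^ (m + 1) • tau s D (e + 1 + (m + 1)) y') =
        Dt s D e x m - (-1 : ℤ) ^ m • tau s D (e + m)
          (x m - (-1 : ℤ) ^ m • tau s D (e + 1 + m) y - bd y') := by
      simp only [Dt_apply, map_sub, map_smul, bd_tau hs, e1, e2, tau_add_two, h1, pow_succ]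
      module
    rw [h3]
    exact h2
  choose f hf1 hf2 using step
  have h0 : P 0 0 := ⟨(K 0).zero_mem, by
    rw [map_zero, smul_zero, sub_zero, hK.bd0 _ (hx 0)]; exact Submodule.zero_mem _⟩
  let Y : (m : ℕ) → {y // P m y} := fun m =>
    Nat.rec ⟨0, h0⟩ (fun m y => ⟨f m y.1 y.2, hf1 m y.1 y.2⟩) m
  exact ⟨fun m => (Y m).1, mem_TK.2 fun m => (Y m).2.1, mem_TK.2 fun m => hf2 m _ (Y m).2⟩

theorem null_of_acK (hs : Commute bd s) (hK : Good s D K) (hK' : Good s D K') (h : AcK K K') :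
    Null s D p K K' := by
  intro e x hx hd
  obtain ⟨y, hy, h1⟩ := exists_of_acK hs hK hK' h e hx hd
  exact ⟨1, by simp, y, hy, by simpa using h1⟩

theorem Null.refl : Null s D p K K :=
  fun _ x hx _ => ⟨1, by simp, 0, Submodule.zero_mem _, by simpa using hx⟩

theorem Null.trans (hs : Commute bd s) (hK : Good s D K) (h : Null s D p K K')
    (h' : Null s D p K' K'') (hle : ∀ m, K' m ≤ K m) (hle' : ∀ m, K'' m ≤ K' m) :
    Null s D p K K'' := by
  intro e x hx hd
  obtain ⟨r, hr, y, hy, h1⟩ := h e x hx (TK_mono hle' hd)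
  obtain ⟨r', hr', y', hy', h2⟩ := h' e _ h1 (by
    rw [map_sub, map_nsmul, Dt_Dt hs hK e hy, sub_zero]
    exact Submodule.smul_of_tower_mem _ _ hd)
  refine ⟨r' * r, Nat.Coprime.mul_left hr' hr, r' • y + y',
    Submodule.add_mem _ (Submodule.smul_of_tower_mem _ _ hy) (TK_mono hle hy'), ?_⟩
  convert h2 using 1
  rw [map_add, map_nsmul, mul_smul, smul_sub]
  abel

theorem ntor_of_null (hs : Commute bd s) (hK : Good s D K) (h : Null s D p K K')
    (hle : ∀ m, K' m ≤ K m) (e k : ℕ) :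
    ntor (TG s D e K') (p ^ k) = ntor (TG s D e K) (p ^ k) := by
  have m1 : TK K' ⊓ LinearMap.ker (Dt s D e) ≤ TK K ⊓ LinearMap.ker (Dt s D e) :=
    inf_le_inf_right _ (TK_mono hle)
  have m2 : (TK K').map (Dt s D (e + 1)) ≤ (TK K).map (Dt s D (e + 1)) :=
    Submodule.map_mono (TK_mono hle)
  refine ntor_eq (Hq.map LinearMap.id (fun x hx => m1 hx) (fun x _ hx => m2 hx)) p k ?_ ?_
  · intro a ha
    obtain ⟨x, hx, rfl⟩ := Hq.mk_surj a
    rw [Hq.map_mk, Hq.mk_eq_zero] at ha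
    obtain ⟨y, hy, he⟩ := ha
    have he' : Dt s D (e + 1) y = x := he
    obtain ⟨r, hr, z, hz, h1⟩ := h (e + 1) y hy (he' ▸ hx.1)
    refine ⟨r, hr, ?_⟩
    rw [← natCast_zsmul, Hq.mk_smul, Hq.mk_eq_zero]
    exact ⟨_, h1, by rw [map_sub, map_nsmul, Dt_Dt hs hK _ hz, he', sub_zero, natCast_zsmul]⟩
  · intro b
    obtain ⟨x, hx, rfl⟩ := Hq.mk_surj b
    have hx2 : Dt s D e x = 0 := hx.2
    obtain ⟨r, hr, y, hy, h1⟩ := h e x hx.1 (by rw [hx2]; exact Submodule.zero_mem _)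
    refine ⟨r, hr, Hq.mk _ _ ⟨h1, ?_⟩, ?_⟩
    · change Dt s D e _ = 0
      rw [map_sub, map_nsmul, Dt_Dt hs hK _ hy, hx2]; simp
    · rw [← natCast_zsmul (Hq.mk _ x hx), Hq.mk_smul, Hq.map_mk, Hq.mk_eq_mk]
      exact ⟨-y, Submodule.neg_mem _ hy, by simp⟩

/-! ### Concentrated homology -/

/-- truncation of the chain complex at degree `a` -/
def trunc (A : Set X) (a : ℕ) (N : Submodule ℤ (Ch X)) (m : ℕ) : Submodule ℤ (Ch X) :=
  if m < a then ⊥ else if m = a then N else C A m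

theorem trunc_lt {A : Set X} {a m : ℕ} (N) (h : m < a) : trunc A a N m = ⊥ := if_pos h
theorem trunc_self (A : Set X) (a : ℕ) (N) : trunc A a N a = N := by simp [trunc]
theorem trunc_gt {A : Set X} {a m : ℕ} (N) (h : a < m) : trunc A a N m = C A m := by
  rw [trunc, if_neg (by omega), if_neg (by omega)]

theorem trunc_le {A : Set X} {a : ℕ} {N} (hN : N ≤ C A a) (m : ℕ) : trunc A a N m ≤ C A m := by
  rcases lt_trichotomy m a with h | rfl | h
  · rw [trunc_lt N h]; exact bot_le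
  · rw [trunc_self]; exact hN
  · rw [trunc_gt N h]

theorem good_trunc {A : Set X} (hA : Good s D (C A)) {a : ℕ} {N} (h1 : B A a ≤ N)
    (h2 : N ≤ Z A a) (h3 : ∀ x ∈ N, s x ∈ N) : Good s D (trunc A a N) := by
  have hle := trunc_le (h2.trans inf_le_left)
  refine ⟨fun x hx => hA.bd0 x (hle 0 hx), fun m x hx => ?_, fun m x hx => ?_,
    fun m x hx => hA.ord m x (hle m hx)⟩
  · rcases lt_trichotomy m a with h | rfl | h
    · rcases Nat.lt_or_eq_of_le (Nat.succ_le_of_lt h) with h' | h'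
      · rw [trunc_lt N h'] at hx
        rw [(Submodule.mem_bot _).1 hx, map_zero]; exact Submodule.zero_mem _
      · subst h'
        rw [trunc_self] at hx
        rw [(mem_Z.1 (h2 hx)).2]; exact Submodule.zero_mem _
    · rw [trunc_self]; exact h1 ⟨x, hle _ hx, rfl⟩
    · rw [trunc_gt N h]; exact bd_mem (hle _ hx)
  · rcases lt_trichotomy m a with h | rfl | h
    · rw [trunc_lt N h] at hx ⊢
      rw [(Submodule.mem_bot _).1 hx, map_zero]; exact Submodule.zero_mem _
    · rw [trunc_self] at hx ⊢; exact h3 x hx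
    · rw [trunc_gt N h] at hx ⊢; exact hA.act m x hx

theorem good_bot : Good s D (fun _ => (⊥ : Submodule ℤ (Ch X))) := by
  refine ⟨?_, ?_, ?_, ?_⟩ <;> simp

theorem ntor_conc (hs : Commute bd s) {A : Set X} (hA : Good s D (C A)) {a : ℕ}
    (hc : ∀ m, m ≠ a → Z A m ≤ B A m) (σ : Module.End ℤ (H A a))
    (hσ : ∀ z hz hz', σ (cls z hz) = cls (s z) hz') (e k : ℕ) :
    ntor (TG s D e (C A)) (p ^ k) = ntor (Hh σ D (e + a)) (p ^ k) := by
  have hsb : ∀ x, bd (s x) = s (bd x) := fun x => LinearMap.congr_fun hs.eq x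
  have hZ : ∀ x ∈ Z A a, s x ∈ Z A a := fun x hx =>
    mem_Z.2 ⟨hA.act a x hx.1, by rw [hsb, (mem_Z.1 hx).2, map_zero]⟩
  have hB : ∀ x ∈ B A a, s x ∈ B A a := by
    rintro _ ⟨y, hy, rfl⟩
    exact ⟨s y, hA.act _ y hy, hsb y⟩
  have g1 := good_trunc hA (B_le_Z A a) le_rfl hZ
  have g2 := good_trunc hA le_rfl (B_le_Z A a) hB
  have hpow : ∀ l z hz, ∃ hz', (σ ^ l) (cls z hz) = cls ((s ^ l) z) hz' := by
    intro l z hz
    induction l with
    | zero => exact ⟨hz, rfl⟩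
    | succ l ih =>
      obtain ⟨h1, h2⟩ := ih
      refine ⟨by rw [pow_succ', Module.End.mul_apply]; exact hZ _ h1, ?_⟩
      rw [pow_succ', Module.End.mul_apply, h2, hσ _ _ (hZ _ h1)]
      simp only [pow_succ', Module.End.mul_apply]
  have htau : ∀ j z hz, tau σ D j (cls z hz) = cls (tau s D j z) (tau_mem hZ D j hz) := by
    intro j z hz
    by_cases hj : Even j
    · simp only [tau, if_pos hj, LinearMap.sub_apply, Module.End.one_apply]
      rw [hσ _ _ (hZ _ hz), Hq.mk_sub]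
    · simp only [tau, if_neg hj, LinearMap.sum_apply]
      choose h1 h2 using fun l => hpow l z hz
      simp only [h2]
      simp only [cls, Hq.mk, ← map_sum]
      congr 1
      apply Subtype.ext
      simp
  have ac1 : AcK (C A) (trunc A a (Z A a)) := by
    intro m x hx hb
    rcases lt_trichotomy m a with h | rfl | h
    · rw [trunc_lt _ (by omega)] at hb
      obtain ⟨y, hy, he⟩ := hc m h.ne (mem_Z.2 ⟨hx, hb⟩)
      exact ⟨y, hy, by rw [he, sub_self]; exact Submodule.zero_mem _⟩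
    · refine ⟨0, Submodule.zero_mem _, ?_⟩
      rw [map_zero, sub_zero, trunc_self]
      refine mem_Z.2 ⟨hx, ?_⟩
      rcases Nat.eq_zero_or_pos m with rfl | h
      · exact bd_eq_zero hx
      · rwa [trunc_lt _ (by omega)] at hb
    · exact ⟨0, Submodule.zero_mem _, by rw [map_zero, sub_zero, trunc_gt _ h]; exact hx⟩
  have ac2 : AcK (trunc A a (B A a)) (fun _ => ⊥) := by
    intro m x hx hb
    rcases lt_trichotomy m a with h | rfl | h
    · rw [trunc_lt _ h] at hx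
      exact ⟨0, Submodule.zero_mem _, by simpa using hx⟩
    · rw [trunc_self] at hx
      obtain ⟨y, hy, he⟩ := hx
      exact ⟨y, by rwa [trunc_gt _ (by omega)], by simp [he]⟩
    · rw [trunc_gt _ h] at hx
      obtain ⟨y, hy, he⟩ := hc m h.ne' (mem_Z.2 ⟨hx, hb⟩)
      exact ⟨y, by rwa [trunc_gt _ (by omega)], by simp [he]⟩
  have fill : ∀ e x, x ∈ TK (trunc A a (B A a)) → Dt s D e x = 0 →
      ∃ y ∈ TK (trunc A a (B A a)), x = Dt s D (e + 1) y := by
    intro e x hx hd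
    obtain ⟨y, hy, h1⟩ := exists_of_acK hs g2 good_bot ac2 e hx
      (by rw [hd]; exact Submodule.zero_mem _)
    exact ⟨y, hy, funext fun m => sub_eq_zero.1 (mem_TK.1 h1 m)⟩
  have h21 : TK (trunc A a (B A a)) ≤ TK (trunc A a (Z A a)) := TK_mono fun m => by
    rcases lt_trichotomy m a with h | rfl | h
    · rw [trunc_lt _ h]; exact bot_le
    · rw [trunc_self, trunc_self]; exact B_le_Z A m
    · rw [trunc_gt _ h, trunc_gt _ h]
  have h12 : ∀ x ∈ TK (trunc A a (Z A a)), x a ∈ B A a → x ∈ TK (trunc A a (B A a)) := by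
    intro x hx hb
    refine mem_TK.2 fun m => ?_
    have := mem_TK.1 hx m
    rcases lt_trichotomy m a with h | rfl | h
    · rwa [trunc_lt _ h] at this ⊢
    · rwa [trunc_self]
    · rwa [trunc_gt _ h] at this ⊢
  have hxa : ∀ x ∈ TK (trunc A a (Z A a)), x a ∈ Z A a := fun x hx => by
    have := mem_TK.1 hx a
    rwa [trunc_self] at this
  have hDa : ∀ e, ∀ x ∈ TK (trunc A a (Z A a)),
      Dt s D e x a - (-1 : ℤ) ^ a • tau s D (e + a) (x a) ∈ B A a := by
    intro e x hx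
    have := mem_TK.1 hx (a + 1)
    rw [trunc_gt _ (by omega)] at this
    exact ⟨_, this, by rw [Dt_apply]; abel⟩
  have hsing : ∀ z ∈ Z A a, (Pi.single a z : ℕ → Ch X) ∈ TK (trunc A a (Z A a)) := by
    intro z hz
    refine mem_TK.2 fun m => ?_
    by_cases h : m = a
    · rw [h, trunc_self, Pi.single_eq_same]; exact hz
    · rw [Pi.single_eq_of_ne h]; exact Submodule.zero_mem _
  rw [← ntor_of_null hs hA (null_of_acK hs hA g1 ac1) (trunc_le inf_le_left)]
  let P := TK (trunc A a (Z A a)) ⊓ LinearMap.ker (Dt s D e)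
  let ψ : P →ₗ[ℤ] H A a := (Hq.mkL (Z A a) (B A a)).comp
    (((LinearMap.proj a).comp P.subtype).codRestrict _ fun x => hxa x.1 x.2.1)
  have hψ : ∀ x : P, ψ x = cls (x.1 a) (hxa x.1 x.2.1) := fun _ => rfl
  have hψk : ∀ x : P, ψ x ∈ LinearMap.ker (tau σ D (e + a)) := by
    intro x
    rw [LinearMap.mem_ker, hψ, htau, Hq.mk_eq_zero]
    have h1 := hDa e x.1 x.2.1
    have h2 : Dt s D e x.1 = 0 := x.2.2
    rw [h2, Pi.zero_apply, zero_sub] at h1
    have := Submodule.smul_mem _ (-(-1 : ℤ) ^ a) h1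
    rwa [smul_neg, neg_smul, neg_neg, smul_smul, neg_one_sq, one_smul] at this
  have e3 : e + 1 + a = e + a + 1 := by ring
  refine ntor_eq (Hq.lift ((Hq.mkL _ _).comp (ψ.codRestrict _ hψk)) ?_) p k ?_ ?_
  · rintro ⟨x, hx⟩ ⟨y, hy, rfl⟩
    refine Hq.mk_eq_zero.2 ⟨(-1 : ℤ) ^ a • cls (y a) (hxa y hy), ?_⟩
    rw [map_smul, htau, Hq.mk_smul]
    symm
    refine Hq.mk_eq_mk.2 ?_
    rw [← e3]
    exact hDa (e + 1) y hy
  · intro c hc0
    obtain ⟨x, hx, rfl⟩ := Hq.mk_surj c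
    obtain ⟨c', hc'⟩ := Hq.mk_eq_zero.1 hc0
    obtain ⟨z, hz, rfl⟩ := Hq.mk_surj c'
    rw [htau] at hc'
    have h1 : tau s D (e + a + 1) z - x a ∈ B A a := Hq.mk_eq_mk.1 hc'
    have h2 := hsing _ (Submodule.smul_mem _ ((-1 : ℤ) ^ a) hz)
    have h3 := hDa (e + 1) _ h2
    rw [Pi.single_eq_same, map_smul, smul_smul, neg_one_sq, one_smul, e3] at h3
    have hx2 : Dt s D e x = 0 := hx.2
    obtain ⟨y, hy, h4⟩ := fill e _ (h12 _ (Submodule.sub_mem _ hx.1 (Dt_mem g1 (e + 1) h2)) (by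
      have := Submodule.neg_mem _ (Submodule.add_mem _ h1 h3)
      convert this using 1
      rw [Pi.sub_apply]; abel)) (by rw [map_sub, hx2, Dt_Dt hs g1 e h2, sub_zero])
    refine ⟨1, by simp, ?_⟩
    rw [one_smul, Hq.mk_eq_zero]
    exact ⟨_, Submodule.add_mem _ (h21 hy) h2, by rw [map_add, ← h4]; abel⟩
  · intro b
    obtain ⟨c, hc0, rfl⟩ := Hq.mk_surj b
    obtain ⟨z, hz, rfl⟩ := Hq.mk_surj c
    have h1 : tau s D (e + a) z ∈ B A a := by
      have := LinearMap.mem_ker.1 hc0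
      rwa [htau, Hq.mk_eq_zero] at this
    have h2 := hsing z hz
    have h3 := hDa e _ h2
    rw [Pi.single_eq_same] at h3
    obtain ⟨y, hy, h4⟩ := fill (e + 1) _ (h12 _ (Dt_mem g1 e h2) (by
      simpa using Submodule.add_mem _ h3 (Submodule.smul_mem _ ((-1 : ℤ) ^ a) h1)))
      (by rw [← Dt_add_two s D e]; exact Dt_Dt hs g1 (e + 1) h2)
    rw [add_assoc, one_add_one_eq_two, Dt_add_two] at h4
    refine ⟨1, by simp, Hq.mk _ (Pi.single a z - y) ⟨Submodule.sub_mem _ h2 (h21 hy), ?_⟩, ?_⟩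
    · change Dt s D e _ = 0
      rw [map_sub, h4, sub_self]
    · rw [one_smul, Hq.lift_mk]
      refine congrArg (Hq.mkL _ _) (Subtype.ext (Hq.mk_eq_mk.2 ?_))
      have := mem_TK.1 hy a
      rw [trunc_self] at this
      simpa using this

/-! ### Induced pieces -/

theorem C_zero_sup (A₁ A₂ A : Set X) : C A₁ 0 ⊔ C A₂ 0 = C A 0 := by
  rw [C_zero A₁ A, C_zero A₂ A, sup_idem]

theorem good_sup {K₁ K₂ : ℕ → Submodule ℤ (Ch X)} (h₁ : Good s D K₁) (h₂ : Good s D K₂) :
    Good s D fun m => K₁ m ⊔ K₂ m := by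
  refine ⟨fun x hx => ?_, fun m x hx => ?_, fun m x hx => ?_, fun m x hx => ?_⟩ <;>
    obtain ⟨y, hy, z, hz, rfl⟩ := Submodule.mem_sup.1 hx <;> rw [map_add]
  · rw [h₁.bd0 y hy, h₂.bd0 z hz, add_zero]
  · exact Submodule.add_mem_sup (h₁.bd m y hy) (h₂.bd m z hz)
  · exact Submodule.add_mem_sup (h₁.act m y hy) (h₂.act m z hz)
  · rw [h₁.ord m y hy, h₂.ord m z hz]

theorem pow_mem {M : Type*} [AddCommGroup M] {s : Module.End ℤ M} {K : Submodule ℤ M}
    (h : ∀ x ∈ K, s x ∈ K) (l : ℕ) {x : M} (hx : x ∈ K) : (s ^ l) x ∈ K := by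
  induction l with
  | zero => simpa using hx
  | succ l ih => rw [pow_succ', Module.End.mul_apply]; exact h _ ih

theorem hP_mem {M : Type*} [AddCommGroup M] {s t π : Module.End ℤ M} {K : Submodule ℤ M}
    (hs : ∀ x ∈ K, s x ∈ K) (ht : ∀ x ∈ K, t x ∈ K) (hπ : ∀ x ∈ K, π x ∈ K) (n : ℕ) {x : M}
    (hx : x ∈ K) : hP s t π n x ∈ K := by
  simp only [hP, LinearMap.neg_apply, LinearMap.sum_apply, Module.End.mul_apply]
  exact K.neg_mem (K.sum_mem fun j _ => pow_mem hs _ (hπ _ (K.sum_mem fun l _ => pow_mem ht _ hx)))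

theorem null_of_transfer (hs : Commute bd s) {t π : Module.End ℤ (Ch X)} (hts : t * s = 1)
    (hst : s * t = 1) {A₁ A₂ : Set X} (hD : 0 < D) (g₁ : Good s D (C A₁)) (g₂ : Good s D (C A₂))
    (hπ : ∀ (O : Set X) m, ∀ x ∈ C O m, π x ∈ C O m)
    (hπb : ∀ m, ∀ x ∈ C A₂ (m + 2), bd (π x) = π (bd x)) {r : ℕ} (hr : r.Coprime p)
    (hsum : ∀ m, ∀ x ∈ C A₂ (m + 1),
      ∑ j ∈ Finset.range D, (s ^ j) (π ((t ^ j) x)) = r • x) :
    Null s D p (fun m => C A₁ m ⊔ C A₂ m) (C A₁) := by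
  have hc : Commute t s := hts.trans hst.symm
  have htp : ∀ l, t ^ l * s ^ l = 1 := fun l => by rw [← hc.mul_pow, hts, one_pow]
  have htl : ∀ l, l < D → ∀ x, (s ^ D) x = x → (t ^ (l + 1)) x = (s ^ (D - 1 - l)) x := by
    intro l hl x hx
    have : s ^ D = s ^ (l + 1) * s ^ (D - 1 - l) := by rw [← pow_add]; congr 1; omega
    conv_lhs => rw [← hx, this, ← Module.End.mul_apply, ← mul_assoc, htp, one_mul]
  have htm : ∀ (A : Set X), Good s D (C A) → ∀ m, ∀ x ∈ C A m, t x ∈ C A m := by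
    intro A g m x hx
    have := htl 0 hD x (g.ord m x hx)
    rw [zero_add, pow_one] at this
    rw [this]
    exact pow_mem (g.act m) _ hx
  have ht : Commute bd t := by
    have h1 : bd * t = t * (s * bd) * t := by rw [← mul_assoc, hts, one_mul]
    rw [← hs.eq, mul_assoc, mul_assoc, hst, mul_one] at h1
    exact h1
  have g₀ : Good s D (C (A₁ ∩ A₂)) :=
    ⟨fun x hx => bd_eq_zero hx, fun m x hx => bd_mem hx,
      fun m x hx => mem_C_inter (g₁.act m x (C_mono inter_subset_left m hx))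
        (g₂.act m x (C_mono inter_subset_right m hx)),
      fun m x hx => g₁.ord m x (C_mono inter_subset_left m hx)⟩
  let η : ℕ → Module.End ℤ (Ch X) := fun j => if Even j then π else hP s t π D
  have hηm : ∀ (A : Set X), Good s D (C A) → ∀ j m, ∀ x ∈ C A m, η j x ∈ C A m := by
    intro A g j m x hx
    simp only [η]
    split_ifs
    · exact hπ A m x hx
    · exact hP_mem (g.act m) (htm A g m) (hπ A m) D hx
  have hηb : ∀ j m, ∀ x ∈ C A₂ (m + 2), bd (η j x) = η j (bd x) := by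
    intro j m x hx
    simp only [η]
    split_ifs
    · exact hπb m x hx
    · simp only [hP, LinearMap.neg_apply, LinearMap.sum_apply, Module.End.mul_apply, map_neg,
        map_sum]
      congr 1
      refine Finset.sum_congr rfl fun j _ => Finset.sum_congr rfl fun l _ => ?_
      have e1 : ∀ y, bd ((s ^ j) y) = (s ^ j) (bd y) :=
        fun y => LinearMap.congr_fun (hs.pow_right j).eq y
      have e2 : ∀ y, bd ((t ^ (l + 1)) y) = (t ^ (l + 1)) (bd y) :=
        fun y => LinearMap.congr_fun (ht.pow_right (l + 1)).eq y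
      rw [e1, hπb m _ (pow_mem (htm A₂ g₂ _) _ hx), e2]
  have hid : ∀ j m, ∀ x ∈ C A₂ (m + 1),
      tau s D (j + 1) (η j x) + η (j + 1) (tau s D j x) = r • x := by
    intro j m x hx
    by_cases hj : Even j
    · have := LinearMap.congr_fun (hP_mul π hts D) x
      simp only [tau, η, hj, Nat.even_add_one, not_true, if_true, if_false]
      rw [Module.End.mul_apply] at this
      rw [this, ← hsum m x hx]
      simp [LinearMap.sum_apply]
    · have := LinearMap.congr_fun (mul_hP (s := s) (t := t) π D) x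
      simp only [tau, η, hj, Nat.even_add_one, not_false_eq_true, if_true, if_false]
      rw [Module.End.mul_apply] at this
      have hx0 := g₂.ord _ x hx
      have h1 : (∑ l ∈ Finset.range D, t ^ (l + 1)) x = (∑ l ∈ Finset.range D, s ^ l) x := by
        rw [LinearMap.sum_apply, LinearMap.sum_apply,
          ← Finset.sum_range_reflect (fun l => (s ^ l) x)]
        exact Finset.sum_congr rfl fun l hl => htl l (Finset.mem_range.1 hl) x hx0
      have h2 : (t ^ D) x = x := by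
        conv_lhs => rw [← hx0, ← Module.End.mul_apply, htp]
        rfl
      have h3 := Finset.sum_range_succ (fun j => (s ^ j) (π ((t ^ j) x))) D
      rw [Finset.sum_range_succ', hsum m x hx, h2, g₂.ord _ _ (hπ _ _ x hx)] at h3
      simp only [pow_zero, Module.End.one_apply, add_left_inj] at h3
      have h4 : (∑ l ∈ Finset.range D, s ^ l) x ∈ C A₂ (m + 1) := by
        rw [LinearMap.sum_apply]
        exact Submodule.sum_mem _ fun l _ => pow_mem (g₂.act _) l hx
      rw [this, LinearMap.sub_apply, Module.End.mul_apply, Module.End.mul_apply, h1,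
        g₂.ord _ _ (hπ _ _ _ h4), sub_add_cancel, ← h3, LinearMap.sum_apply]
      rfl
  intro e x hx hd
  choose x₁ hx₁ x₂ hx₂ hx12 using fun m => Submodule.mem_sup.1 (mem_TK.1 hx m)
  have hxe : x = x₁ + x₂ := funext fun m => (hx12 m).symm
  have h1 : x₁ ∈ TK (C A₁) := mem_TK.2 hx₁
  have h2 : x₂ ∈ TK (C A₂) := mem_TK.2 hx₂
  have hd2 : ∀ m, Dt s D e x₂ m ∈ C (A₁ ∩ A₂) m := by
    intro m
    refine mem_C_inter ?_ (mem_TK.1 (Dt_mem g₂ e h2) m)
    have := (TK (C A₁)).sub_mem hd (Dt_mem g₁ e h1)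
    rw [hxe, map_add, add_sub_cancel_left] at this
    exact mem_TK.1 this m
  let y : ℕ → Ch X := fun m => (-1 : ℤ) ^ m • η (e + m) (x₂ m)
  have hy : y ∈ TK (C A₂) :=
    mem_TK.2 fun m => Submodule.smul_mem _ _ (hηm A₂ g₂ _ m _ (hx₂ m))
  refine ⟨r, hr, y, TK_mono (fun m => le_sup_right) hy, ?_⟩
  rw [hxe, smul_add, add_sub_assoc]
  refine Submodule.add_mem _ (Submodule.smul_of_tower_mem _ _ h1) (mem_TK.2 fun m => ?_)
  cases m with
  | zero =>
    rw [C_zero A₁ A₂]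
    exact mem_TK.1 (Submodule.sub_mem _ (Submodule.smul_of_tower_mem _ _ h2) (Dt_mem g₂ _ hy)) 0
  | succ m =>
    have h3 := C_mono inter_subset_left _ (Submodule.smul_mem _ ((-1 : ℤ) ^ (m + 1))
      (hηm _ g₀ (e + (m + 1) + 1) _ _ (hd2 (m + 1))))
    have h4 : (r • x₂ - Dt s D (e + 1) y) (m + 1) =
        (-1 : ℤ) ^ (m + 1) • η (e + (m + 1) + 1) (Dt s D e x₂ (m + 1)) := by
      have e1 : e + 1 + (m + 1) = e + (m + 1) + 1 := by ring
      have e2 : e + (m + 1 + 1) = e + (m + 1) + 1 := by ring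
      simp only [Pi.sub_apply, Pi.smul_apply, Dt_apply, y, map_smul, map_add, smul_add, smul_smul,
        neg_one_sq, one_smul, e1, e2]
      rw [hηb _ m _ (hx₂ _), ← hid (e + (m + 1)) m _ (hx₂ _), pow_succ _ (m + 1)]
      module
    rw [h4]
    exact h3

open Classical in
/-- projection on the simplices satisfying `Q` -/
def proj (Q : Sx X → Prop) : Module.End ℤ (Ch X) := Finsupp.linearCombination ℤ
  fun σ => if Q σ then Finsupp.single σ 1 else 0

open Classical in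
theorem proj_single (Q : Sx X → Prop) (σ : Sx X) :
    proj Q (Finsupp.single σ 1) = if Q σ then Finsupp.single σ 1 else 0 := by
  simp [proj]

theorem proj_mem (Q : Sx X → Prop) (O : Set X) (m : ℕ) (x : Ch X) (hx : x ∈ C O m) :
    proj Q x ∈ C O m := by
  refine map_C _ _ (fun σ hσ => ?_) hx
  rw [proj_single]
  split_ifs
  · exact single_mem_C hσ _
  · exact Submodule.zero_mem _

theorem push_pow (g : C(X, X)) (l m : ℕ) (σ : C(Dl m, X)) : ∃ σ' : C(Dl m, X),
    (∀ u, σ' u = g^[l] (σ u)) ∧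
      ((push g : Module.End ℤ (Ch X)) ^ l) (Finsupp.single ⟨m, σ⟩ 1) = Finsupp.single ⟨m, σ'⟩ 1 := by
  induction l with
  | zero => exact ⟨σ, fun _ => rfl, rfl⟩
  | succ l ih =>
    obtain ⟨σ', h1, h2⟩ := ih
    refine ⟨g.comp σ', fun u => by rw [Function.iterate_succ_apply', ← h1]; rfl, ?_⟩
    rw [pow_succ', Module.End.mul_apply, h2, push_single]

theorem commute_push (g : C(X, X)) : Commute (bd : Module.End ℤ (Ch X)) (push g) :=
  LinearMap.ext fun x => bd_push g x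

theorem card_pow_eq {ω ζ : ℂ} {u D : ℕ} (hω : IsPrimitiveRoot ω u) (hu : 0 < u) (hD : u ∣ D)
    (hζ : ζ ^ u = 1) : ((Finset.range D).filter fun j => ω ^ j = ζ).card = D / u := by
  have : NeZero u := ⟨hu.ne'⟩
  obtain ⟨i, hi, rfl⟩ := hω.eq_pow_of_pow_eq_one hζ
  have h1 : ∀ j, ω ^ j = ω ^ i ↔ j ≡ i [MOD u] := by
    intro j
    rw [hω.eq_orderOf]
    exact (isOfFinOrder_iff_pow_eq_one.2 ⟨u, hu, hω.pow_eq_one⟩).pow_eq_pow_iff_modEq
  simp only [h1]
  rw [← Nat.count_eq_card_filter_range, Nat.count_modEq_card _ hu,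
    Nat.mod_eq_zero_of_dvd hD]
  simp

theorem null_of_induced {g g' : C(X, X)} (hgg : ∀ z, g' (g z) = z) (hgg' : ∀ z, g (g' z) = z)
    {A A₁ A₂ : Set X} (hD : 0 < D) (g₀ : Good (push g) D (C A)) (g₁ : Good (push g) D (C A₁))
    (g₂ : Good (push g) D (C A₂)) (hE : Exc A A₁ A₂ (A₁ ∩ A₂)) (c : X → ℂ) {ω : ℂ} {u : ℕ}
    (hω : IsPrimitiveRoot ω u) (hu : 0 < u) (huD : u ∣ D) (hr : (D / u).Coprime p)
    (hc : ContinuousOn c A₂) (hcu : ∀ z ∈ A₂, c z ^ u = 1) (hcg : ∀ z, c (g z) = ω * c z) :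
    Null (push g) D p (C A) (C A₁) := by
  classical
  have hs := commute_push g
  have hconst : ∀ m (σ : C(Dl (m + 1), X)), (∀ v, σ v ∈ A₂) → ∀ v v', c (σ v) = c (σ v') := by
    intro m σ hσ v v'
    have hfin : {ζ : ℂ | ζ ^ u = 1}.Finite := by
      refine (Polynomial.nthRootsFinset u (1 : ℂ)).finite_toSet.subset fun ζ hζ => ?_
      simpa [Polynomial.mem_nthRootsFinset hu] using hζ
    exact isPreconnected_univ.constant_of_mapsTo hfin.isDiscrete
      (hc.comp_continuous σ.continuous hσ).continuousOn (fun v _ => hcu _ (hσ v))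
      (mem_univ v) (mem_univ v')
  have hω0 : ω ≠ 0 := hω.ne_zero hu.ne'
  have hcl : ∀ l z, ω ^ l * c (g'^[l] z) = c z := by
    intro l
    induction l with
    | zero => simp
    | succ l ih =>
      intro z
      rw [Function.iterate_succ_apply', pow_succ, mul_assoc, ← hcg, hgg', ih]
  have hts : (push g' : Module.End ℤ (Ch X)) * push g = 1 := LinearMap.ext fun x => by
    rw [Module.End.mul_apply, push_push, Module.End.one_apply]
    conv_rhs => rw [← push_id x]
    congr 2; ext z; exact hgg z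
  have hst : (push g : Module.End ℤ (Ch X)) * push g' = 1 := LinearMap.ext fun x => by
    rw [Module.End.mul_apply, push_push, Module.End.one_apply]
    conv_rhs => rw [← push_id x]
    congr 2; ext z; exact hgg' z
  refine (null_of_acK hs g₀ (good_sup g₁ g₂) hE.small).trans hs g₀
    (null_of_transfer hs (π := proj fun σ => ∀ v, c (σ.2 v) = 1) hts hst hD g₁ g₂
      (proj_mem _) (fun m x hx => ?_) hr fun m x hx => ?_)
    (fun m => sup_le (C_mono hE.sub₁ m) (C_mono hE.sub₂ m)) fun m => le_sup_left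
  · refine eq_on_C (bd ∘ₗ proj _) (proj _ ∘ₗ bd) (fun σ hσ => ?_) hx
    have hf : ∀ i, (∀ v, c (σ.comp (face (m + 1) i) v) = 1) ↔ ∀ v, c (σ v) = 1 := fun i =>
      ⟨fun h v => (hconst _ σ hσ v _).trans (h (Classical.arbitrary _)), fun h v => h _⟩
    simp only [LinearMap.comp_apply, proj_single, bd_succ, map_sum, map_smul, hf]
    split_ifs
    · exact bd_succ _ _
    · simp
  · have := eq_on_C (∑ j ∈ Finset.range D, (push g : Module.End ℤ (Ch X)) ^ j *
      proj (fun σ => ∀ v, c (σ.2 v) = 1) * (push g' : Module.End ℤ (Ch X)) ^ j)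
      ((D / u : ℕ) • LinearMap.id) (fun σ hσ => ?_) hx
    · simpa [LinearMap.sum_apply] using this
    let v0 : Dl (m + 1) := Classical.arbitrary _
    rw [← card_pow_eq hω hu huD (hcu _ (hσ v0)), Finset.card_filter, LinearMap.sum_apply,
      Finset.sum_smul, LinearMap.sum_apply]
    refine Finset.sum_congr rfl fun j _ => ?_
    have h0 : (push g : Module.End ℤ (Ch X)) ^ j * (push g' : Module.End ℤ (Ch X)) ^ j = 1 := by
      rw [← (Commute.mul_pow (hst.trans hts.symm)), hst, one_pow]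
    have h3 := LinearMap.congr_fun h0 (Finsupp.single ⟨m + 1, σ⟩ 1)
    obtain ⟨σ', h1, h2⟩ := push_pow g' j _ σ
    rw [Module.End.mul_apply, h2] at h3
    have h4 : (∀ v, c (σ' v) = 1) ↔ ω ^ j = c (σ v0) := by
      constructor
      · intro h
        rw [← hcl j, ← h1, h, mul_one]
      · intro h v
        apply mul_left_cancel₀ (pow_ne_zero j hω0)
        rw [h1, hcl, mul_one, h, hconst _ σ hσ v v0]
    rw [Module.End.mul_apply, Module.End.mul_apply, h2, proj_single]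
    simp only [h4]
    split_ifs
    · simpa using h3
    · simp

/-! ### Geometry -/

theorem good_of_mapsTo {g : C(X, X)} {A : Set X} (h : MapsTo g A A)
    (hD : ∀ z ∈ A, g^[D] z = z) : Good (push g) D (C A) := by
  refine ⟨fun x hx => bd_eq_zero hx, fun m x hx => bd_mem hx, fun m x hx => push_mem g h hx,
    fun m x hx => eq_on_C _ LinearMap.id (fun σ hσ => ?_) hx⟩
  obtain ⟨σ', h1, h2⟩ := push_pow g D m σ
  rw [h2, LinearMap.id_apply]
  congr 2
  ext u : 1
  rw [h1, hD _ (hσ u)]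

/-- open invariant sets on which the action is induced from a subgroup of index prime to `p` -/
def Ind (g : C(X, X)) (D p : ℕ) (O : Set X) : Prop :=
  IsOpen O ∧ MapsTo g O O ∧ ∃ (c : X → ℂ) (ω : ℂ) (u : ℕ), IsPrimitiveRoot ω u ∧ 0 < u ∧ u ∣ D ∧
    (D / u).Coprime p ∧ ContinuousOn c O ∧ (∀ z ∈ O, c z ^ u = 1) ∧ ∀ z, c (g z) = ω * c z

theorem null_of_cover {κ : Type*} {g g' : C(X, X)} (hgg : ∀ z, g' (g z) = z)
    (hgg' : ∀ z, g (g' z) = z) (hD : 0 < D) {A U : Set X} (hA : MapsTo g A A)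
    (hAD : ∀ z ∈ A, g^[D] z = z) (hU : IsOpen U) (hgU : MapsTo g U U) (O : κ → Set X)
    (F : Finset κ) (hO : ∀ j ∈ F, Ind g D p (O j)) :
    Null (push g) D p (C (A ∩ (U ∪ ⋃ j ∈ F, O j))) (C (A ∩ U)) := by
  classical
  have good : ∀ V : Set X, MapsTo g V V → Good (push g) D (C (A ∩ V)) := fun V hV =>
    good_of_mapsTo (hA.inter_inter hV) fun z hz => hAD z hz.1
  induction F using Finset.induction_on with
  | empty => simpa using Null.refl
  | insert j F _ ih =>
    have hF : ∀ j ∈ F, Ind g D p (O j) := fun j hj => hO j (Finset.mem_insert_of_mem hj)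
    obtain ⟨h1, h2, c, ω, u, h3, h4, h5, h6, h7, h8, h9⟩ := hO j (Finset.mem_insert_self _ _)
    set V := U ∪ ⋃ j ∈ F, O j
    have hV : IsOpen V := hU.union (isOpen_biUnion fun j hj => (hF j hj).1)
    have hgV : MapsTo g V V := by
      refine hgU.union_union fun z hz => ?_
      simp only [mem_iUnion] at hz ⊢
      obtain ⟨j, hj, hz⟩ := hz
      exact ⟨j, hj, (hF j hj).2.1 hz⟩
    have he : U ∪ ⋃ x ∈ insert j F, O x = V ∪ O j := by
      rw [Finset.set_biUnion_insert, union_assoc, union_comm (O j)]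
    rw [he]
    have hE : Exc (A ∩ (V ∪ O j)) (A ∩ V) (A ∩ O j) (A ∩ V ∩ (A ∩ O j)) :=
      exc_of_open hV h1 inter_subset_right
        (by rw [inter_assoc, inter_eq_right.2 subset_union_left])
        (by rw [inter_assoc, inter_eq_right.2 subset_union_right]) rfl
    have g0 := good _ (hgV.union_union h2)
    exact (null_of_induced hgg hgg' hD g0 (good _ hgV) (good _ h2) hE c h3 h4 h5 h6
      (h7.mono inter_subset_right) (fun z hz => h8 z hz.2) h9).trans (commute_push g) g0 (ih hF)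
      (fun m => C_mono hE.sub₁ m)
      fun m => C_mono (inter_subset_inter_right _ subset_union_left) m

theorem ind_coord {ι : Type} {g : C(ι → ℂ, ι → ℂ)} (i : ι) {ω : ℂ} (hg : ∀ z, g z i = ω * z i)
    (hp : p.Prime) (hD : 0 < D) (h1 : ω ^ D = 1) (h2 : ω ^ (D / p) ≠ 1) (κ : ℂ) :
    Ind g D p {z | (κ * z i) ^ orderOf ω ∈ Complex.slitPlane} := by
  have hfin : IsOfFinOrder ω := isOfFinOrder_iff_pow_eq_one.2 ⟨D, hD, h1⟩
  have hu : 0 < orderOf ω := hfin.orderOf_pos
  have huD : orderOf ω ∣ D := orderOf_dvd_of_pow_eq_one h1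
  have hinv : ∀ z, (κ * g z i) ^ orderOf ω = (κ * z i) ^ orderOf ω := by
    intro z
    rw [hg, mul_left_comm, mul_pow, pow_orderOf_eq_one, one_mul]
  have hcont : Continuous fun z : ι → ℂ => (κ * z i) ^ orderOf ω := by fun_prop
  refine ⟨Complex.isOpen_slitPlane.preimage hcont, fun z hz => ?_,
    fun z => κ * z i / ((κ * z i) ^ orderOf ω) ^ ((orderOf ω : ℂ)⁻¹), ω, orderOf ω,
    IsPrimitiveRoot.orderOf ω, hu, huD, ?_, ?_, fun z hz => ?_, fun z => ?_⟩
  · change _ ∈ Complex.slitPlane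
    rw [hinv]; exact hz
  · rw [Nat.coprime_comm, hp.coprime_iff_not_dvd]
    rintro ⟨m, hm⟩
    apply h2
    rw [← orderOf_dvd_iff_pow_eq_one]
    refine ⟨m, ?_⟩
    have : D = p * (orderOf ω * m) := by
      rw [← Nat.mul_div_cancel' huD, hm]; ring
    rw [Nat.div_eq_of_eq_mul_right hp.pos this]
  · refine ContinuousOn.div (by fun_prop)
      (hcont.continuousOn.cpow continuousOn_const fun z hz => hz) fun z hz => ?_
    rw [Ne, Complex.cpow_eq_zero_iff]
    exact fun h => Complex.slitPlane_ne_zero hz h.1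
  · rw [div_pow, Complex.cpow_nat_inv_pow _ hu.ne']
    exact div_self (Complex.slitPlane_ne_zero hz)
  · simp only [hinv]
    rw [hg]; ring

variable {ι : Type} [Fintype ι] [DecidableEq ι]

omit [Fintype ι] [DecidableEq ι] in
theorem rot_iter (w : ι → ℕ) (θ : ℝ) (l : ℕ) (z : ι → ℂ) :
    (rot w θ)^[l] z = rot w (l * θ) z := by
  induction l with
  | zero => simp [rot_zero]
  | succ l ih => rw [Function.iterate_succ_apply', ih, rot_rot]; congr 2; push_cast; ring

theorem exp_pow_eq_one {d : ℕ} (hd : 0 < d) (b n : ℕ) :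
    Complex.exp (((b * (2 * Real.pi / d) : ℝ) : ℂ) * n * Complex.I) = 1 ↔ d ∣ b * n := by
  have : ((b * (2 * Real.pi / d) : ℝ) : ℂ) * n * Complex.I =
      2 * Real.pi * Complex.I * (b * n : ℕ) / d := by
    push_cast
    ring
  rw [this, Complex.exp_two_pi_mul_I_mul_div_eq_one_iff hd.ne']

omit [Fintype ι] [DecidableEq ι] in
theorem rot_eq_self {w : ι → ℕ} {d : ℕ} (hd : 0 < d) {S : Finset ι} {b : ℕ}
    (hb : ∀ i ∈ S, d ∣ b * w i) {z : ι → ℂ} (hz : ∀ i, i ∉ S → z i = 0) :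
    rot w (b * (2 * Real.pi / d)) z = z := by
  funext i
  by_cases hi : i ∈ S
  · simp only [rot, ContinuousMap.coe_mk]
    rw [(exp_pow_eq_one hd b (w i)).2 (hb i hi), one_mul]
  · simp [rot, hz i hi]

omit [DecidableEq ι] in
theorem eval_rot_mul {w : ι → ℕ} {d : ℕ} {f : MvPolynomial ι ℂ} (hd : 0 < d)
    (hf : IsWeightedHomogeneous w f d) (b : ℕ) (z : ι → ℂ) :
    eval (rot w (b * (2 * Real.pi / d)) z) f = eval z f := by
  rw [eval_rot hf, (exp_pow_eq_one hd b d).2 (dvd_mul_left _ _), one_mul]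

omit [DecidableEq ι] in
theorem rot_mapsTo {w : ι → ℕ} {d : ℕ} {f : MvPolynomial ι ℂ} (hd : 0 < d)
    (hf : IsWeightedHomogeneous w f d) (b : ℕ) (S : Finset ι) :
    MapsTo (rot w (b * (2 * Real.pi / d))) (W f S) (W f S) := by
  intro z hz
  refine ⟨fun i hi => ?_, by rw [eval_rot_mul hd hf]; exact hz.2⟩
  simp [rot, hz.1 i hi]

omit [DecidableEq ι] in
theorem tM_pow_cls {w : ι → ℕ} {d : ℕ} {f : MvPolynomial ι ℂ} (hd : 0 < d)
    (hf : IsWeightedHomogeneous w f d) (S : Finset ι) (b : ℕ) (z : Ch (ι → ℂ)) (hz hz') :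
    (tM hf hd S ^ b) (cls z hz) = cls (push (rot w (b * (2 * Real.pi / d))) z) hz' := by
  induction b with
  | zero =>
    rw [pow_zero, Module.End.one_apply]
    congr 1
    exact (push_eq_self (A := W f S) (fun z _ => by simp [rot_zero]) hz.1).symm
  | succ b ih =>
    rw [pow_succ', Module.End.mul_apply, ih (push_mem_Z _ (rot_mapsTo hd hf b S) hz), tM, Hmap_cls]
    congr 1
    rw [push_push]
    congr 2
    ext z : 1
    rw [ContinuousMap.comp_apply, mono, rot_rot]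
    congr 2
    push_cast
    ring

/-- shrinking the coordinates outside `S'` -/
def shr (S' : Finset ι) (t : ℝ) (z : ι → ℂ) : ι → ℂ := fun i => if i ∈ S' then z i else t * z i

omit [Fintype ι] in
theorem continuous_shr (S' : Finset ι) : Continuous fun q : ℝ × (ι → ℂ) => shr S' q.1 q.2 := by
  refine continuous_pi fun i => ?_
  simp only [shr]
  split_ifs <;> fun_prop

omit [Fintype ι] in
theorem shr_shr (S' : Finset ι) (t t' : ℝ) (z : ι → ℂ) :
    shr S' t (shr S' t' z) = shr S' (t * t') z := by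
  funext i
  simp only [shr]
  split_ifs
  · rfl
  · push_cast; ring

omit [Fintype ι] in
theorem shr_eq_self {S' : Finset ι} (t : ℝ) {z : ι → ℂ} (hz : ∀ i, i ∉ S' → z i = 0) :
    shr S' t z = z := by
  funext i
  by_cases hi : i ∈ S' <;> simp [shr, hi, hz]

/-- the tube around the fixed subspace -/
def tube (f : MvPolynomial ι ℂ) (S' : Finset ι) : Set (ι → ℂ) :=
  {z | ∀ t ∈ Icc (0 : ℝ) 1, 0 < (eval (shr S' t z) f).re}

omit [Fintype ι] in
theorem isOpen_tube (f : MvPolynomial ι ℂ) (S' : Finset ι) : IsOpen (tube f S') := by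
  rw [← isClosed_compl_iff]
  have : (tube f S')ᶜ = Prod.snd '' {q : Icc (0 : ℝ) 1 × (ι → ℂ) |
      (eval (shr S' q.1 q.2) f).re ≤ 0} := by
    ext z
    simp [tube, and_assoc]
  rw [this]
  refine isClosedMap_snd_of_compactSpace _ (isClosed_le ?_ continuous_const)
  exact Complex.continuous_re.comp ((continuous_eval f).comp ((continuous_shr S').comp
    ((continuous_subtype_val.comp continuous_fst).prodMk continuous_snd)))

omit [Fintype ι] in
theorem ac_tube (f : MvPolynomial ι ℂ) {S S' : Finset ι} (hS : S' ⊆ S) :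
    W f S' ⊆ W f S ∩ tube f S' ∧ Ac (W f S ∩ tube f S') (W f S') := by
  have h1 : W f S' ⊆ W f S ∩ tube f S' := fun z hz =>
    ⟨⟨fun i hi => hz.1 i fun h => hi (hS h), hz.2⟩, fun t _ => by
      rw [shr_eq_self t hz.1]; exact hz.2⟩
  refine ⟨h1, ac_of_deform h1 fun K _ hK => ⟨fun q => shr S' (1 - q.1) q.2, ?_, ?_, ?_, ?_, ?_⟩⟩
  · exact ((continuous_shr S').comp
      ((continuous_const.sub continuous_fst).prodMk continuous_snd)).continuousOn
  · intro z _
    funext i; simp [shr]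
  · intro t ht z hz
    have ht' : 1 - t ∈ Icc (0 : ℝ) 1 := ⟨by linarith [ht.2], by linarith [ht.1]⟩
    refine ⟨⟨fun i hi => ?_, (hK hz).2 _ ht'⟩, fun t' ht'' => ?_⟩
    · simp [shr, (hK hz).1.1 i hi]
    · rw [shr_shr]
      exact (hK hz).2 _ ⟨mul_nonneg ht''.1 ht'.1, mul_le_one₀ ht''.2 ht'.1 ht'.2⟩
  · intro t _ z _ hz
    change shr S' _ z ∈ _
    rw [shr_eq_self _ hz.1]; exact hz
  · intro z hz
    refine ⟨fun i hi => by simp [shr, hi], (hK hz).2 _ (by simp)⟩

end Tate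

variable {ι : Type} [Fintype ι] [DecidableEq ι]

open Tate in
theorem tate_step {w : ι → ℕ} {d : ℕ} {f : MvPolynomial ι ℂ} (hd : 0 < d)
    (hf : IsWeightedHomogeneous w f d) (S S' : Finset ι) (a D p : ℕ) (hS : S' ⊆ S)
    (hp : p.Prime) (hD : 0 < D) (hpD : p ∣ D) (hord : ∀ i ∈ S, d ∣ a * D * w i)
    (hfree : ∀ i ∈ S, i ∉ S' → ¬ d ∣ a * (D / p) * w i) {μ μ' : ℕ}
    (hc : Conc (W f S) S.card μ) (hc' : Conc (W f S') S'.card μ') (ε k : ℕ) :
    ntor (Hh (tM hf hd S ^ a) D (ε + S.card)) (p ^ k) =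
      ntor (Hh (tM hf hd S' ^ a) D (ε + S'.card)) (p ^ k) := by
  have _ := hpD
  let g := rot w (a * (2 * Real.pi / d))
  have hs := commute_push g
  have hit : ∀ z ∈ W f S, g^[D] z = z := by
    intro z hz
    have := rot_eq_self hd hord hz.1
    have e : ((D : ℝ) * (a * (2 * Real.pi / d))) = (a * D : ℕ) * (2 * Real.pi / d) := by
      push_cast; ring
    rw [rot_iter, e, this]
  obtain ⟨h1, h2⟩ := ac_tube f hS
  have hgS := rot_mapsTo hd hf a S
  have hgU : MapsTo g (tube f S') (tube f S') := by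
    intro z hz t ht
    have : shr S' t (g z) = g (shr S' t z) := by
      funext i
      simp only [shr, g, rot, ContinuousMap.coe_mk]
      split_ifs <;> ring
    rw [this, eval_rot_mul hd hf]
    exact hz t ht
  have gS := good_of_mapsTo hgS hit
  have gN := good_of_mapsTo (hgS.inter_inter hgU) fun z hz => hit z hz.1
  have gS' := good_of_mapsTo (rot_mapsTo hd hf a S') fun z hz => hit z (h1 hz).1
  let ω : ι → ℂ := fun i => Complex.exp (((a * (2 * Real.pi / d) : ℝ) : ℂ) * w i * Complex.I)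
  have hω : ∀ i n, ω i ^ n = 1 ↔ d ∣ a * n * w i := by
    intro i n
    have : (n : ℂ) * (((a * (2 * Real.pi / d) : ℝ) : ℂ) * w i * Complex.I) =
        ((a * (2 * Real.pi / d) : ℝ) : ℂ) * (n * w i : ℕ) * Complex.I := by
      push_cast
      ring
    rw [mul_assoc, ← exp_pow_eq_one hd, ← Complex.exp_nat_mul, this]
  let κ : ι × Bool → ℂ := fun j => if j.2 then 1 else (-1) ^ ((orderOf (ω j.1) : ℂ)⁻¹)
  let O : ι × Bool → Set (ι → ℂ) := fun j =>
    {z | (κ j * z j.1) ^ orderOf (ω j.1) ∈ Complex.slitPlane}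
  have hN := null_of_cover (p := p) (g := g) (g' := rot w (-(a * (2 * Real.pi / d))))
    (fun z => by rw [rot_rot, neg_add_cancel, rot_zero])
    (fun z => by rw [rot_rot, add_neg_cancel, rot_zero]) hD hgS hit (isOpen_tube f S') hgU O
    ((S \ S') ×ˢ Finset.univ) (fun j hj => by
      have hj' := Finset.mem_sdiff.1 (Finset.mem_product.1 hj).1
      exact ind_coord j.1 (fun z => rfl) hp hD ((hω _ _).2 (hord _ hj'.1))
        (fun h => hfree _ hj'.1 hj'.2 ((hω _ _).1 h)) _)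
  have hcov : W f S ∩ (tube f S' ∪ ⋃ j ∈ (S \ S') ×ˢ (Finset.univ : Finset Bool), O j) =
      W f S := by
    refine inter_eq_left.2 fun z hz => ?_
    by_cases h : ∀ i, i ∉ S' → z i = 0
    · exact Or.inl (h1 ⟨h, hz.2⟩).2
    · push Not at h
      obtain ⟨i, hi, hzi⟩ := h
      have hiS : i ∈ S := by
        by_contra hn
        exact hzi (hz.1 i hn)
      have hu : orderOf (ω i) ≠ 0 :=
        (isOfFinOrder_iff_pow_eq_one.2 ⟨D, hD, (hω _ _).2 (hord i hiS)⟩).orderOf_pos.ne'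
      refine Or.inr ?_
      simp only [mem_iUnion]
      rcases Complex.mem_slitPlane_or_neg_mem_slitPlane (pow_ne_zero (orderOf (ω i)) hzi) with
        h | h
      · exact ⟨(i, true), by simp [hiS, hi], by simpa [O, κ] using h⟩
      · refine ⟨(i, false), by simp [hiS, hi], ?_⟩
        simpa [O, κ, mul_pow, Complex.cpow_nat_inv_pow _ hu] using h
  rw [hcov] at hN
  have hN' := hN.trans hs gS (null_of_acK hs gN gS' h2) (fun m => C_mono inter_subset_left m)
    fun m => C_mono h1 m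
  rw [← ntor_conc hs gS hc.1 _ (tM_pow_cls hd hf S a) ε k,
    ← ntor_conc hs gS' hc'.1 _ (tM_pow_cls hd hf S' a) ε k]
  exact (ntor_of_null hs gS hN' (fun m => C_mono (fun z hz => (h1 hz).1) m) ε k).symm

open Tate in
omit [DecidableEq ι] in
theorem tM_pow_eq_one {w : ι → ℕ} {d : ℕ} {f : MvPolynomial ι ℂ} (hd : 0 < d)
    (hf : IsWeightedHomogeneous w f d) (S : Finset ι) (b : ℕ) (hb : ∀ i ∈ S, d ∣ b * w i) :
    tM hf hd S ^ b = 1 := by
  ext c
  obtain ⟨z, hz, rfl⟩ := Hq.mk_surj c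
  rw [tM_pow_cls hd hf S b z hz (push_mem_Z _ (rot_mapsTo hd hf b S) hz), Module.End.one_apply]
  congr 1
  exact push_eq_self (fun y hy => rot_eq_self hd hb hy.1) hz.1

end Pool.Agent.Lib.MP_1ba768_gt
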