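import Pool.Agent.Lib.MP_1ba768_gt.MorseData
import Pool.Agent.Lib.MP_1ba768_gt.Link
import Pool.Agent.Lib.MP_1ba768_gt.Tate
import Pool.Agent.Lib.MP_1ba768_gt.Rank
import Pool.Agent.Lib.MP_1ba768_gt.Orlik
import Pool.Agent.Lib.MP_1ba768_gt.Compare

-- part Pool.Agent.Lib.MP_1ba768_gt.ConcW
section

/-! The homology of the Milnor fibres of the restrictions of `f` to fixed subspaces. -/

set_option autoImplicit false

open Set MvPolynomial Pool.Agent.Shared.SingHom

noncomputable section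

namespace Pool.Agent.Lib.MP_1ba768_gt

variable {ι : Type} [Fintype ι] [DecidableEq ι]

omit [DecidableEq ι] in
theorem ac_scale {w : ι → ℕ} {d : ℕ} {f : MvPolynomial ι ℂ} (hd : 0 < d)
    (hf : IsWeightedHomogeneous w f d) {c : ℝ} (hc : 0 < c) :
    Ac {z : ι → ℂ | 0 < (eval z f).re} {z | c < (eval z f).re} := by
  refine ac_of_deform (fun z hz => hc.trans hz) fun K hK hKW => ?_
  rcases K.eq_empty_or_nonempty with rfl | hne
  · exact ⟨Prod.snd, continuousOn_snd, by simp, by simp, by simp, by simp⟩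
  have hcont : Continuous fun z : ι → ℂ => (eval z f).re :=
    Complex.continuous_re.comp (MvPolynomial.continuous_eval f)
  obtain ⟨z₀, hz₀, hmin⟩ := hK.exists_isMinOn hne hcont.continuousOn
  have hm : 0 < (eval z₀ f).re := hKW hz₀
  set m := (eval z₀ f).re
  have key : ∀ (t : ℝ) (z : ι → ℂ), (eval (fun i => ((1 + t * (c / m) : ℝ) : ℂ) ^ w i * z i) f).re =
      (1 + t * (c / m)) ^ d * (eval z f).re := fun t z => by
    rw [eval_scale hf, ← Complex.ofReal_pow, Complex.re_ofReal_mul]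
  have h1 : ∀ t ∈ Icc (0 : ℝ) 1, 1 ≤ (1 + t * (c / m)) ^ d := fun t ht =>
    one_le_pow₀ (le_add_of_nonneg_right (mul_nonneg ht.1 (by positivity)))
  refine ⟨fun q i => ((1 + q.1 * (c / m) : ℝ) : ℂ) ^ w i * q.2 i, by fun_prop,
    fun z _ => by simp, fun t ht z hz => ?_, fun t ht z hz hz' => ?_, fun z hz => ?_⟩
  · simp only [mem_ofPred_eq, key]
    exact mul_pos (zero_lt_one.trans_le (h1 t ht)) (hKW hz)
  · simp only [mem_ofPred_eq, key]
    exact lt_of_lt_of_le hz' (le_mul_of_one_le_left (le_of_lt (hKW hz)) (h1 t ht))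
  · simp only [mem_ofPred_eq, key]
    rw [one_mul]
    have h2 : 1 + c / m ≤ (1 + c / m) ^ d :=
      le_self_pow₀ (le_add_of_nonneg_right (by positivity)) hd.ne'
    have h3 : m ≤ (eval z f).re := hmin hz
    calc c < (1 + c / m) * m := by field_simp; linarith
      _ ≤ _ := mul_le_mul h2 h3 hm.le (by positivity)

theorem conc_W_univ {w : ι → ℕ} {d : ℕ} {f : MvPolynomial ι ℂ} (hw : ∀ i, 0 < w i) (hd : 0 < d)
    (hf : IsWeightedHomogeneous w f d)
    (hiso : ∀ z : ι → ℂ, (∀ i, eval z (pderiv i f) = 0) → z = 0) :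
    ∃ μ : ℕ, Conc {z : ι → ℂ | 0 < (eval z f).re} (Fintype.card ι) μ ∧
      (μ : ℚ) = ∏ i, ((d : ℚ) / w i - 1) := by
  obtain ⟨φ, P, c, h1, h2, h3, h4, h5, h6, h7, h8⟩ := morse_data w d f hw hd hf hiso
  refine ⟨P.card, ?_, ?_⟩
  · have := conc_superlevel P P.card φ c h1 h2 h3 h4 (by rw [Finset.filter_true_of_mem h5])
    simp only [h7] at this
    exact ((ac_scale hd hf h6).conc_iff fun z hz => h6.trans hz).2 this
  · rcases h8 with ⟨rfl, i, hi⟩ | ⟨hlt, a, ha, hreg⟩
    · rw [Finset.prod_eq_zero (Finset.mem_univ i)]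
      · simp
      · rw [hi, div_self (by exact_mod_cast hd.ne'), sub_self]
    · have := weighted_bezout w (fun i => d - w i) (fun i => pderiv i f) hw
        (fun i => Nat.sub_pos_of_lt (hlt i))
        (fun i => hf.pderiv (Nat.sub_add_cancel (hlt i).le)) hiso a P ha hreg
      have h9 : (P.card : ℚ) * ∏ i, (w i : ℚ) = ∏ i, ((d : ℚ) - w i) := by
        have h := congrArg (Nat.cast : ℕ → ℚ) this
        push_cast at h
        rw [h]
        exact Finset.prod_congr rfl fun i _ => Nat.cast_sub (hlt i).le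
      have hw' : ∀ i, (w i : ℚ) ≠ 0 := fun i => by exact_mod_cast (hw i).ne'
      rw [eq_div_of_mul_eq (Finset.prod_ne_zero_iff.2 fun i _ => hw' i) h9,
        ← Finset.prod_div_distrib]
      exact Finset.prod_congr rfl fun i _ => by rw [sub_div, div_self (hw' i)]

/-- extension by zero -/
def extZ (S : Finset ι) : C(S → ℂ, ι → ℂ) :=
  ⟨fun z i => if h : i ∈ S then z ⟨i, h⟩ else 0, continuous_pi fun i => by
    by_cases h : i ∈ S
    · simpa [h] using continuous_apply _
    · simpa [h] using continuous_const⟩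

/-- restriction of a polynomial to a coordinate subspace -/
def resP (S : Finset ι) : MvPolynomial ι ℂ →ₐ[ℂ] MvPolynomial S ℂ :=
  killCompl (f := (Subtype.val : S → ι)) Subtype.val_injective

omit [Fintype ι] in
theorem resP_X (S : Finset ι) (i : ι) :
    resP S (X i) = if h : i ∈ S then X ⟨i, h⟩ else 0 := by
  split_ifs with h
  · rw [← killCompl_rename_app (f := (Subtype.val : S → ι)) Subtype.val_injective (X ⟨i, h⟩),
      rename_X]
    rfl
  · simp [resP, killCompl, h]

omit [Fintype ι] in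
theorem eval_resP (S : Finset ι) (z : S → ℂ) (p : MvPolynomial ι ℂ) :
    eval z (resP S p) = eval (extZ S z) p := by
  induction p using MvPolynomial.induction_on with
  | C a => simp [resP]
  | add p q hp hq => simp [hp, hq]
  | mul_X p i hp =>
    rw [map_mul, map_mul, map_mul, hp, resP_X, eval_X]
    by_cases h : i ∈ S <;> simp [h, extZ]

omit [Fintype ι] in
theorem pderiv_resP (S : Finset ι) (j : S) (p : MvPolynomial ι ℂ) :
    pderiv j (resP S p) = resP S (pderiv (j : ι) p) := by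
  induction p using MvPolynomial.induction_on with
  | C a => simp [resP]
  | add p q hp hq => simp [hp, hq]
  | mul_X p i hp =>
    have : pderiv j (resP S (X i)) = resP S (pderiv (j : ι) (X i)) := by
      rw [resP_X, pderiv_X]
      by_cases h : i ∈ S
      · rw [dif_pos h, pderiv_X]
        by_cases e : i = j
        · subst e
          simp
        · rw [Pi.single_eq_of_ne e, Pi.single_eq_of_ne (fun h' => e (congrArg Subtype.val h')),
            map_zero]
      · rw [dif_neg h, Pi.single_eq_of_ne (fun e => h (by rw [e]; exact j.2)), map_zero, map_zero]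
    rw [map_mul, Derivation.leibniz, Derivation.leibniz, hp, this]
    simp

omit [Fintype ι] [DecidableEq ι] in
theorem resP_hom {w : ι → ℕ} {d : ℕ} {f : MvPolynomial ι ℂ} (hf : IsWeightedHomogeneous w f d)
    (S : Finset ι) : IsWeightedHomogeneous (fun i : S => w i) (resP S f) d := by
  intro m hm
  rw [resP, coeff_killCompl] at hm
  rw [← hf hm, Finsupp.weight_apply, Finsupp.weight_apply,
    Finsupp.sum_mapDomain_index (by simp) (fun _ _ _ => add_smul _ _ _)]

theorem pderiv_vanish {w : ι → ℕ} {d : ℕ} {f : MvPolynomial ι ℂ}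
    (hf : IsWeightedHomogeneous w f d) {b : ℕ} {i : ι} (hi : i ∉ Fx w d b) {z : ι → ℂ}
    (hz : ∀ j, j ∉ Fx w d b → z j = 0) : eval z (pderiv i f) = 0 := by
  have h1 : IsWeightedHomogeneous (fun j => ((b * w j : ℕ) : ZMod d)) f 0 := by
    intro m hm
    have := hf hm
    rw [Finsupp.weight_apply, Finsupp.sum_fintype _ _ (by simp)] at this ⊢
    have h2 := congrArg (fun n : ℕ => ((b * n : ℕ) : ZMod d)) this
    simp only [Finset.mul_sum, Nat.cast_sum, Nat.cast_mul, ZMod.natCast_self, mul_zero,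
      smul_eq_mul] at h2
    rw [← h2]
    refine Finset.sum_congr rfl fun j _ => ?_
    simp only [nsmul_eq_mul, Nat.cast_mul]
    ring
  have h2 := h1.pderiv (i := i) (neg_add_cancel _)
  rw [eval_eq']
  refine Finset.sum_eq_zero fun m hm => ?_
  by_contra hne
  have h3 := h2 (mem_support_iff.1 hm)
  rw [Finsupp.weight_apply, Finsupp.sum_fintype _ _ (by simp), Finset.sum_eq_zero] at h3
  · apply hi
    simp only [Fx, Finset.mem_filter, Finset.mem_univ, true_and]
    exact (ZMod.natCast_eq_zero_iff _ _).1 (neg_eq_zero.1 h3.symm)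
  · intro j _
    by_cases hj : j ∈ Fx w d b
    · rw [(ZMod.natCast_eq_zero_iff _ _).2 (Finset.mem_filter.1 hj).2, smul_zero]
    · have h4 := Finset.prod_ne_zero_iff.1 (right_ne_zero_of_mul hne) j (Finset.mem_univ j)
      rw [hz j hj] at h4
      have : m j = 0 := by
        by_contra h
        exact h4 (zero_pow h)
      rw [this, zero_smul]

theorem conc_W {w : ι → ℕ} {d : ℕ} {f : MvPolynomial ι ℂ} (hw : ∀ i, 0 < w i) (hd : 0 < d)
    (hf : IsWeightedHomogeneous w f d)
    (hiso : ∀ z : ι → ℂ, (∀ i, eval z (pderiv i f) = 0) → z = 0) (S : Finset ι) (hS : Adm w d S) :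
    ∃ μ : ℕ, Conc (W f S) S.card μ ∧ (μ : ℚ) = ∏ i ∈ S, ((d : ℚ) / w i - 1) := by
  have hext : ∀ (z : S → ℂ) i, i ∉ S → extZ S z i = 0 := fun z i hi => by simp [extZ, hi]
  have hext' : ∀ (z : S → ℂ) (i : S), extZ S z i = z i := fun z i => by simp [extZ]
  obtain ⟨μ, h1, h2⟩ := conc_W_univ (ι := S) (f := resP S f) (fun i => hw i) hd (resP_hom hf S)
    (fun z hz => by
      have : extZ S z = 0 := hiso _ fun i => by
        by_cases h : i ∈ S
        · have := hz ⟨i, h⟩
          rwa [pderiv_resP, eval_resP] at this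
        · obtain ⟨b, rfl⟩ := hS
          exact pderiv_vanish hf h (hext z)
      ext i
      rw [← hext' z i, this]
      rfl)
  refine ⟨μ, ?_, by rw [h2, Finset.prod_coe_sort S (fun i => (d : ℚ) / w i - 1)]⟩
  have he : Topology.IsEmbedding (extZ S) :=
    Topology.IsEmbedding.of_leftInverse (f := fun (z : ι → ℂ) (i : S) => z i)
      (fun z => funext (hext' z)) (by fun_prop) (extZ S).continuous
  have e : W f S = extZ S '' {z | 0 < (eval z (resP S f)).re} := by
    ext z
    constructor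
    · rintro ⟨h3, h4⟩
      have e : extZ S (fun i => z i) = z := by
        ext i
        by_cases h : i ∈ S
        · simp [extZ, h]
        · rw [hext _ _ h, h3 i h]
      exact ⟨fun i => z i, by rwa [mem_ofPred_eq, eval_resP, e], e⟩
    · rintro ⟨y, hy, rfl⟩
      exact ⟨hext y, by rwa [mem_ofPred_eq, eval_resP] at hy⟩
  rw [e, conc_image_iff _ he]
  rwa [Fintype.card_coe] at h1

theorem torsion_congr {G G' : Type*} [AddCommGroup G] [AddCommGroup G'] (e : G ≃+ G') :
    Nonempty (AddCommGroup.torsion G ≃+ AddCommGroup.torsion G') := by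
  refine ⟨(e.addSubgroupMap _).trans (AddEquiv.addSubgroupCongr ?_)⟩
  ext y
  constructor
  · rintro ⟨x, hx, rfl⟩
    exact (e.toAddMonoidHom.isOfFinAddOrder hx)
  · intro hy
    exact ⟨e.symm y, e.symm.toAddMonoidHom.isOfFinAddOrder hy, by simp⟩

end Pool.Agent.Lib.MP_1ba768_gt
end
end

-- part Pool.Agent.Lib.MP_1ba768_gt.Main
section

/-! Assembly of the proof of Orlik's conjecture on the torsion of links. -/

set_option autoImplicit false

open MvPolynomial Pool.Agent.Shared.SingHom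

namespace Pool.Agent.Lib.MP_1ba768_gt

theorem orlik :
  ∀ (n : ℕ), 1 ≤ n →
  ∀ (w : Fin (n+1) → ℕ) (d : ℕ) (f : MvPolynomial (Fin (n+1)) ℂ),
    (∀ i, 0 < w i) → 0 < d →
    IsWeightedHomogeneous w f d →
    (∀ z : Fin (n+1) → ℂ, (∀ i, eval z (pderiv i f) = 0) → z = 0) →
    ∀ (u v : Fin (n+1) → ℕ),
    (∀ i, u i = d / Nat.gcd d (w i)) →
    (∀ i, v i = w i / Nat.gcd d (w i)) →
    ∀ c : Finset (Fin (n+1)) → ℕ,
    (∀ I : Finset (Fin (n+1)),
      ∏ J ∈ I.powerset, c J = (Finset.univ \ I).gcd u) →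
    ∀ k : Finset (Fin (n+1)) → ℚ,
    (∀ I : Finset (Fin (n+1)),
      k I = (if (n + 1 - I.card) % 2 = 1 then (1 : ℚ) else 0) *
        ∑ J ∈ I.powerset, (-1 : ℚ) ^ (I.card - J.card) *
          ((∏ j ∈ J, (u j : ℚ)) /
            ((∏ j ∈ J, (v j : ℚ)) * ((J.lcm u : ℕ) : ℚ)))) →
    Nonempty
      (↥(AddCommGroup.torsion
        (((AlgebraicTopology.singularHomologyFunctor (ModuleCat.{0} ℤ) (n - 1)).obj
            (ModuleCat.of ℤ ℤ)).obj
          (TopCat.of {z : Fin (n+1) → ℂ // eval z f = 0 ∧ ∑ i, Complex.normSq (z i) = 1})))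
      ≃+ ((j : Fin ⌊Finset.univ.sup' Finset.univ_nonempty k⌋₊) →
            ZMod (∏ I ∈ Finset.univ.filter (fun I => (((j : ℕ) + 1 : ℕ) : ℚ) ≤ k I), c I))) := by
  intro n hn w d f hw hd hf hiso u v hu hv c hc k hk
  have hdata : LatticeData w d (fun S => H (W f S) S.card) (fun S => tM hf hd S) :=
    { free := fun S hS => by
        obtain ⟨μ, h1, h2⟩ := conc_W hw hd hf hiso S hS
        exact ⟨μ, h1.2, h2⟩
      ord := fun S b hb => tM_pow_eq_one hd hf S b hb
      step := fun S S' a D p hS hS' hsub hp hD hpD h1 h2 ε k => by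
        obtain ⟨μ, c1, -⟩ := conc_W hw hd hf hiso S hS
        obtain ⟨μ', c2, -⟩ := conc_W hw hd hf hiso S' hS'
        exact tate_step hd hf S S' a D p hsub hp hD hpD h1 h2 c1 c2 ε k }
  obtain ⟨e4⟩ := alg_main hw hd hdata u v hu c hc k (by simpa only [Fintype.card_fin] using hk)
    (rank_formula hw hd hdata u v hu hv)
  obtain ⟨μ, c1, -⟩ := conc_W hw hd hf hiso Finset.univ ⟨0, by ext i; simp [Fx]⟩
  have hcard : (Finset.univ : Finset (Fin (n + 1))).card = n + 1 := by simp
  obtain ⟨e3⟩ := link_iso hw hd hf hiso n hn (by simp) (hcard ▸ c1)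
  obtain ⟨e1⟩ := compare_torsion
    {z : Fin (n+1) → ℂ // eval z f = 0 ∧ ∑ i, Complex.normSq (z i) = 1} (n - 1)
  rw [Nat.sub_add_cancel hn] at e1
  let g : C({z : Fin (n+1) → ℂ // eval z f = 0 ∧ ∑ i, Complex.normSq (z i) = 1},
    Fin (n+1) → ℂ) := ⟨Subtype.val, continuous_subtype_val⟩
  have hg : Set.MapsTo g Set.univ (L f) := fun z _ => z.2
  have e2 := LinearEquiv.ofBijective _ (Hmap_bijective_of_embedding g
    Topology.IsEmbedding.subtypeVal hg (fun z hz => ⟨⟨z, hz⟩, trivial, rfl⟩) n)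
  obtain ⟨e23⟩ := torsion_congr (e2.trans e3).toAddEquiv
  exact ⟨(e1.trans e23).trans e4⟩

end Pool.Agent.Lib.MP_1ba768_gt
end
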