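import Pool.Agent.Shared.SingHom.Main
import Pool.Agent.Lib.MP_1ba768_gt.Rank

-- part Pool.Agent.Lib.MP_1ba768_gt.Local
section

/-! The local homology at a nondegenerate critical point of the real part of a holomorphic
function. -/

set_option autoImplicit false

open Set Pool.Agent.Shared.SingHom

noncomputable section

namespace Pool.Agent.Lib.MP_1ba768_gt

namespace Loc

variable {ι : Type} [Fintype ι]

/-- shrink the imaginary parts -/
def sh (σ : ℝ) (z : ι → ℂ) : ι → ℂ := fun i => ⟨(z i).re, σ * (z i).im⟩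

/-- sum of squares of the real parts -/
def a2 (z : ι → ℂ) : ℝ := ∑ i, (z i).re ^ 2

/-- sum of squares of the imaginary parts -/
def b2 (z : ι → ℂ) : ℝ := ∑ i, (z i).im ^ 2

theorem a2_nonneg (z : ι → ℂ) : 0 ≤ a2 z := Finset.sum_nonneg fun _ _ => sq_nonneg _

theorem b2_nonneg (z : ι → ℂ) : 0 ≤ b2 z := Finset.sum_nonneg fun _ _ => sq_nonneg _

theorem Qf_eq (z : ι → ℂ) : Qf z = a2 z - b2 z := by
  simp [Qf, a2, b2, Finset.sum_sub_distrib]

theorem a2_sh (σ : ℝ) (z : ι → ℂ) : a2 (sh σ z) = a2 z := rfl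

theorem b2_sh (σ : ℝ) (z : ι → ℂ) : b2 (sh σ z) = σ ^ 2 * b2 z := by
  simp [b2, sh, Finset.mul_sum, mul_pow]

omit [Fintype ι] in
theorem sh_one (z : ι → ℂ) : sh 1 z = z := by
  ext i
  apply Complex.ext <;> simp [sh]

theorem sh_of_real {z : ι → ℂ} (h : b2 z = 0) (σ : ℝ) : sh σ z = z := by
  have := (Finset.sum_eq_zero_iff_of_nonneg fun i _ => sq_nonneg (z i).im).1 h
  ext i
  have h2 : (z i).im = 0 := pow_eq_zero_iff two_ne_zero |>.1 (this i (Finset.mem_univ i))
  apply Complex.ext <;> simp [sh, h2]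

omit [Fintype ι] in
theorem continuous_sh : Continuous fun q : ℝ × (ι → ℂ) => sh (1 - q.1) q.2 := by
  refine continuous_pi fun i => ?_
  have : (fun q : ℝ × (ι → ℂ) => sh (1 - q.1) q.2 i) =
      fun q => ((q.2 i).re : ℂ) + (((1 - q.1) * (q.2 i).im : ℝ) : ℂ) * Complex.I := by
    ext q
    apply Complex.ext <;> simp [sh]
  rw [this]
  fun_prop

theorem norm_sq_le (z : ι → ℂ) : ‖z‖ ^ 2 ≤ a2 z + b2 z := by
  have h0 := add_nonneg (a2_nonneg z) (b2_nonneg z)
  have : ‖z‖ ≤ Real.sqrt (a2 z + b2 z) := by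
    refine (pi_norm_le_iff_of_nonneg (Real.sqrt_nonneg _)).2 fun i => ?_
    refine Real.le_sqrt_of_sq_le ?_
    rw [Complex.sq_norm, Complex.normSq_apply, a2, b2, ← Finset.sum_add_distrib, ← sq, ← sq]
    exact Finset.single_le_sum (f := fun i => (z i).re ^ 2 + (z i).im ^ 2)
      (fun i _ => by positivity) (Finset.mem_univ i)
  calc _ ≤ Real.sqrt (a2 z + b2 z) ^ 2 := by gcongr
    _ = _ := Real.sq_sqrt h0

theorem norm_sh_le {σ : ℝ} (h0 : 0 ≤ σ) (h1 : σ ≤ 1) (z : ι → ℂ) : ‖sh σ z‖ ≤ ‖z‖ := by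
  refine (pi_norm_le_iff_of_nonneg (norm_nonneg _)).2 fun i => (?_ : _ ≤ ‖z i‖).trans
    (norm_le_pi_norm z i)
  rw [← sq_le_sq₀ (norm_nonneg _) (norm_nonneg _), Complex.sq_norm, Complex.sq_norm,
    Complex.normSq_apply, Complex.normSq_apply]
  simp only [sh]
  have : σ * σ ≤ 1 := mul_le_one₀ h1 h0 h1
  nlinarith [mul_self_nonneg (z i).im]

theorem norm_sh_sub {σ : ℝ} (h1 : σ ≤ 1) (z : ι → ℂ) :
    ‖sh σ z - z‖ ≤ (1 - σ) * Real.sqrt (b2 z) := by
  have h2 : 0 ≤ 1 - σ := sub_nonneg.2 h1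
  refine (pi_norm_le_iff_of_nonneg (by positivity)).2 fun i => ?_
  have e : (sh σ z - z) i = ((-((1 - σ) * (z i).im) : ℝ) : ℂ) * Complex.I := by
    apply Complex.ext <;> simp [sh]
    ring
  rw [e, norm_mul, Complex.norm_I, mul_one, Complex.norm_real, norm_neg, norm_mul,
    Real.norm_of_nonneg h2]
  refine mul_le_mul_of_nonneg_left (Real.abs_le_sqrt ?_) h2
  exact Finset.single_le_sum (f := fun i => (z i).im ^ 2) (fun i _ => sq_nonneg _)
    (Finset.mem_univ i)

/-- the estimate defining the local model, with constant one quarter -/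
def Est (ψ : (ι → ℂ) → ℝ) (r : ℝ) : Prop :=
  ψ 0 = 0 ∧ ∀ ρ : ℝ, ρ ≤ r → ∀ z z' : ι → ℂ, ‖z‖ ≤ ρ → ‖z'‖ ≤ ρ →
    |(ψ z - Qf z) - (ψ z' - Qf z')| ≤ 1 / 4 * ρ * ‖z - z'‖

variable {ψ : (ι → ℂ) → ℝ} {r : ℝ}

theorem Est.rem_le (h : Est ψ r) {ρ : ℝ} (hρ : ρ ≤ r) {z : ι → ℂ} (hz : ‖z‖ ≤ ρ) :
    |ψ z - Qf z| ≤ 1 / 4 * ρ ^ 2 := by
  have h0 : 0 ≤ ρ := (norm_nonneg _).trans hz
  have := h.2 ρ hρ z 0 hz (by simpa using h0)
  rw [h.1, show Qf (0 : ι → ℂ) = 0 by simp [Qf], sub_zero, sub_zero, sub_zero] at this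
  nlinarith [norm_nonneg z]

theorem Est.claimA (h : Est ψ r) {z : ι → ℂ} (hz : ‖z‖ ≤ r) {σ : ℝ} (h0 : 0 ≤ σ) (h1 : σ ≤ 1) :
    ψ z ≤ ψ (sh σ z) ∨ 0 < ψ (sh σ z) := by
  have hs := Real.sqrt_nonneg (b2 z)
  have hb := Real.sq_sqrt (b2_nonneg z)
  have hn := norm_nonneg z
  rcases le_or_gt (1 / 4 * ‖z‖) (Real.sqrt (b2 z)) with hc | hc
  · left
    have h2 := (abs_le.1 (h.2 ‖z‖ hz (sh σ z) z (norm_sh_le h0 h1 z) le_rfl)).1
    have h3 := norm_sh_sub h1 z
    rw [Qf_eq, Qf_eq, a2_sh, b2_sh] at h2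
    set s := Real.sqrt (b2 z)
    rw [← hb] at h2
    have h4 : 1 / 4 * ‖z‖ * ‖sh σ z - z‖ ≤ s * ((1 - σ) * s) :=
      mul_le_mul hc h3 (norm_nonneg _) hs
    have h5 : 0 ≤ σ * (1 - σ) * s ^ 2 := by
      have := sub_nonneg.2 h1
      positivity
    nlinarith
  · right
    have h2 := (abs_le.1 (h.rem_le hz (norm_sh_le h0 h1 z))).1
    rw [Qf_eq, a2_sh, b2_sh] at h2
    have h3 := norm_sq_le z
    have h4 : b2 z < 1 / 16 * ‖z‖ ^ 2 := by nlinarith
    have h5 : σ ^ 2 * b2 z ≤ b2 z := mul_le_of_le_one_left (b2_nonneg z) (pow_le_one₀ h0 h1)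
    nlinarith [b2_nonneg z]

theorem Est.claimB (h : Est ψ r) {z : ι → ℂ} (hz : ‖z‖ ≤ r) (ha : a2 z = 0) : ψ z ≤ 0 := by
  have h2 := (abs_le.1 (h.rem_le hz le_rfl)).2
  have h3 := norm_sq_le z
  rw [Qf_eq] at h2
  nlinarith [sq_nonneg ‖z‖]

theorem Est.claimC (h : Est ψ r) {z : ι → ℂ} (hz : ‖z‖ ≤ r) (hb : b2 z = 0) (h0 : z ≠ 0) :
    0 < ψ z := by
  have h2 := (abs_le.1 (h.rem_le hz le_rfl)).1
  have h3 := norm_sq_le z
  rw [Qf_eq] at h2
  have : 0 < ‖z‖ ^ 2 := pow_pos (norm_pos_iff.2 h0) 2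
  nlinarith

theorem conc_ball {E : Type*} [NormedAddCommGroup E] [NormedSpace ℝ E] [FiniteDimensional ℝ E]
    (hr : 0 < r) : Conc {x : E | ‖x‖ < r ∧ x ≠ 0} (Module.finrank ℝ E) 1 := by
  have hs : {x : E | ‖x‖ < r ∧ x ≠ 0} ⊆ {0}ᶜ := fun x hx => hx.2
  refine (Ac.conc_iff (ac_of_deform hs fun K hK hK0 => ?_) hs).1 (conc_compl_point 0)
  obtain ⟨M, hM0, hM⟩ := hK.isBounded.exists_pos_norm_le
  have hl0 : 0 < r / (M + r) := by positivity
  have hl1 : r / (M + r) < 1 := (div_lt_one (by positivity)).2 (by linarith)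
  have hpos : ∀ t ∈ Icc (0 : ℝ) 1, 0 < 1 - t * (1 - r / (M + r)) := fun t ht => by
    nlinarith [ht.1, ht.2]
  have hne : ∀ t ∈ Icc (0 : ℝ) 1, ∀ z ∈ K, (1 - t * (1 - r / (M + r))) • z ≠ 0 :=
    fun t ht z hz => smul_ne_zero (hpos t ht).ne' (hK0 hz)
  refine ⟨fun q => (1 - q.1 * (1 - r / (M + r))) • q.2, by fun_prop, fun z _ => by simp,
    hne, fun t ht z hz hz' => ⟨?_, hne t ht z hz⟩, fun z hz => ⟨?_, hne 1 ⟨zero_le_one, le_rfl⟩ z hz⟩⟩
  · rw [norm_smul, Real.norm_of_nonneg (hpos t ht).le]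
    refine lt_of_le_of_lt (mul_le_of_le_one_left (norm_nonneg _) ?_) hz'.1
    nlinarith [ht.1, ht.2]
  · rw [norm_smul, one_mul, sub_sub_cancel, Real.norm_of_nonneg hl0.le, div_mul_eq_mul_div,
      div_lt_iff₀ (by positivity)]
    nlinarith [hM z hz]

theorem Est.conc (h : Est ψ r) (hr : 0 < r) :
    Conc {z | ‖z‖ < r ∧ 0 < ψ z} (Fintype.card ι) 1 := by
  have hs : {z : ι → ℂ | ‖z‖ < r ∧ b2 z = 0 ∧ z ≠ 0} ⊆ {z | ‖z‖ < r ∧ 0 < ψ z} :=
    fun z hz => ⟨hz.1, h.claimC hz.1.le hz.2.1 hz.2.2⟩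
  refine (Ac.conc_iff (ac_of_deform hs fun K _ hK => ?_) hs).2 ?_
  · refine ⟨fun q => sh (1 - q.1) q.2, continuous_sh.continuousOn, fun z _ => by simp [sh_one],
      fun t ht z hz => ⟨(norm_sh_le (sub_nonneg.2 ht.2) (sub_le_self _ ht.1) z).trans_lt (hK hz).1,
        ?_⟩, fun t _ z _ hz => ?_, fun z hz => ⟨?_, ?_, ?_⟩⟩
    · rcases h.claimA (hK hz).1.le (sub_nonneg.2 ht.2) (sub_le_self _ ht.1) with h1 | h1
      · exact (hK hz).2.trans_le h1
      · exact h1
    · simp only [sh_of_real hz.2.1]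
      exact hz
    · exact (norm_sh_le (by simp) (by simp) z).trans_lt (hK hz).1
    · simp [b2_sh]
    · intro h0
      have : a2 z = 0 := by
        rw [← a2_sh (1 - 1) z]
        simp only at h0
        rw [h0]
        simp [a2]
      exact (h.claimB (hK hz).1.le this).not_gt (hK hz).2
  · let g : C(ι → ℝ, ι → ℂ) := ⟨fun x i => (x i : ℂ), by fun_prop⟩
    have hi : Isometry g := Isometry.of_dist_eq fun x y => by
      simp only [dist_pi_def, g, ContinuousMap.coe_mk, Complex.nndist_of_im_eq,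
        Complex.ofReal_im, Complex.ofReal_re]
    have hn : ∀ x, ‖g x‖ = ‖x‖ := hi.norm_map_of_map_zero (by ext i; simp [g])
    have e : {z : ι → ℂ | ‖z‖ < r ∧ b2 z = 0 ∧ z ≠ 0} = g '' {x | ‖x‖ < r ∧ x ≠ 0} := by
      ext z
      constructor
      · rintro ⟨h1, h2, h3⟩
        have e : g (fun i => (z i).re) = z := by
          rw [← sh_of_real h2 0]
          ext i
          apply Complex.ext <;> simp [sh, g]
        refine ⟨fun i => (z i).re, ⟨by rwa [← hn, e], ?_⟩, e⟩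
        rwa [← norm_ne_zero_iff, ← hn, e, norm_ne_zero_iff]
      · rintro ⟨x, ⟨h1, h2⟩, rfl⟩
        exact ⟨by rwa [hn], by simp [b2, g], by rwa [← norm_ne_zero_iff, hn, norm_ne_zero_iff]⟩
    rw [e, conc_image_iff g hi.isEmbedding]
    simpa using conc_ball (E := ι → ℝ) hr

theorem Est.acyc (h : Est ψ r) (hr : 0 < r) {β : ℝ → ℝ} (hβ : Antitone β) (h0 : ∀ s, 0 ≤ β s)
    (h1 : 0 < β 0) : Acyc {z | ‖z‖ < r ∧ 0 < ψ z + β (a2 z + b2 z)} := by
  have hs : {z : ι → ℂ | ‖z‖ < r ∧ b2 z = 0} ⊆ {z | ‖z‖ < r ∧ 0 < ψ z + β (a2 z + b2 z)} := by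
    intro z hz
    refine ⟨hz.1, ?_⟩
    by_cases hz0 : z = 0
    · simpa [hz0, h.1, a2, b2] using h1
    · exact add_pos_of_pos_of_nonneg (h.claimC hz.1.le hz.2 hz0) (h0 _)
  refine (Ac.acyc_iff (ac_of_deform hs fun K _ hK => ?_) hs).2 ?_
  · refine ⟨fun q => sh (1 - q.1) q.2, continuous_sh.continuousOn, fun z _ => by simp [sh_one],
      fun t ht z hz => ⟨(norm_sh_le (sub_nonneg.2 ht.2) (sub_le_self _ ht.1) z).trans_lt (hK hz).1,
        ?_⟩, fun t _ z _ hz => ?_, fun z hz => ⟨?_, ?_⟩⟩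
    · rcases h.claimA (hK hz).1.le (sub_nonneg.2 ht.2) (sub_le_self _ ht.1) with h2 | h2
      · refine (hK hz).2.trans_le (add_le_add h2 (hβ ?_))
        rw [a2_sh, b2_sh]
        have : (1 - t) ^ 2 * b2 z ≤ b2 z := mul_le_of_le_one_left (b2_nonneg z)
          (pow_le_one₀ (sub_nonneg.2 ht.2) (sub_le_self _ ht.1))
        linarith
      · exact add_pos_of_pos_of_nonneg h2 (h0 _)
    · simp only [sh_of_real hz.2]
      exact hz
    · exact (norm_sh_le (by simp) (by simp) z).trans_lt (hK hz).1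
    · simp [b2_sh]
  · refine acyc_of_starConvex (v := 0) ⟨by simpa using hr, by simp [b2]⟩ ?_
    rintro z ⟨h2, h3⟩ a b ha hb hab
    rw [smul_zero, zero_add]
    refine ⟨?_, ?_⟩
    · rw [norm_smul, Real.norm_of_nonneg hb]
      exact lt_of_le_of_lt (mul_le_of_le_one_left (norm_nonneg _) (by linarith)) h2
    · have : b2 (b • z) = b ^ 2 * b2 z := by
        simp [b2, Finset.mul_sum, mul_pow]
      rw [this, h3, mul_zero]

end Loc

end Pool.Agent.Lib.MP_1ba768_gt
end
end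

-- part Pool.Agent.Lib.MP_1ba768_gt.Morse
section

/-! Morse theory: homology of superlevel sets of tame functions whose critical points are all of
middle index. -/

set_option autoImplicit false

open Set Filter Topology Pool.Agent.Shared.SingHom

noncomputable section

namespace Pool.Agent.Lib.MP_1ba768_gt

open Loc

theorem ac_band {E : Type*} [NormedAddCommGroup E] [NormedSpace ℝ E] [FiniteDimensional ℝ E]
    (φ : E → ℝ) (hφ : ContDiff ℝ 2 φ) (ht : Tame φ) (I : Set ℝ) (hI : IsUpperSet I) (b : ℝ)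
    (hcrit : ∀ z, fderiv ℝ φ z = 0 → φ z ∈ I → b < φ z) (hsub : {z | b < φ z} ⊆ φ ⁻¹' I) :
    Ac (φ ⁻¹' I) {z | b < φ z} := by
  refine ac_of_deform hsub fun K hK hKI => ?_
  rcases K.eq_empty_or_nonempty with rfl | hne
  · exact ⟨Prod.snd, continuousOn_snd, by simp, by simp, by simp, by simp⟩
  obtain ⟨z₀, hz₀, hmin⟩ := hK.exists_isMinOn hne hφ.continuous.continuousOn
  obtain ⟨h, h0, h1, h2⟩ := lyapunov φ hφ ht (φ z₀) b
    (fun z hz hle => hcrit z hz (hI hle (hKI hz₀))) K hK (fun z hz => hmin hz)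
  exact ⟨h, h.continuous.continuousOn, fun z _ => h0 z, fun t ht z hz => hI (h1 t ht.1 z) (hKI hz),
    fun t ht z _ hz => lt_of_lt_of_le hz (h1 t ht.1 z), h2⟩

variable {ι : Type} [Fintype ι] [DecidableEq ι]

omit [DecidableEq ι] in
theorem LocalModel.congr {φ φ' : (ι → ℂ) → ℝ} {q : ι → ℂ} (h : LocalModel φ q) {κ : ℝ}
    (he : ∀ᶠ z in 𝓝 q, φ' z = φ z + κ) : LocalModel φ' q := by
  obtain ⟨T, hT⟩ := h
  refine ⟨T, fun η hη => ?_⟩
  obtain ⟨r, hr, h1⟩ := hT η hη
  have hc : Tendsto (fun z => q + T z) (𝓝 0) (𝓝 q) := by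
    have : Continuous fun z => q + T z := by fun_prop
    simpa using this.tendsto 0
  obtain ⟨r', hr', h2⟩ := Metric.nhds_basis_closedBall.eventually_iff.1 (hc.eventually he)
  refine ⟨min r r', lt_min hr hr', fun ρ hρ z z' hz hz' => ?_⟩
  have hρ' := hρ.trans (min_le_right _ _)
  rw [h2 (mem_closedBall_zero_iff.2 (hz.trans hρ')), h2 (mem_closedBall_zero_iff.2 (hz'.trans hρ'))]
  convert h1 ρ (hρ.trans (min_le_left _ _)) z z' hz hz' using 2
  ring

omit [DecidableEq ι] in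
theorem contDiff_ab : ContDiff ℝ 2 fun z : ι → ℂ => a2 z + b2 z := by
  refine ContDiff.add (ContDiff.sum fun i _ => ContDiff.pow ?_ 2)
    (ContDiff.sum fun i _ => ContDiff.pow ?_ 2)
  · exact Complex.reCLM.contDiff.comp (contDiff_apply ℝ ℂ i)
  · exact Complex.imCLM.contDiff.comp (contDiff_apply ℝ ℂ i)

/-- raising one critical point -/
theorem morse_step (φ : (ι → ℂ) → ℝ) (hφ : ContDiff ℝ 2 φ) (ht : Tame φ) (P : Finset (ι → ℂ))
    (hP : ∀ z, fderiv ℝ φ z = 0 ↔ z ∈ P) (hm : ∀ q ∈ P, LocalModel φ q) {p : ι → ℂ}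
    (hp : p ∈ P) : ∃ φ' : (ι → ℂ) → ℝ, ContDiff ℝ 2 φ' ∧ Tame φ' ∧
      (∀ z, fderiv ℝ φ' z = 0 ↔ z ∈ P) ∧ (∀ q ∈ P, LocalModel φ' q) ∧
      (∀ q ∈ P, q ≠ p → φ' q = φ q) ∧ φ p < φ' p ∧
      ∀ k, Conc {z | φ p < φ' z} (Fintype.card ι) k →
        Conc {z | φ p < φ z} (Fintype.card ι) (k + 1) := by
  obtain ⟨T, hT⟩ := hm p hp
  obtain ⟨r, hr, hr'⟩ := hT (1 / 4) (by norm_num)
  have hE : Est (fun z => φ (p + T z) - φ p) r := ⟨by simp, fun ρ hρ z z' hz hz' => by
    convert hr' ρ hρ z z' hz hz' using 2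
    ring⟩
  let ch : (ι → ℂ) → (ι → ℂ) := fun z => T.symm (z - p)
  have hch : ∀ z, p + T (ch z) = z := fun z => by simp [ch]
  have hch' : ∀ z, ch (p + T z) = z := fun z => by simp [ch]
  let N : (ι → ℂ) → ℝ := fun z => a2 (ch z) + b2 (ch z)
  have hN : ContDiff ℝ 2 N := contDiff_ab.comp
    (T.symm.contDiff.comp (contDiff_id.sub contDiff_const))
  have hNn : ∀ z, ‖ch z‖ ^ 2 ≤ N z := fun z => norm_sq_le _
  have hNp : N p = 0 := by simp [N, ch, a2, b2]
  obtain ⟨s, hs0, hs1, hs2⟩ : ∃ s : ℝ, 0 < s ∧ 2 * s < r ^ 2 ∧ ∀ q ∈ P.erase p, 2 * s < N q := by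
    have h0 : Tendsto (fun s : ℝ => 2 * s) (𝓝[>] 0) (𝓝 0) := by
      have : Continuous fun s : ℝ => 2 * s := by fun_prop
      simpa using (this.tendsto 0).mono_left nhdsWithin_le_nhds
    have h1 : ∀ᶠ s : ℝ in 𝓝[>] 0, 2 * s < r ^ 2 := h0.eventually (gt_mem_nhds (by positivity))
    have h2 : ∀ᶠ s : ℝ in 𝓝[>] 0, ∀ q ∈ P.erase p, 2 * s < N q := by
      refine (eventually_all_finset _).2 fun q hq => h0.eventually (gt_mem_nhds ?_)
      refine lt_of_lt_of_le (pow_pos (norm_pos_iff.2 fun h => ?_) 2) (hNn q)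
      have := hch q
      rw [h] at this
      exact (Finset.mem_erase.1 hq).1 (by simpa using this.symm)
    exact (eventually_mem_nhdsWithin.and (h1.and h2)).exists
  let bt : ℝ → ℝ := fun x => Real.smoothTransition (2 - x / s)
  have hbt1 : ∀ x, x ≤ s → bt x = 1 := fun x hx =>
    Real.smoothTransition.one_of_one_le (by
      have := (div_le_one hs0).2 hx
      linarith)
  have hbt0 : ∀ x, 2 * s ≤ x → bt x = 0 := fun x hx =>
    Real.smoothTransition.zero_of_nonpos (by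
      have := (le_div_iff₀ hs0).2 hx
      linarith)
  have hbta : Antitone bt := fun x y hxy => Real.smoothTransition.monotone (by
    have := div_le_div_of_nonneg_right hxy hs0.le
    linarith)
  have hβ : ContDiff ℝ 2 fun z => bt (N z) :=
    (Real.smoothTransition.contDiff (n := 2)).comp (contDiff_const.sub (hN.div_const s))
  have hKc : IsCompact {z | N z ≤ 2 * s} := by
    refine ((isCompact_closedBall (0 : ι → ℂ) r).image (f := fun z => p + T z)
      (by fun_prop)).of_isClosed_subset (isClosed_le hN.continuous continuous_const) ?_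
    intro z hz
    refine ⟨ch z, mem_closedBall_zero_iff.2 ?_, hch z⟩
    exact (pow_le_pow_iff_left₀ (norm_nonneg _) hr.le two_ne_zero).1
      ((hNn z).trans (le_trans hz hs1.le))
  have hAnn : IsCompact {z | s ≤ N z ∧ N z ≤ 2 * s} :=
    hKc.of_isClosed_subset ((isClosed_le continuous_const hN.continuous).inter
      (isClosed_le hN.continuous continuous_const)) fun z hz => hz.2
  have hAP : ∀ z, s ≤ N z → N z ≤ 2 * s → z ∉ P := fun z h1 h2 hz => by
    by_cases h : z = p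
    · rw [h, hNp] at h1
      linarith
    · linarith [hs2 z (Finset.mem_erase.2 ⟨h, hz⟩)]
  obtain ⟨η, hη0, hη⟩ : ∃ η : ℝ, 0 < η ∧ ∀ z ∈ {z | s ≤ N z ∧ N z ≤ 2 * s},
      fderiv ℝ φ z + η • fderiv ℝ (fun z => bt (N z)) z ≠ 0 := by
    have h1 : ∀ᶠ η : ℝ in 𝓝 0, ∀ z ∈ {z | s ≤ N z ∧ N z ≤ 2 * s},
        fderiv ℝ φ z + η • fderiv ℝ (fun z => bt (N z)) z ≠ 0 := by
      refine hAnn.eventually_forall_of_forall_eventually fun z hz => ?_
      have c1 := hφ.continuous_fderiv (by norm_num)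
      have c2 := hβ.continuous_fderiv (by norm_num)
      have hc : Continuous fun q : ℝ × (ι → ℂ) =>
          fderiv ℝ φ q.2 + q.1 • fderiv ℝ (fun z => bt (N z)) q.2 :=
        (c1.comp continuous_snd).add (continuous_fst.smul (c2.comp continuous_snd))
      refine hc.continuousAt.eventually_ne ?_
      simpa using fun h => hAP z hz.1 hz.2 ((hP z).1 h)
    exact ((eventually_mem_nhdsWithin (s := Ioi (0 : ℝ))).and
      (h1.filter_mono nhdsWithin_le_nhds)).exists
  let φ' : (ι → ℂ) → ℝ := fun z => φ z + η * bt (N z)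
  have hle : ∀ z, φ z ≤ φ' z := fun z =>
    le_add_of_nonneg_right (mul_nonneg hη0.le (Real.smoothTransition.nonneg _))
  have hin : ∀ z, N z < s → ∀ᶠ y in 𝓝 z, φ' y = φ y + η := fun z hz =>
    (hN.continuous.continuousAt.eventually (gt_mem_nhds hz)).mono fun y hy => by
      simp only [φ', hbt1 _ hy.le, mul_one]
  have hout : ∀ z, 2 * s < N z → ∀ᶠ y in 𝓝 z, φ' y = φ y + 0 := fun z hz =>
    (hN.continuous.continuousAt.eventually (lt_mem_nhds hz)).mono fun y hy => by
      simp only [φ', hbt0 _ hy.le, mul_zero]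
  have hfd : ∀ z κ, (∀ᶠ y in 𝓝 z, φ' y = φ y + κ) → fderiv ℝ φ' z = fderiv ℝ φ z := fun z κ h => by
    rw [EventuallyEq.fderiv_eq h, fderiv_add_const]
  have hφ' : ContDiff ℝ 2 φ' := hφ.add (contDiff_const.mul hβ)
  refine ⟨φ', hφ', ?_, fun z => ?_, fun q hq => ?_, fun q hq hqp => ?_, ?_, fun k hk => ?_⟩
  · obtain ⟨R, δ, hδ, hR⟩ := ht
    obtain ⟨M, hM⟩ := hKc.isBounded.exists_norm_le
    refine ⟨max R (M + 1), δ, hδ, fun z hz => ?_⟩
    rw [hfd z 0 (hout z ?_)]
    · exact hR z ((le_max_left _ _).trans hz)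
    · by_contra h
      linarith [hM z (not_lt.1 h), le_max_right R (M + 1)]
  · rcases lt_or_ge (N z) s with h1 | h1
    · rw [hfd z _ (hin z h1), hP]
    rcases lt_or_ge (2 * s) (N z) with h2 | h2
    · rw [hfd z _ (hout z h2), hP]
    refine iff_of_false ?_ (hAP z h1 h2)
    have : fderiv ℝ φ' z = fderiv ℝ φ z + η • fderiv ℝ (fun z => bt (N z)) z :=
      (((hφ.differentiable (by norm_num)) z).hasFDerivAt.add
        (((hβ.differentiable (by norm_num)) z).hasFDerivAt.const_mul η)).fderiv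
    rw [this]
    exact hη z ⟨h1, h2⟩
  · by_cases h : q = p
    · exact (hm q hq).congr (hin q (by rw [h, hNp]; exact hs0))
    · exact (hm q hq).congr (hout q (hs2 q (Finset.mem_erase.2 ⟨h, hq⟩)))
  · simpa using (hout q (hs2 q (Finset.mem_erase.2 ⟨hqp, hq⟩))).self_of_nhds
  · rw [(hin p (by rw [hNp]; exact hs0)).self_of_nhds]
    linarith
  · let e : (ι → ℂ) ≃ₜ (ι → ℂ) := T.toHomeomorph.trans (Homeomorph.addLeft p)
    have he : ∀ z, e z = p + T z := fun _ => rfl
    have hU : IsOpen {z | ‖ch z‖ < r} := isOpen_lt (by fun_prop) continuous_const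
    have hX := exc_of_open (A := {z | φ p < φ' z}) (A₁ := {z | φ p < φ z})
      (A₂ := {z | φ p < φ' z} ∩ {z | ‖ch z‖ < r}) (A₀ := {z | φ p < φ z} ∩ {z | ‖ch z‖ < r})
      (isOpen_lt continuous_const hφ.continuous) hU (fun z hz => by
        by_cases h : ‖ch z‖ < r
        · exact Or.inr h
        · left
          have h3 : 2 * s ≤ N z := hs1.le.trans
            ((pow_le_pow_left₀ hr.le (not_lt.1 h) 2).trans (hNn z))
          simpa [φ', hbt0 _ h3] using hz)
      (inter_eq_right.2 fun z hz => lt_of_lt_of_le hz (hle z)).symm rfl (by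
        ext z
        exact ⟨fun h => ⟨h.1, lt_of_lt_of_le h.1 (hle z), h.2⟩, fun h => ⟨h.1, h.2.2⟩⟩)
    refine hX.conc_attach hk ?_ ?_
    · refine acyc_homeo e (fun z => ?_) (hE.acyc hr (β := fun x => η * bt x)
        (fun x y hxy => mul_le_mul_of_nonneg_left (hbta hxy) hη0.le)
        (fun x => mul_nonneg hη0.le (Real.smoothTransition.nonneg _))
        (by rw [hbt1 _ hs0.le, mul_one]; exact hη0))
      simp only [he, mem_inter_iff, mem_ofPred_eq, φ', N, hch']
      constructor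
      · exact fun h => ⟨h.2, by linarith [h.1]⟩
      · exact fun h => ⟨by linarith [h.2], h.1⟩
    · refine conc_homeo e (fun z => ?_) (hE.conc hr)
      simp only [he, mem_inter_iff, mem_ofPred_eq, hch']
      constructor
      · exact fun h => ⟨h.2, by linarith [h.1]⟩
      · exact fun h => ⟨by linarith [h.2], h.1⟩

theorem conc_superlevel (P : Finset (ι → ℂ)) : ∀ (k : ℕ) (φ : (ι → ℂ) → ℝ) (b : ℝ),
    ContDiff ℝ 2 φ → Tame φ → (∀ z, fderiv ℝ φ z = 0 ↔ z ∈ P) → (∀ q ∈ P, LocalModel φ q) →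
    (P.filter fun q => φ q ≤ b).card = k → Conc {z | b < φ z} (Fintype.card ι) k := by
  intro k
  induction k with
  | zero =>
    intro φ b hφ ht hP _ hk
    have h := ac_band φ hφ ht univ isUpperSet_univ b (fun z hz _ => by
      by_contra h
      exact Finset.card_ne_zero_of_mem (s := P.filter fun q => φ q ≤ b)
        (Finset.mem_filter.2 ⟨(hP z).1 hz, not_lt.1 h⟩) hk)
      (subset_univ _)
    exact ((h.acyc_iff (subset_univ _)).1
      (acyc_of_starConvex (v := 0) trivial (starConvex_univ 0))).conc _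
  | succ k ih =>
    intro φ b hφ ht hP hm hk
    obtain ⟨p, hp, hmax⟩ := Finset.exists_max_image (P.filter fun q => φ q ≤ b) φ
      (Finset.card_pos.1 (by omega))
    obtain ⟨hp1, hp2⟩ := Finset.mem_filter.1 hp
    have hsub : {z | b < φ z} ⊆ φ ⁻¹' Ioi (φ p) := fun z hz => lt_of_le_of_lt hp2 hz
    have h := ac_band φ hφ ht (Ioi (φ p)) (isUpperSet_Ioi _) b (fun z hz hz' => by
      by_contra h
      exact (hmax z (Finset.mem_filter.2 ⟨(hP z).1 hz, not_lt.1 h⟩)).not_gt hz') hsub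
    obtain ⟨φ', h1, h2, h3, h4, h5, h6, h7⟩ := morse_step φ hφ ht P hP hm hp1
    refine (h.conc_iff hsub).1 (h7 k (ih φ' (φ p) h1 h2 h3 h4 ?_))
    have : (P.filter fun q => φ' q ≤ φ p) = (P.filter fun q => φ q ≤ b).erase p := by
      ext q
      rw [Finset.mem_erase, Finset.mem_filter]
      constructor
      · rintro ⟨hq, hq'⟩
        have hne : q ≠ p := by
          rintro rfl
          exact hq'.not_gt h6
        exact ⟨hne, Finset.mem_filter.2 ⟨hq, by rw [← h5 q hq hne]; exact hq'.trans hp2⟩⟩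
      · rintro ⟨hne, hq⟩
        have hq' := (Finset.mem_filter.1 hq).1
        exact ⟨hq', by rw [h5 q hq' hne]; exact hmax q hq⟩
    rw [this, Finset.card_erase_of_mem hp, hk]
    rfl

end Pool.Agent.Lib.MP_1ba768_gt
end
end

-- part Pool.Agent.Lib.MP_1ba768_gt.Bezout
section

/-! Weighted Bezout theorem at a regular value, through the mapping degree. -/

set_option autoImplicit false

open Set MvPolynomial Pool.Agent.Shared.SingHom

noncomputable section

namespace Pool.Agent.Lib.MP_1ba768_gt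

namespace Bez

section Top

variable {V : Type} [NormedAddCommGroup V] [NormedSpace ℂ V]

/-- `F` multiplies all homology classes of the punctured space by `n` -/
def Deg (F : C(V, V)) (n : ℕ) : Prop :=
  ∀ m, ∀ x ∈ Z ({0}ᶜ : Set V) m, push F x - (n : ℤ) • x ∈ B ({0}ᶜ : Set V) m

omit [NormedSpace ℂ V] in
theorem Deg.comp {F F' : C(V, V)} {n n' : ℕ} (h : Deg F n) (h' : Deg F' n')
    (hF' : MapsTo F' {0}ᶜ {0}ᶜ) : Deg (F'.comp F) (n * n') := fun m x hx => by
  have h1 := push_mem_B F' hF' (h m x hx)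
  have h2 := (B _ m).smul_mem (n : ℤ) (h' m x hx)
  rw [map_sub, push_push, map_smul] at h1
  convert (B _ m).add_mem h1 h2 using 1
  push_cast
  module

theorem Deg.unique [FiniteDimensional ℝ V] {F F' : C(V, V)} {n n' : ℕ} (h : Deg F n)
    (h' : Deg F' n')
    (hF : ∀ m, ∀ x ∈ Z ({0}ᶜ : Set V) m, push F' x - push F x ∈ B ({0}ᶜ : Set V) m) : n = n' := by
  obtain ⟨e⟩ := (conc_compl_point (0 : V)).2
  obtain ⟨x, hx, hxe⟩ := Hq.mk_surj (e.symm fun _ => 1)
  have h1 : ((n : ℤ) - n') • x ∈ B ({0}ᶜ : Set V) (Module.finrank ℝ V) := by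
    convert (B _ _).sub_mem ((B _ _).sub_mem (h' _ x hx) (h _ x hx)) (hF _ x hx) using 1
    module
  have h2 : ((n : ℤ) - n') • e.symm (fun _ => 1) = 0 := by
    rw [← hxe, Hq.mk_smul]
    exact Hq.mk_eq_zero.2 h1
  have h3 := congrFun (congrArg e h2) 0
  rw [map_smul, e.apply_symm_apply, map_zero] at h3
  have h4 : (n : ℤ) - n' = 0 := by simpa using h3
  omega

/-- two maps in a pencil with finitely many degenerate members are homotopic -/
theorem pencil {F F' : C(V, V)} (T : Set ℂ) (hT : T.Finite) (h0 : (0 : ℂ) ∉ T) (h1 : (1 : ℂ) ∉ T)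
    (h : ∀ t ∉ T, ∀ z, z ≠ 0 → (1 - t) • F z + t • F' z ≠ 0) {m : ℕ} {x : Ch V}
    (hx : x ∈ Z ({0}ᶜ : Set V) m) : push F' x - push F x ∈ B ({0}ᶜ : Set V) m := by
  have hj := (hT.countable.isPathConnected_compl_of_one_lt_rank
    (by rw [Complex.rank_real_complex]; norm_num)).joinedIn 0 h0 1 h1
  refine push_sub_mem_B (fun y : ℝ × V => (1 - hj.somePath.extend y.1) • F y.2 +
    hj.somePath.extend y.1 • F' y.2) (Continuous.continuousOn (by fun_prop))
    (fun t ht z hz => h _ ?_ z hz) (fun z _ => by simp) (fun z _ => by simp) hx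
  rw [Path.extend_apply _ ht]
  exact hj.somePath_mem _

theorem finite_bad {W : Type} [AddCommGroup W] [Module ℂ W] [FiniteDimensional ℂ W]
    (L : Module.End ℂ W) : {t : ℂ | ∃ v, v ≠ 0 ∧ (1 - t) • v + t • L v = 0}.Finite := by
  refine (L.finite_hasEigenvalue.image fun c => (1 - c)⁻¹).subset ?_
  rintro t ⟨v, hv, h⟩
  have ht : t ≠ 0 := by
    rintro rfl
    exact hv (by simpa using h)
  refine ⟨1 - t⁻¹, Module.End.hasEigenvalue_of_hasEigenvector (x := v)
    ⟨Module.End.mem_eigenspace_iff.2 ?_, hv⟩, by simp⟩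
  have h2 : L v = t⁻¹ • (t • L v) := by rw [smul_smul, inv_mul_cancel₀ ht, one_smul]
  rw [h2, eq_neg_of_add_eq_zero_right h, smul_neg, smul_smul, ← neg_smul]
  congr 1
  field_simp
  ring

theorem linear [FiniteDimensional ℂ V] (A : V →L[ℂ] V) (hA : ∀ z, A z = 0 → z = 0) {m : ℕ}
    {x : Ch V} (hx : x ∈ Z ({0}ᶜ : Set V) m) :
    push ⟨A, A.continuous⟩ x - x ∈ B ({0}ᶜ : Set V) m := by
  have h := pencil (F := ContinuousMap.id V) (F' := ⟨A, A.continuous⟩) _ (finite_bad A.toLinearMap)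
    (by rintro ⟨v, hv, h⟩; exact hv (by simpa using h))
    (by rintro ⟨v, hv, h⟩; exact hv (hA v (by simpa using h)))
    (fun t ht z hz h => ht ⟨z, hz, h⟩) hx
  rwa [push_id] at h

theorem mem_B_compl (P : Finset V) {m : ℕ} {x : Ch V} (hx : x ∈ Z ((P : Set V)ᶜ) m)
    (h : ∀ p ∈ P, x ∈ B ({p}ᶜ : Set V) m) : x ∈ B ((P : Set V)ᶜ) m := by
  classical
  have hu : Acyc (univ : Set V) := acyc_of_starConvex (mem_univ 0) (starConvex_univ 0)
  induction P using Finset.induction_on with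
  | empty => simpa using hu m (by simpa using hx)
  | insert p P hp ih =>
    refine (exc_of_open (A := univ) (U₁ := {p}ᶜ) (U₂ := (P : Set V)ᶜ) isOpen_compl_singleton
      P.finite_toSet.isClosed.isOpen_compl (fun z _ => ?_) (univ_inter _).symm (univ_inter _).symm
      ?_).mem_B (hu _) hx (h p (Finset.mem_insert_self _ _))
      (ih (Z_mono (compl_subset_compl.2 (by simp)) m hx) fun q hq => h q
        (Finset.mem_insert_of_mem hq))
    · by_cases hz : z = p
      · exact Or.inr (hz ▸ hp)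
      · exact Or.inl hz
    · rw [Finset.coe_insert, insert_eq, compl_union]

/-- the homothety with centre `p` -/
def hom (p : V) (r : ℝ) : C(V, V) := ⟨fun z => p + r • z, by fun_prop⟩

theorem split (P : Finset V) {K : Set V} {r : ℝ} (hr : 0 < r) (hK : ∀ z ∈ K, ∀ p ∈ P, ‖p‖ < ‖z‖)
    (hK' : ∀ z ∈ K, ∀ p ∈ P, ∀ q ∈ P, p ≠ q → r * ‖z‖ < ‖p - q‖) {m : ℕ} {x : Ch V}
    (hx : x ∈ Z K m) : ∑ p ∈ P, push (hom p r) x - x ∈ B ((P : Set V)ᶜ) m := by
  have hb : ∀ p ∈ P, ∀ q ∈ P, p ≠ q → MapsTo (hom q r) K (Metric.ball q ‖p - q‖) := by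
    intro p hp q hq hpq z hz
    rw [mem_ball_iff_norm]
    simpa [hom, norm_smul, abs_of_pos hr] using hK' z hz p hp q hq hpq
  have hb' : ∀ p q : V, Metric.ball q ‖p - q‖ ⊆ {p}ᶜ := by
    rintro p q z hz rfl
    exact lt_irrefl _ (mem_ball_iff_norm.1 hz)
  have hz0 : ∀ z ∈ K, ∀ p ∈ P, p + r • z ≠ p := fun z hz p hp h => by
    have h1 := hK z hz p hp
    have h2 : z = 0 := by simpa [hr.ne'] using h
    rw [h2, norm_zero] at h1
    exact absurd h1 (norm_nonneg _).not_gt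
  refine mem_B_compl P (sub_mem (Submodule.sum_mem _ fun q hq => push_mem_Z _ ?_ hx)
    (Z_mono (fun z hz hzP => lt_irrefl _ (hK z hz z hzP)) m hx)) fun p hp => ?_
  · intro z hz hzP
    by_cases h : hom q r z = q
    · exact hz0 z hz q hq h
    · exact hb' _ _ (hb _ hzP q hq h hz) rfl
  · classical
    rw [← Finset.add_sum_erase _ _ hp, add_sub_right_comm]
    refine add_mem ?_ (Submodule.sum_mem _ fun q hq => ?_)
    · have h1 := push_sub_mem_B (g₀ := ContinuousMap.id V) (g₁ := hom p r) (A' := {p}ᶜ)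
        (fun y : ℝ × V => y.1 • p + (1 - y.1 + y.1 * r) • y.2)
        (Continuous.continuousOn (by fun_prop)) (fun t ht z hz h => ?_) (fun z _ => by simp)
        (fun z _ => by simp [hom]) hx
      · rwa [push_id] at h1
      · have h2 : (1 - t + t * r) • z = (1 - t) • p := by
          rw [sub_smul, one_smul, eq_sub_iff_add_eq, add_comm]; exact h
        have h3 := congrArg norm h2
        have h4 := hK z hz p hp
        have h5 : 0 ≤ t * r := mul_nonneg ht.1 hr.le
        have h6 := norm_nonneg p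
        rw [norm_smul, norm_smul, Real.norm_of_nonneg (by linarith [ht.2]),
          Real.norm_of_nonneg (by linarith [ht.2])] at h3
        rcases ht.2.eq_or_lt with rfl | h7
        · nlinarith
        · nlinarith
    · have hq' := Finset.mem_erase.1 hq
      have h1 : 0 < ‖p - q‖ := norm_pos_iff.2 (sub_ne_zero.2 hq'.1.symm)
      exact B_mono (hb' p q) m (acyc_of_starConvex (Metric.mem_ball_self h1)
        ((convex_ball q _).starConvex (Metric.mem_ball_self h1)) m
        (push_mem_Z _ (hb p hp q hq'.2 hq'.1.symm) hx))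

theorem loc [FiniteDimensional ℂ V] (F : C(V, V)) (p : V) (A : V →L[ℂ] V) (hp : F p = 0)
    (hF : HasFDerivAt F A p) (hA : ∀ z, A z = 0 → z = 0) {K : Set V} (hK : IsCompact K)
    (h0 : K ⊆ {0}ᶜ) : ∀ᶠ r in nhdsWithin (0 : ℝ) (Ioi 0), ∀ m, ∀ x ∈ Z K m,
      push F (push (hom p r) x) - x ∈ B ({0}ᶜ : Set V) m := by
  obtain ⟨c, hc, hA'⟩ := A.toLinearMap.exists_antilipschitzWith
    (LinearMap.ker_eq_bot'.2 hA)
  have hc' : (0 : ℝ) < c := hc
  have h1 := (hasFDerivAt_iff_isLittleO_nhds_zero.1 hF).bound (c := (2 * c)⁻¹) (by positivity)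
  obtain ⟨δ, hδ, h2⟩ := Metric.eventually_nhds_iff_ball.1 h1
  obtain ⟨M, hM, hKM⟩ := hK.isBounded.exists_pos_norm_le
  filter_upwards [Ioo_mem_nhdsGT (div_pos hδ hM)] with r hr m x hx
  have h3 := push_sub_mem_B (g₀ := ⟨(r : ℂ) • A, ((r : ℂ) • A).continuous⟩)
    (g₁ := F.comp (hom p r)) (A' := {0}ᶜ)
    (fun y : ℝ × V => A (r • y.2) + y.1 • (F (p + r • y.2) - A (r • y.2)))
    (Continuous.continuousOn (by fun_prop)) (fun t ht z hz h => ?_)
    (fun z _ => by simp [← Complex.coe_smul]) (fun z _ => by simp [hom]) hx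
  · have h4 := linear ((r : ℂ) • A) (fun z hz => hA z (by simpa [hr.1.ne'] using hz))
      (Z_mono h0 m hx)
    rw [push_push]
    convert add_mem h3 h4 using 1
    abel
  · have h4 := h2 (r • z) (by
      rw [mem_ball_zero_iff, norm_smul, Real.norm_of_nonneg hr.1.le]
      calc r * ‖z‖ ≤ r * M := mul_le_mul_of_nonneg_left (hKM z hz) hr.1.le
        _ < δ := (lt_div_iff₀ hM).1 hr.2)
    rw [hp, sub_zero] at h4
    have h5 : ‖r • z‖ ≤ c * ‖A (r • z)‖ := ZeroHomClass.bound_of_antilipschitz _ hA' _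
    have h6 : 0 < ‖r • z‖ := norm_pos_iff.2 (smul_ne_zero hr.1.ne' (h0 hz))
    have h7 := congrArg norm (eq_neg_of_add_eq_zero_left h)
    rw [norm_neg, norm_smul, Real.norm_of_nonneg ht.1] at h7
    have h8 : ‖A (r • z)‖ ≤ (2 * (c : ℝ))⁻¹ * ‖r • z‖ :=
      h7.le.trans ((mul_le_of_le_one_left (norm_nonneg _) ht.2).trans h4)
    have h9 := mul_le_mul_of_nonneg_left h8 hc'.le
    have h10 : (c : ℝ) * ((2 * (c : ℝ))⁻¹ * ‖r • z‖) = ‖r • z‖ / 2 := by field_simp
    linarith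

theorem count_far [FiniteDimensional ℂ V] (F : C(V, V)) (P : Finset V) (A : V → V →L[ℂ] V)
    (hP : ∀ z, z ∈ P ↔ F z = 0) (hF : ∀ p ∈ P, HasFDerivAt F (A p) p)
    (hA : ∀ p ∈ P, ∀ z, A p z = 0 → z = 0) {K : Set V} (hK : IsCompact K) (h0 : K ⊆ {0}ᶜ)
    (hKP : ∀ z ∈ K, ∀ p ∈ P, ‖p‖ < ‖z‖) {m : ℕ} {x : Ch V} (hx : x ∈ Z K m) :
    push F x - (P.card : ℤ) • x ∈ B ({0}ᶜ : Set V) m := by
  obtain ⟨M, hM, hKM⟩ := hK.isBounded.exists_pos_norm_le
  have h1 := (P.eventually_all.2 fun p hp => loc F p (A p) ((hP p).1 hp) (hF p hp) (hA p hp) hK h0)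
  have h2 : ∀ᶠ r in nhdsWithin (0 : ℝ) (Ioi 0), ∀ p ∈ P, ∀ q ∈ P, p ≠ q → r * M < ‖p - q‖ := by
    refine P.eventually_all.2 fun p _ => P.eventually_all.2 fun q _ => ?_
    by_cases hpq : p = q
    · exact Filter.Eventually.of_forall fun _ h => absurd hpq h
    · filter_upwards [Ioo_mem_nhdsGT (div_pos (norm_pos_iff.2 (sub_ne_zero.2 hpq)) hM)] with r hr _
      exact (lt_div_iff₀ hM).1 hr.2
  obtain ⟨r, ⟨h3, h4⟩, hr⟩ := ((h1.and h2).and self_mem_nhdsWithin).exists
  have h5 := push_mem_B F (A := (P : Set V)ᶜ) (A' := {0}ᶜ) (fun z hz h => hz ((hP z).2 h))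
    (split P hr hKP (fun z hz p hp q hq hpq => (mul_le_mul_of_nonneg_left (hKM z hz)
      (le_of_lt hr)).trans_lt (h4 p hp q hq hpq)) hx)
  have h6 := Submodule.sum_mem _ fun p hp => h3 p hp m x hx
  rw [map_sub, map_sum] at h5
  rw [Finset.sum_sub_distrib, Finset.sum_const] at h6
  convert sub_mem h6 h5 using 1
  rw [natCast_zsmul]
  abel

end Top

variable {ι : Type} [Fintype ι] [DecidableEq ι]

/-- the map given by a family of polynomials -/
def ev (G : ι → MvPolynomial ι ℂ) : C(ι → ℂ, ι → ℂ) :=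
  ⟨fun z i => eval z (G i), continuous_pi fun i => (G i).continuous_eval⟩

theorem hasFDerivAt_eval (g : MvPolynomial ι ℂ) (p : ι → ℂ) :
    HasFDerivAt (fun z : ι → ℂ => eval z g)
      (∑ j, eval p (pderiv j g) • (ContinuousLinearMap.proj j : (ι → ℂ) →L[ℂ] ℂ)) p := by
  induction g using MvPolynomial.induction_on with
  | C c =>
    simp only [eval_C]
    exact (hasFDerivAt_const c p).congr_fderiv (ContinuousLinearMap.ext fun v => by simp)
  | add f g hf hg =>
    simp only [map_add]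
    exact (hf.add hg).congr_fderiv (by ext v; simp [add_mul, Finset.sum_add_distrib])
  | mul_X f i hf =>
    simp only [map_mul, eval_X]
    refine (hf.mul (ContinuousLinearMap.proj i : (ι → ℂ) →L[ℂ] ℂ).hasFDerivAt).congr_fderiv
      (ContinuousLinearMap.ext fun v => ?_)
    simp [pderiv_X, Pi.single_apply, add_mul, Finset.sum_add_distrib, Finset.mul_sum, mul_assoc,
      apply_ite (eval p)]

theorem count (w e : ι → ℕ) (G : ι → MvPolynomial ι ℂ) (hw : ∀ i, 0 < w i)
    (he : ∀ i, 0 < e i) (hG : ∀ i, IsWeightedHomogeneous w (G i) (e i))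
    (hiso : ∀ z : ι → ℂ, (∀ i, eval z (G i) = 0) → z = 0) (a : ι → ℂ) (P : Finset (ι → ℂ))
    (hP : ∀ z, z ∈ P ↔ ∀ i, eval z (G i) = a i)
    (hreg : ∀ p ∈ P, (Matrix.of fun i j => eval p (pderiv j (G i))).det ≠ 0) :
    Deg (ev G) P.card := by
  intro m x hx
  obtain ⟨K, hK, h0, hxK⟩ := exists_compact hx.1
  have hG0 : MapsTo (ev G) {0}ᶜ {0}ᶜ := fun z hz h => hz (hiso z (congrFun h))
  -- a continuous function without zero is bounded below on `K`
  have hlow : ∀ F : C(ι → ℂ, ι → ℂ), MapsTo F {0}ᶜ {0}ᶜ → ∀ b : ℝ,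
      ∀ᶠ R in Filter.atTop, ∀ z ∈ K, b < R * ‖F z‖ := by
    intro F hF b
    obtain ⟨c, hc, hc'⟩ := hK.exists_forall_le' (f := fun z => ‖F z‖) (a := 0)
      (by fun_prop) fun z hz => norm_pos_iff.2 (hF (h0 hz))
    filter_upwards [Filter.eventually_gt_atTop (b / c), Filter.eventually_ge_atTop 0]
      with R h1 h2 z hz
    exact ((div_lt_iff₀ hc).1 h1).trans_le (mul_le_mul_of_nonneg_left (hc' z hz) h2)
  have hdil : ∀ (u : ι → ℕ), (∀ i, 0 < u i) → ∀ R : ℝ, 1 ≤ R → ∀ z : ι → ℂ,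
      R * ‖z‖ ≤ ‖fun i => (R : ℂ) ^ u i * z i‖ := by
    intro u hu R hR z
    have hR0 : 0 < R := by linarith
    rw [mul_comm, ← le_div_iff₀ hR0, pi_norm_le_iff_of_nonneg (by positivity)]
    intro i
    rw [le_div_iff₀ hR0]
    refine le_trans ?_ (norm_le_pi_norm _ i)
    rw [norm_mul, norm_pow, Complex.norm_of_nonneg hR0.le, mul_comm]
    exact mul_le_mul_of_nonneg_right (le_self_pow₀ hR (hu i).ne') (norm_nonneg _)
  obtain ⟨R, ⟨h1, h2⟩, hR⟩ := (((hlow _ hG0 ‖a‖).and (P.eventually_all.2 fun p _ =>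
    hlow (ContinuousMap.id _) (mapsTo_id _) ‖p‖)).and (Filter.eventually_ge_atTop 1)).exists
  let δ : C(ι → ℂ, ι → ℂ) := ⟨fun z i => (R : ℂ) ^ w i * z i, by fun_prop⟩
  have hy : push δ x ∈ Z (δ '' K) m := push_mem_Z δ (mapsTo_image _ _) ⟨hxK, hx.2⟩
  have h3 : push δ x - x ∈ B ({0}ᶜ : Set (ι → ℂ)) m := by
    have h := push_sub_mem_B (g₀ := ContinuousMap.id _) (g₁ := δ) (A' := {0}ᶜ)
      (fun (y : ℝ × (ι → ℂ)) i => ((1 + y.1 * (R - 1) : ℝ) : ℂ) ^ w i * y.2 i)
      (Continuous.continuousOn (by fun_prop)) (fun t ht z hz h => ?_) (fun z _ => by simp)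
      (fun z _ => by simp [δ]) hx
    · rwa [push_id] at h
    · have h4 : 1 ≤ 1 + t * (R - 1) := by nlinarith [ht.1]
      have h5 := (hdil w hw _ h4 z).trans_eq ((congrArg norm h).trans norm_zero)
      have h6 : 0 < ‖z‖ := norm_pos_iff.2 hz
      nlinarith
  have hδK : ∀ z ∈ K, ‖a‖ < ‖ev G (δ z)‖ := fun z hz => by
    refine ((h1 z hz).trans_le (hdil e he R hR _)).trans_eq (congrArg norm (funext fun i => ?_))
    exact (eval_scale (hG i) _ _).symm
  have h4 := push_sub_mem_B (g₀ := ev G - ContinuousMap.const _ a) (g₁ := ev G) (A' := {0}ᶜ)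
    (fun y : ℝ × (ι → ℂ) => ev G y.2 - (1 - y.1) • a)
    (Continuous.continuousOn (by fun_prop)) (by
      rintro t ht _ ⟨z, hz, rfl⟩ h
      have h5 := hδK z hz
      rw [sub_eq_zero.1 h, norm_smul, Real.norm_of_nonneg (by linarith [ht.2])] at h5
      nlinarith [ht.1, norm_nonneg a]) (fun z _ => by simp) (fun z _ => by simp) hy
  have h5 := count_far (ev G - ContinuousMap.const _ a) P
    (fun p => ContinuousLinearMap.pi fun i =>
      ∑ j, eval p (pderiv j (G i)) • (ContinuousLinearMap.proj j : (ι → ℂ) →L[ℂ] ℂ))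
    (fun z => (hP z).trans ⟨fun h => funext fun i => sub_eq_zero.2 (h i),
      fun h i => sub_eq_zero.1 (congrFun h i)⟩)
    (fun p _ => (hasFDerivAt_pi.2 fun i => hasFDerivAt_eval (G i) p).sub_const a)
    (fun p hp z hz => Matrix.eq_zero_of_mulVec_eq_zero (hreg p hp) (funext fun i => by
      simpa [Matrix.mulVec, dotProduct] using congrFun hz i))
    (hK.image δ.continuous) (by
      rintro _ ⟨z, hz, rfl⟩ h
      have h5 := (hdil w hw R hR z).trans_eq ((congrArg norm h).trans norm_zero)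
      have h6 : 0 < ‖z‖ := norm_pos_iff.2 (h0 hz)
      nlinarith)
    (by
      rintro _ ⟨z, hz, rfl⟩ p hp
      exact (h2 p hp z hz).trans_le (hdil w hw R hR z)) hy
  have h6 := push_mem_B _ hG0 h3
  rw [map_sub] at h6
  convert add_mem (sub_mem (add_mem h4 h5) h6) ((B _ m).smul_mem (P.card : ℤ) h3) using 1
  module

theorem deg_pow (u : ι → ℕ) (hu : ∀ i, 0 < u i) :
    Deg (ev fun i => (X i : MvPolynomial ι ℂ) ^ u i) (∏ i, u i) := by
  have h := count (fun _ => 1) u (fun i => X i ^ u i) (fun _ => one_pos) hu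
    (fun i => by
      have h := (isWeightedHomogeneous_X ℂ (fun _ : ι => (1 : ℕ)) i).pow (u i)
      rwa [smul_eq_mul, mul_one] at h)
    (fun z hz => funext fun i => pow_eq_zero_iff (hu i).ne' |>.1 (by simpa using hz i))
    (fun _ => 1) (Fintype.piFinset fun i => Polynomial.nthRootsFinset (u i) 1)
    (fun z => by simp [Polynomial.mem_nthRootsFinset (hu _)]) (fun p hp => by
      have h1 : (Matrix.of fun i j => eval p (pderiv j (X i ^ u i : MvPolynomial ι ℂ))) =
          Matrix.diagonal fun i => (u i : ℂ) * p i ^ (u i - 1) := by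
        ext i j
        by_cases hij : i = j
        · subst hij; simp
        · simp [hij]
      rw [h1, Matrix.det_diagonal]
      refine Finset.prod_ne_zero_iff.2 fun i _ => mul_ne_zero (by exact_mod_cast (hu i).ne')
        (pow_ne_zero _ (Polynomial.ne_zero_of_mem_nthRootsFinset one_ne_zero
          (Fintype.mem_piFinset.1 hp i))))
  rw [Fintype.card_piFinset] at h
  convert h using 2 with i
  exact ((Complex.isPrimitiveRoot_exp _ (hu i).ne').card_nthRootsFinset).symm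

theorem finite_pencil (w u : ι → ℕ) (D : ℕ) (hw : ∀ i, 0 < w i)
    (hu : ∀ i, u i * w i = D) (A : ι → MvPolynomial ι ℂ)
    (hA : ∀ i, IsWeightedHomogeneous w (A i) D) :
    {t : ℂ | ∃ z, z ≠ 0 ∧ (1 - t) • ev (fun i => X i ^ u i) z + t • ev A z = 0}.Finite := by
  have hS := Finsupp.finite_of_nat_weight_eq w (fun i => (hw i).ne') (Fintype.card ι * D)
  let S := hS.toFinset
  have hS' : ∀ α, α ∈ S ↔ Finsupp.weight w α = Fintype.card ι * D := fun α => hS.mem_toFinset
  cases isEmpty_or_nonempty ι with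
  | inl _ => exact finite_empty.subset fun t ⟨z, hz, _⟩ => hz (Subsingleton.elim _ _)
  | inr _ =>
  have h1 : ∀ α : S, ∃ i β, α.1 = β + Finsupp.single i (u i) := by
    rintro ⟨α, hα⟩
    by_contra hcon
    have h2 : ∀ i ∈ Finset.univ, α i • w i < D := fun i _ => by
      rw [← hu i, smul_eq_mul]
      refine Nat.mul_lt_mul_of_pos_right (lt_of_not_ge fun h => hcon ⟨i, α - Finsupp.single i (u i),
        (tsub_add_cancel_of_le (Finsupp.single_le_iff.2 h)).symm⟩) (hw i)
    have h3 := Finset.sum_lt_sum_of_nonempty Finset.univ_nonempty h2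
    have h4 := (hS' α).1 hα
    rw [Finsupp.weight_apply, Finsupp.sum_fintype _ _ (by simp)] at h4
    rw [h4] at h3
    simp at h3
  choose i β hβ using h1
  let M : Matrix S S ℂ := fun α γ => coeff γ.1 (monomial (β α) 1 * A (i α))
  refine (finite_bad (Matrix.toLin' M)).subset ?_
  rintro t ⟨z, hz, h⟩
  refine ⟨fun α => eval z (monomial α.1 1), fun h0 => hz (funext fun j => ?_), funext fun α => ?_⟩
  · have h2 := congrFun h0 ⟨Finsupp.single j (Fintype.card ι * u j), (hS' _).2 (by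
      rw [Finsupp.weight_single, smul_eq_mul, mul_assoc, hu])⟩
    simp only [← X_pow_eq_monomial, map_pow, eval_X, Pi.zero_apply] at h2
    exact eq_zero_of_pow_eq_zero h2
  · have h2 : IsWeightedHomogeneous w (monomial (β α) (1 : ℂ) * A (i α)) (Fintype.card ι * D) := by
      have h3 := (hS' _).1 α.2
      rw [hβ α, map_add, Finsupp.weight_single, smul_eq_mul, hu] at h3
      exact h3 ▸ (isWeightedHomogeneous_monomial w _ _ rfl).mul (hA _)
    have h3 : Matrix.toLin' M (fun α => eval z (monomial α.1 1)) α =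
        eval z (monomial (β α) 1 * A (i α)) := by
      rw [Matrix.toLin'_apply, Matrix.mulVec, dotProduct, Finset.sum_coe_sort S
        (fun γ => coeff γ (monomial (β α) 1 * A (i α)) * eval z (monomial γ 1))]
      conv_rhs => rw [(monomial (β α) (1 : ℂ) * A (i α) : MvPolynomial ι ℂ).as_sum, map_sum]
      refine (Finset.sum_subset (fun γ hγ => (hS' γ).2 (h2 (mem_support_iff.1 hγ)))
        (fun γ _ hγ => by rw [notMem_support_iff.1 hγ, zero_mul])).symm.trans ?_
      exact Finset.sum_congr rfl fun γ _ => by simp [eval_monomial]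
    have h4 := congrFun h (i α)
    simp only [ev, Pi.add_apply, Pi.smul_apply, smul_eq_mul, ContinuousMap.coe_mk,
      Pi.zero_apply] at h4 ⊢
    rw [h3, hβ α, monomial_add_single, map_mul, map_mul]
    linear_combination eval z (monomial (β α) 1) * h4

end Bez

variable {ι : Type} [Fintype ι] [DecidableEq ι]

theorem weighted_bezout (w e : ι → ℕ) (G : ι → MvPolynomial ι ℂ) (hw : ∀ i, 0 < w i)
    (he : ∀ i, 0 < e i) (hG : ∀ i, IsWeightedHomogeneous w (G i) (e i))
    (hiso : ∀ z : ι → ℂ, (∀ i, eval z (G i) = 0) → z = 0) (a : ι → ℂ) (P : Finset (ι → ℂ))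
    (hP : ∀ z, z ∈ P ↔ ∀ i, eval z (G i) = a i)
    (hreg : ∀ p ∈ P, (Matrix.of fun i j => eval p (pderiv j (G i))).det ≠ 0) :
    P.card * ∏ i, w i = ∏ i, e i := by
  have hW : 0 < ∏ i, w i := Finset.prod_pos fun i _ => hw i
  have hE : 0 < ∏ i, e i := Finset.prod_pos fun i _ => he i
  have hD := Nat.mul_pos hW hE
  choose u hu using fun i => (Finset.dvd_prod_of_mem w (Finset.mem_univ i)).mul_right (∏ i, e i)
  choose v hv using fun i => (Finset.dvd_prod_of_mem e (Finset.mem_univ i)).mul_left (∏ i, w i)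
  have hu0 : ∀ i, 0 < u i := fun i => Nat.pos_of_mul_pos_left (hu i ▸ hD)
  have hv0 : ∀ i, 0 < v i := fun i => Nat.pos_of_mul_pos_left (hv i ▸ hD)
  have hpow : ∀ u : ι → ℕ, (∀ i, 0 < u i) →
      MapsTo (Bez.ev fun i => (X i : MvPolynomial ι ℂ) ^ u i) {0}ᶜ {0}ᶜ :=
    fun u hu z hz h => hz (funext fun i => eq_zero_of_pow_eq_zero (n := u i) (by
      simpa [Bez.ev] using congrFun h i))
  have h1 := (Bez.count w e G hw he hG hiso a P hP hreg).comp (Bez.deg_pow v hv0) (hpow v hv0)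
  have h2 : (Bez.ev fun i => (X i : MvPolynomial ι ℂ) ^ v i).comp (Bez.ev G) =
      Bez.ev fun i => G i ^ v i := by
    ext z i
    simp [Bez.ev]
  have h3 := (Bez.deg_pow u hu0).unique h1 fun m x hx => Bez.pencil _
    (Bez.finite_pencil w u ((∏ i, w i) * ∏ i, e i) hw
      (fun i => by rw [hu i, mul_comm]) (fun i => G i ^ v i)
      fun i => by simpa [hv i, mul_comm] using (hG i).pow (v i))
    (by
      rintro ⟨z, hz, h⟩
      exact hpow u hu0 hz (by simpa using h))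
    (by
      rintro ⟨z, hz, h⟩
      rw [← h2] at h
      exact hpow v hv0 (x := Bez.ev G z) (fun h' => hz (hiso z (congrFun h'))) (by simpa using h))
    (fun t ht z hz h => ht ⟨z, hz, h2 ▸ h⟩) hx
  have h4 : (∏ i, w i) * ∏ i, u i = (∏ i, e i) * ∏ i, v i := by
    rw [← Finset.prod_mul_distrib, ← Finset.prod_mul_distrib]
    exact Finset.prod_congr rfl fun i _ => (hu i).symm.trans (hv i)
  rw [h3] at h4
  refine Nat.eq_of_mul_eq_mul_right (Finset.prod_pos fun i (_ : i ∈ Finset.univ) => hv0 i) ?_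
  rw [← h4]
  ring

end Pool.Agent.Lib.MP_1ba768_gt
end
end

-- part Pool.Agent.Lib.MP_1ba768_gt.MorseData
section

/-! Morse data for the real part of a weighted homogeneous polynomial. -/

set_option autoImplicit false

open Set Filter Topology MvPolynomial

noncomputable section

namespace Pool.Agent.Lib.MP_1ba768_gt

namespace MD

variable {ι : Type} [Fintype ι] [DecidableEq ι]

/-- the real bilinear pairing `Re (sum c_j v_j)` -/
def lin : (ι → ℂ) →L[ℝ] (ι → ℂ) →L[ℝ] ℝ :=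
  (LinearMap.mk₂ ℝ (fun c v : ι → ℂ => (c ⬝ᵥ v).re) (fun _ _ _ => by simp [add_dotProduct])
    (fun r c v => by simp [smul_dotProduct]) (fun _ _ _ => by simp [dotProduct_add])
    (fun r c v => by simp [dotProduct_smul])).toContinuousBilinearMap

omit [DecidableEq ι] in
theorem lin_apply (c v : ι → ℂ) : lin c v = (c ⬝ᵥ v).re := rfl

theorem norm_le_lin (c : ι → ℂ) : ‖c‖ ≤ ‖lin c‖ := by
  refine (pi_norm_le_iff_of_nonneg (norm_nonneg _)).2 fun i => ?_
  have h := (lin c).le_opNorm (Pi.single i (starRingEnd ℂ (c i)))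
  rw [lin_apply, dotProduct_single, Complex.mul_conj, Pi.norm_single, Complex.norm_conj,
    Complex.ofReal_re, Complex.normSq_eq_norm_sq, Real.norm_of_nonneg (sq_nonneg _), sq] at h
  rcases (norm_nonneg (c i)).eq_or_lt with h0 | h0
  · rw [← h0]; exact norm_nonneg _
  · exact le_of_mul_le_mul_right h h0

/-- the holomorphic gradient -/
def grad (f : MvPolynomial ι ℂ) (z : ι → ℂ) : ι → ℂ := fun i => eval z (pderiv i f)

/-- the holomorphic Hessian -/
def hess (f : MvPolynomial ι ℂ) (z : ι → ℂ) : Matrix ι ι ℂ :=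
  Matrix.of fun i j => eval z (pderiv j (pderiv i f))

/-- multiplication by a matrix as a real linear map -/
def mv (A : Matrix ι ι ℂ) : (ι → ℂ) →L[ℝ] (ι → ℂ) :=
  (A.mulVecLin.restrictScalars ℝ).toContinuousLinearMap

omit [DecidableEq ι] in
theorem mv_apply (A : Matrix ι ι ℂ) (v : ι → ℂ) : mv A v = A.mulVec v := rfl

theorem hasFDerivAt_re (f : MvPolynomial ι ℂ) (z : ι → ℂ) :
    HasFDerivAt (fun z : ι → ℂ => (eval z f).re) (lin (grad f z)) z := by
  have := Complex.reCLM.hasFDerivAt.comp z ((Bez.hasFDerivAt_eval f z).restrictScalars ℝ)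
  refine this.congr_fderiv (ContinuousLinearMap.ext fun v => ?_)
  simp [lin_apply, grad, dotProduct]

theorem hasFDerivAt_grad (f : MvPolynomial ι ℂ) (z : ι → ℂ) :
    HasFDerivAt (grad f) (mv (hess f z)) z := by
  have := hasFDerivAt_pi.2 fun i => (Bez.hasFDerivAt_eval (pderiv i f) z).restrictScalars ℝ
  refine this.congr_fderiv (ContinuousLinearMap.ext fun v => ?_)
  ext i
  simp [mv_apply, hess, Matrix.mulVec, dotProduct]

omit [DecidableEq ι] in
theorem contDiff_re (f : MvPolynomial ι ℂ) : ContDiff ℝ 2 fun z : ι → ℂ => (eval z f).re := by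
  refine Complex.reCLM.contDiff.comp (?_ : ContDiff ℝ 2 fun z : ι → ℂ => eval z f)
  induction f using MvPolynomial.induction_on with
  | C a => simpa using contDiff_const
  | add p q hp hq => simpa using hp.add hq
  | mul_X p i hp => simpa using hp.mul (contDiff_apply ℝ ℂ i)

omit [Fintype ι] in
theorem hess_symm (f : MvPolynomial ι ℂ) (z : ι → ℂ) (i j : ι) : hess f z i j = hess f z j i := by
  have : pderiv j (pderiv i f) = pderiv i (pderiv j f) := by
    ext m
    simp only [coeff_pderiv]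
    by_cases h : i = j
    · rw [h]
    · rw [add_right_comm]
      simp only [Finsupp.add_apply, Finsupp.single_eq_of_ne h, Finsupp.single_eq_of_ne (Ne.symm h),
        add_zero]
      ring
  simp only [hess, Matrix.of_apply, this]

theorem exists_diag (A : Matrix ι ι ℂ) (hs : ∀ i j, A i j = A j i) (hA : A.det ≠ 0) :
    ∃ T : (ι → ℂ) ≃L[ℝ] (ι → ℂ), ∀ z, lin (mv A (T z)) (T z) = 2 * Qf z := by
  have hsym : ∀ B : Matrix ι ι ℂ, (∀ i j, B i j = B j i) → ∀ x y : ι → ℂ,
      Matrix.toLinearMap₂' ℂ B x y = Matrix.toLinearMap₂' ℂ B y x := fun B hB x y => by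
    simp only [Matrix.toLinearMap₂'_apply]
    rw [Finset.sum_comm]
    refine Finset.sum_congr rfl fun i _ => Finset.sum_congr rfl fun j _ => ?_
    rw [hB j i, smul_comm]
  obtain ⟨e⟩ := QuadraticForm.equivalent_of_isAlgClosed
    (Matrix.toQuadraticForm' ((2 : ℂ) • (1 : Matrix ι ι ℂ))) (Matrix.toQuadraticForm' A)
    (by
      rw [Matrix.toQuadraticForm', QuadraticMap.associated, QuadraticMap.associated_left_inverse ℂ
        (hsym _ fun i j => by simp [Matrix.one_apply, eq_comm])]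
      exact LinearMap.separatingLeft_toLinearMap₂'_iff_det_ne_zero.2 (by simp))
    (by
      rw [Matrix.toQuadraticForm', QuadraticMap.associated,
        QuadraticMap.associated_left_inverse ℂ (hsym _ hs)]
      exact LinearMap.separatingLeft_toLinearMap₂'_iff_det_ne_zero.2 hA)
  refine ⟨(e.toLinearEquiv.restrictScalars ℝ).toContinuousLinearEquiv, fun z => ?_⟩
  have h := e.map_app z
  simp only [Matrix.toQuadraticForm', LinearMap.BilinMap.toQuadraticMap_apply,
    Matrix.toLinearMap₂'_apply', Matrix.smul_mulVec, Matrix.one_mulVec, dotProduct_smul] at h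
  have h' := congrArg Complex.re ((dotProduct_comm _ _).trans h)
  refine h'.trans ?_
  simp [Qf, dotProduct, sq]

theorem localModel {φ : (ι → ℂ) → ℝ} {p a : ι → ℂ} {f : MvPolynomial ι ℂ}
    (hφ : ∀ᶠ z in 𝓝 p, HasFDerivAt φ (lin (grad f z - a)) z) (hp : grad f p = a)
    (hA : (hess f p).det ≠ 0) : LocalModel φ p := by
  obtain ⟨T, hT⟩ := exists_diag _ (hess_symm f p) hA
  refine ⟨T, fun η hη => ?_⟩
  set A := hess f p
  have hsym : ∀ u v, lin (mv A u) v = lin (mv A v) u := fun u v => by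
    rw [lin_apply, lin_apply, mv_apply, mv_apply, dotProduct_comm, Matrix.dotProduct_mulVec,
      ← Matrix.mulVec_transpose, show A.transpose = A from Matrix.ext fun i j => hess_symm f p j i]
  have hq : ∀ u, HasFDerivAt (fun u => (1 / 2 : ℝ) * lin (mv A u) u) (lin (mv A u)) u := fun u => by
    have := (((lin.comp (mv A)).hasFDerivAt (x := u)).clm_apply (hasFDerivAt_id u)).const_mul
      (1 / 2 : ℝ)
    refine this.congr_fderiv (ContinuousLinearMap.ext fun v => ?_)
    simp only [smul_apply, add_apply,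
      ContinuousLinearMap.comp_apply, ContinuousLinearMap.flip_apply, id,
      ContinuousLinearMap.id_apply, smul_eq_mul, hsym v u]
    ring
  have hc : Tendsto (fun z => p + T z) (𝓝 0) (𝓝 p) := by
    have : Continuous fun z => p + T z := by fun_prop
    simpa using this.tendsto 0
  set c : ℝ := ‖(lin : (ι → ℂ) →L[ℝ] _)‖ * ‖(T : (ι → ℂ) →L[ℝ] (ι → ℂ))‖ ^ 2 + 1 with hc'
  have hc0 : 0 < c := by positivity
  have ho := (hasFDerivAt_grad f p).isLittleO.def (div_pos hη hc0)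
  obtain ⟨r, hr, h1⟩ := Metric.nhds_basis_closedBall.eventually_iff.1
    ((hc.eventually hφ).and (hc.eventually ho))
  refine ⟨r, hr, fun ρ hρ z z' hz hz' => ?_⟩
  have hρ0 : 0 ≤ ρ := (norm_nonneg _).trans hz
  refine (convex_closedBall (0 : ι → ℂ) ρ).norm_image_sub_le_of_norm_hasFDerivWithin_le
    (f := fun z => φ (p + T z) - Qf z)
    (f' := fun z => (lin (grad f (p + T z) - a - mv A (T z))).comp (T : (ι → ℂ) →L[ℝ] (ι → ℂ)))
    (fun y hy => ?_) (fun y hy => ?_) (mem_closedBall_zero_iff.2 hz')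
    (mem_closedBall_zero_iff.2 hz)
  · have h2 := (h1 (Metric.closedBall_subset_closedBall hρ hy)).1
    have h3 := (h2.comp y (T.hasFDerivAt.const_add p)).sub ((hq (T y)).comp y T.hasFDerivAt)
    refine HasFDerivAt.hasFDerivWithinAt ?_
    refine (h3.congr_fderiv (ContinuousLinearMap.ext fun v => ?_)).congr_of_eventuallyEq
      (Eventually.of_forall fun y => ?_)
    · simp
    · simp only [Pi.sub_apply, Function.comp_apply, hT]
      ring
  · have h2 := (h1 (Metric.closedBall_subset_closedBall hρ hy)).2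
    rw [hp, add_sub_cancel_left] at h2
    have h3 : ‖T y‖ ≤ ‖(T : (ι → ℂ) →L[ℝ] (ι → ℂ))‖ * ρ :=
      (T : (ι → ℂ) →L[ℝ] (ι → ℂ)).le_opNorm_of_le (mem_closedBall_zero_iff.1 hy)
    calc _ ≤ ‖lin (grad f (p + T y) - a - mv A (T y))‖ * ‖(T : (ι → ℂ) →L[ℝ] (ι → ℂ))‖ :=
          ContinuousLinearMap.opNorm_comp_le _ _
      _ ≤ (‖(lin : (ι → ℂ) →L[ℝ] _)‖ * (η / c * (‖(T : (ι → ℂ) →L[ℝ] (ι → ℂ))‖ * ρ))) *
            ‖(T : (ι → ℂ) →L[ℝ] (ι → ℂ))‖ := by
          gcongr
          refine ((lin (ι := ι)).le_opNorm _).trans ?_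
          gcongr
          exact h2.trans (by gcongr)
      _ = η * ρ * ((c - 1) / c) := by
          rw [hc', add_sub_cancel_right]
          ring
      _ ≤ η * ρ := mul_le_of_le_one_right (by positivity) ((div_le_one hc0).2 (by linarith))

omit [Fintype ι] [DecidableEq ι] in
theorem eq_C_of_le {w : ι → ℕ} {d : ℕ} {f : MvPolynomial ι ℂ} (hw : ∀ i, 0 < w i)
    (hf : IsWeightedHomogeneous w f d) {j : ι} (hj : d ≤ w j) {m : ι →₀ ℕ} (hm : coeff m f ≠ 0)
    (hmj : m j ≠ 0) : m = Finsupp.single j 1 ∧ w j = d := by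
  have h1 := hf hm
  have h2 : m = Finsupp.single j 1 + (m - Finsupp.single j 1) :=
    (add_tsub_cancel_of_le (Finsupp.single_le_iff.2 (Nat.one_le_iff_ne_zero.2 hmj))).symm
  rw [h2, map_add, Finsupp.weight_single, one_smul] at h1
  have h3 : Finsupp.weight w (m - Finsupp.single j 1) = 0 := by omega
  have : Finsupp.NonTorsionWeight ℕ w := ⟨fun h => by
    rcases mul_eq_zero.1 h with h | h
    · exact h
    · exact absurd h (hw _).ne'⟩
  rw [Finsupp.weight_eq_zero_iff_eq_zero] at h3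
  exact ⟨by rw [h2, h3, add_zero], by rw [h3, map_zero] at h1; omega⟩

omit [Fintype ι] in
theorem grad_const {w : ι → ℕ} {d : ℕ} {f : MvPolynomial ι ℂ} (hw : ∀ i, 0 < w i)
    (hf : IsWeightedHomogeneous w f d) {j : ι} (hj : w j = d) (z : ι → ℂ) :
    grad f z j = grad f 0 j := by
  have h1 : pderiv j f = C (coeff 0 (pderiv j f)) := by
    ext m
    rw [coeff_C]
    split_ifs with h
    · rw [h]
    · by_contra h2
      rw [coeff_pderiv] at h2
      exact h (Eq.symm (by simpa using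
        (eq_C_of_le hw hf hj.ge (left_ne_zero_of_mul h2) (by simp)).1))
  simp only [grad]
  rw [h1, eval_C, eval_C]

theorem lt_of_grad {w : ι → ℕ} {d : ℕ} {f : MvPolynomial ι ℂ} (hw : ∀ i, 0 < w i)
    (hf : IsWeightedHomogeneous w f d) (hiso : ∀ z, grad f z = 0 → z = 0) (h0 : grad f 0 = 0)
    (j : ι) : w j < d := by
  by_contra hj
  have h1 : ∀ m, coeff m f ≠ 0 → m j = 0 := fun m hm => by
    by_contra h
    have h2 := (eq_C_of_le hw hf (not_lt.1 hj) hm h).1
    have h3 : coeff 0 (pderiv j f) = 0 := by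
      have := congrFun h0 j
      simpa [grad, constantCoeff_eq] using this
    rw [coeff_pderiv] at h3
    exact hm (by simpa [h2] using h3)
  have h2 : grad f (Pi.single j 1) = grad f 0 := by
    ext i
    simp only [grad]
    rw [eval_eq', eval_eq']
    refine Finset.sum_congr rfl fun m hm => ?_
    have h3 := mem_support_iff.1 hm
    rw [coeff_pderiv] at h3
    have h4 : m j = 0 := by
      have := h1 _ (left_ne_zero_of_mul h3)
      rw [Finsupp.add_apply] at this
      omega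
    congr 1
    refine Finset.prod_congr rfl fun k _ => ?_
    by_cases h : k = j
    · simp [h, h4]
    · simp [h]
  simpa using congrFun (hiso _ (h2.trans h0)) j

theorem exists_lower {w : ι → ℕ} {d : ℕ} {f : MvPolynomial ι ℂ} (hw : ∀ i, 0 < w i)
    (hf : IsWeightedHomogeneous w f d) (hiso : ∀ z, grad f z = 0 → z = 0) (hlt : ∀ j, w j < d) :
    ∃ δ : ℝ, 0 < δ ∧ ∀ z, 1 ≤ ‖z‖ → δ ≤ ‖grad f z‖ := by
  have hc : Continuous (grad f) :=
    continuous_iff_continuousAt.2 fun z => (hasFDerivAt_grad f z).continuousAt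
  obtain ⟨δ, hδ, h1⟩ := (isCompact_sphere (0 : ι → ℂ) 1).exists_forall_le' (a := 0)
    hc.norm.continuousOn fun z hz => norm_pos_iff.2 fun h => by
      rw [hiso z h] at hz
      simp at hz
  refine ⟨δ, hδ, fun z hz => ?_⟩
  have hc2 : Continuous fun t : ℝ => ‖fun i => (t : ℂ) ^ w i * z i‖ := by fun_prop
  obtain ⟨t, ht, h2⟩ := intermediate_value_Icc zero_le_one hc2.continuousOn (show (1 : ℝ) ∈ _ from
    ⟨by simp [fun i => zero_pow (M₀ := ℂ) (hw i).ne', ← Pi.zero_def], by simpa using hz⟩)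
  refine (h1 _ (mem_sphere_zero_iff_norm.2 h2)).trans ?_
  refine (pi_norm_le_iff_of_nonneg (norm_nonneg _)).2 fun i => (?_ : _ ≤ ‖grad f z i‖).trans
    (norm_le_pi_norm _ i)
  simp only [grad]
  rw [eval_scale (hf.pderiv (Nat.sub_add_cancel (hlt i).le)), norm_mul, norm_pow,
    Complex.norm_real, Real.norm_of_nonneg ht.1]
  exact mul_le_of_le_one_left (norm_nonneg _) (pow_le_one₀ ht.1 ht.2)

theorem exists_regular (f : MvPolynomial ι ℂ) {ε : ℝ} (hε : 0 < ε) :
    ∃ a : ι → ℂ, ‖a‖ < ε ∧ ∀ z, grad f z = a → (hess f z).det ≠ 0 := by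
  have h1 := MeasureTheory.addHaar_image_eq_zero_of_det_fderivWithin_eq_zero
    (MeasureTheory.volume : MeasureTheory.Measure (ι → ℂ)) (s := {z | (hess f z).det = 0})
    (fun z _ => (hasFDerivAt_grad f z).hasFDerivWithinAt) (fun z hz => by
      obtain ⟨v, hv, h⟩ := Matrix.exists_mulVec_eq_zero_iff.2 hz
      exact LinearMap.det_eq_zero_iff_ker_ne_bot.2 ((Submodule.ne_bot_iff _).2 ⟨v, h, hv⟩))
  by_contra h
  push Not at h
  refine (Metric.measure_ball_pos MeasureTheory.volume (0 : ι → ℂ) hε).ne'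
    (MeasureTheory.measure_mono_null (fun a ha => ?_) h1)
  obtain ⟨z, h2, h3⟩ := h a (mem_ball_zero_iff.1 ha)
  exact ⟨z, h3, h2⟩

end MD

open MD in
theorem morse_data {ι : Type} [Fintype ι] [DecidableEq ι] (w : ι → ℕ) (d : ℕ)
    (f : MvPolynomial ι ℂ) (hw : ∀ i, 0 < w i) (hd : 0 < d)
    (hf : IsWeightedHomogeneous w f d)
    (hiso : ∀ z : ι → ℂ, (∀ i, eval z (pderiv i f) = 0) → z = 0) :
    ∃ (φ : (ι → ℂ) → ℝ) (P : Finset (ι → ℂ)) (c : ℝ), ContDiff ℝ 2 φ ∧ Tame φ ∧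
      (∀ z, fderiv ℝ φ z = 0 ↔ z ∈ P) ∧ (∀ p ∈ P, LocalModel φ p) ∧ (∀ p ∈ P, φ p ≤ c) ∧ 0 < c ∧
      (∀ z, c < φ z ↔ c < (eval z f).re) ∧
      ((P = ∅ ∧ ∃ i, w i = d) ∨
        ((∀ i, w i < d) ∧ ∃ a : ι → ℂ, (∀ z, z ∈ P ↔ ∀ i, eval z (pderiv i f) = a i) ∧
          ∀ p ∈ P, (Matrix.of fun i j => eval p (pderiv j (pderiv i f))).det ≠ 0)) := by
  have _ := hd
  have hiso' : ∀ z, grad f z = 0 → z = 0 := fun z h => hiso z (congrFun h)
  by_cases h0 : grad f 0 = 0
  swap
  · obtain ⟨j, hj⟩ := Function.ne_iff.1 h0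
    have hj' : w j = d := by
      have h3 : coeff 0 (pderiv j f) ≠ 0 := by
        simpa [grad, constantCoeff_eq] using hj
      rw [coeff_pderiv] at h3
      simpa [Finsupp.weight_single] using hf (left_ne_zero_of_mul h3)
    have h1 : ∀ z, ‖grad f 0 j‖ ≤ ‖fderiv ℝ (fun z : ι → ℂ => (eval z f).re) z‖ := fun z => by
      rw [(hasFDerivAt_re f z).fderiv, ← grad_const hw hf hj' z]
      exact (norm_le_pi_norm _ j).trans (norm_le_lin _)
    refine ⟨fun z => (eval z f).re, ∅, 1, contDiff_re f, ⟨0, _, norm_pos_iff.2 hj, fun z _ => h1 z⟩,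
      fun z => iff_of_false (fun h => ?_) (by simp), by simp, by simp, one_pos, fun _ => Iff.rfl,
      Or.inl ⟨rfl, j, hj'⟩⟩
    have := h1 z
    rw [h, norm_zero] at this
    exact hj (norm_le_zero_iff.1 this)
  have hlt := lt_of_grad hw hf hiso' h0
  obtain ⟨δ, hδ, hlow⟩ := exists_lower hw hf hiso' hlt
  let χ : ContDiffBump (0 : ι → ℂ) := ⟨2, 3, by norm_num, by norm_num⟩
  have hχ : ContDiff ℝ 2 χ := χ.contDiff
  obtain ⟨M, hM⟩ := (HasCompactSupport.mul_left (f := fun z : ι → ℂ => ‖z‖)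
    (χ.hasCompactSupport.fderiv ℝ).norm).exists_bound_of_continuous
    (continuous_norm.mul (hχ.continuous_fderiv (by norm_num)).norm)
  have hM0 : 0 ≤ M := (norm_nonneg _).trans (hM 0)
  set K : ℝ := ‖(lin : (ι → ℂ) →L[ℝ] _)‖ * (1 + M) + 1 with hK
  have hK1 : 1 ≤ K := le_add_of_nonneg_left (by positivity)
  obtain ⟨a, ha, hreg⟩ := exists_regular f (ε := δ / 2 / K) (by positivity)
  have ha' : K * ‖a‖ < δ / 2 := by rwa [lt_div_iff₀' (by positivity)] at ha
  let φ : (ι → ℂ) → ℝ := fun z => (eval z f).re - χ z * lin a z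
  have hφ : ContDiff ℝ 2 φ := (contDiff_re f).sub (hχ.mul (lin a).contDiff)
  have hin : ∀ z : ι → ℂ, ‖z‖ < 2 → HasFDerivAt φ (lin (grad f z - a)) z := fun z hz => by
    refine (((hasFDerivAt_re f z).sub (lin a).hasFDerivAt).congr_fderiv
      (map_sub _ _ _).symm).congr_of_eventuallyEq ?_
    filter_upwards [χ.eventuallyEq_one_of_mem_ball (mem_ball_zero_iff.2 hz)] with y hy
    simp [φ, hy]
  have hout : ∀ z : ι → ℂ, 1 ≤ ‖z‖ → δ / 2 ≤ ‖fderiv ℝ φ z‖ := fun z hz => by
    have h1 := (hasFDerivAt_re f z).sub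
      (((hχ.differentiable (by norm_num)) z).hasFDerivAt.mul (lin a).hasFDerivAt)
    rw [show fderiv ℝ φ z = _ from h1.fderiv]
    refine le_trans ?_ (norm_sub_norm_le _ _)
    have h2 := (hlow z hz).trans (norm_le_lin _)
    have h3 : ‖lin a‖ ≤ ‖(lin : (ι → ℂ) →L[ℝ] _)‖ * ‖a‖ := lin.le_opNorm a
    have h4 : ‖χ z • lin a‖ ≤ ‖lin a‖ := by
      rw [norm_smul, Real.norm_of_nonneg χ.nonneg]
      exact mul_le_of_le_one_left (norm_nonneg _) χ.le_one
    have h5 : ‖lin a z • fderiv ℝ χ z‖ ≤ ‖lin a‖ * M := by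
      rw [norm_smul]
      refine (mul_le_mul_of_nonneg_right ((lin a).le_opNorm z) (norm_nonneg _)).trans ?_
      rw [mul_assoc]
      exact mul_le_mul_of_nonneg_left ((le_abs_self _).trans (hM z)) (norm_nonneg _)
    have h6 := norm_add_le (χ z • lin a) (lin a z • fderiv ℝ χ z)
    have h7 : ‖lin a‖ * (1 + M) ≤ K * ‖a‖ := by
      rw [hK]
      nlinarith [norm_nonneg a]
    linarith
  have hsm : ∀ z, grad f z = a → ‖z‖ < 1 := fun z hz => by
    by_contra h
    have := hlow z (not_lt.1 h)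
    rw [hz] at this
    nlinarith [norm_nonneg a]
  have hc : Continuous (grad f) :=
    continuous_iff_continuousAt.2 fun z => (hasFDerivAt_grad f z).continuousAt
  have hfin : {z | grad f z = a}.Finite := by
    refine ((isCompact_closedBall (0 : ι → ℂ) 1).of_isClosed_subset (isClosed_eq hc continuous_const)
      fun z hz => mem_closedBall_zero_iff.2 (hsm z hz).le).finite
      (isDiscrete_iff_nhdsNE.2 fun z hz => ?_)
    rw [inf_principal_eq_bot]
    obtain ⟨C, -, hC⟩ := (mv (hess f z)).toLinearMap.exists_antilipschitzWith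
      (LinearMap.ker_eq_bot'.2 fun v hv => Matrix.eq_zero_of_mulVec_eq_zero (hreg z hz) hv)
    exact (hasFDerivAt_grad f z).eventually_ne ⟨C, hC⟩
  obtain ⟨c, hc1⟩ := (isCompact_closedBall (0 : ι → ℂ) 3).exists_bound_of_continuousOn
    (hφ.continuous.prodMk (contDiff_re f).continuous).continuousOn
  have hc2 : ∀ z : ι → ℂ, ‖z‖ ≤ 3 → φ z ≤ c ∧ (eval z f).re ≤ c := fun z hz => by
    have := hc1 z (mem_closedBall_zero_iff.2 hz)
    rw [Prod.norm_def, max_le_iff] at this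
    exact ⟨(le_abs_self _).trans this.1, (le_abs_self _).trans this.2⟩
  have hc0 : 0 ≤ c := (norm_nonneg _).trans (hc1 0 (by simp))
  refine ⟨φ, hfin.toFinset, c + 1, hφ, ⟨1, _, half_pos hδ, hout⟩, fun z => ?_, fun p hp => ?_,
    fun p hp => ?_, by linarith, fun z => ?_, Or.inr ⟨hlt, a, fun z => ?_, fun p hp => ?_⟩⟩
  · rw [Set.Finite.mem_toFinset, mem_ofPred_eq]
    constructor
    · intro h
      have h1 : ‖z‖ < 1 := by
        by_contra h1
        have := hout z (not_lt.1 h1)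
        rw [h, norm_zero] at this
        linarith
      rw [(hin z (by linarith)).fderiv] at h
      have := norm_le_lin (grad f z - a)
      rwa [h, norm_zero, norm_le_zero_iff, sub_eq_zero] at this
    · intro h
      rw [(hin z (by linarith [hsm z h])).fderiv, h, sub_self, map_zero]
  · have h := hfin.mem_toFinset.1 hp
    refine localModel ?_ h (hreg p h)
    filter_upwards [(isOpen_lt continuous_norm continuous_const).mem_nhds
      (show ‖p‖ < 2 by linarith [hsm p h])] with y hy using hin y hy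
  · linarith [(hc2 p (by linarith [hsm p (hfin.mem_toFinset.1 hp)])).1]
  · rcases le_total ‖z‖ 3 with h | h
    · exact iff_of_false (by linarith [(hc2 z h).1]) (by linarith [(hc2 z h).2])
    · simp [φ, χ.zero_of_le_dist (show χ.rOut ≤ dist z 0 by simpa using h)]
  · rw [Set.Finite.mem_toFinset, mem_ofPred_eq, funext_iff]
    rfl
  · exact hreg p (hfin.mem_toFinset.1 hp)

end Pool.Agent.Lib.MP_1ba768_gt
end
end
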