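import Mathlib

namespace Pool.Agent.Lib.MP_1ba768_gt.Rec

variable {n : ℕ}

/-- `u i = d / gcd (d, w i)` -/
def uu (w : Fin (n + 1) → ℕ) (d : ℕ) (i : Fin (n + 1)) : ℕ := d / Nat.gcd d (w i)

/-- `v i = w i / gcd (d, w i)` -/
def vv (w : Fin (n + 1) → ℕ) (d : ℕ) (i : Fin (n + 1)) : ℕ := w i / Nat.gcd d (w i)

/-- the rational numbers `c S`, defined by recursion over proper subsets -/
def cc (w : Fin (n + 1) → ℕ) (d : ℕ) : Finset (Fin (n + 1)) → ℚ :=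
  Finset.strongInduction fun S c => ((Sᶜ.gcd (uu w d) : ℕ) : ℚ) /
    ∏ T ∈ S.ssubsets.attach, c T.1 (Finset.mem_ssubsets.1 T.2)

/-- the rational numbers `k S` -/
def kk (w : Fin (n + 1) → ℕ) (d : ℕ) (S : Finset (Fin (n + 1))) : ℚ :=
  (if Odd (n + 1 - S.card) then 1 else 0) * ∑ T ∈ S.powerset, (-1) ^ (S.card - T.card) *
    ((∏ j ∈ T, (uu w d j : ℚ)) / ((∏ j ∈ T, (vv w d j : ℚ)) * ((T.lcm (uu w d) : ℕ) : ℚ)))

/-- the integer part of the largest `k S` -/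
def rr (w : Fin (n + 1) → ℕ) (d : ℕ) : ℕ := ⌊Finset.univ.sup' Finset.univ_nonempty (kk w d)⌋₊

/-- the product of the `c S` with `j ≤ k S` -/
def dd (w : Fin (n + 1) → ℕ) (d : ℕ) (j : ℕ) : ℚ :=
  ∏ S ∈ Finset.univ.filter fun S => (j : ℚ) ≤ kk w d S, cc w d S

/-- the link, as a subspace of complex `(n+1)`-space -/
noncomputable def Link (f : MvPolynomial (Fin (n + 1)) ℂ) : TopCat :=
  TopCat.of {z : Fin (n + 1) → ℂ // MvPolynomial.eval z f = 0 ∧ ∑ i, Complex.normSq (z i) = 1}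

/-- singular homology with integer coefficients -/
noncomputable def Hsing (k : ℕ) (X : TopCat) : ModuleCat.{0} ℤ :=
  ((AlgebraicTopology.singularHomologyFunctor (ModuleCat.{0} ℤ) k).obj (ModuleCat.of ℤ ℤ)).obj X

end Pool.Agent.Lib.MP_1ba768_gt.Rec
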