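import Pool.Agent.Lib.MP_1ba768_gt.Main
import Pool.Agent.Lib.MP_1ba768_gt.RecDefs

/-! The recipe read literally: the numbers are positive integers and describe the torsion. -/

namespace Pool.Agent.Lib.MP_1ba768_gt.Rec

open Finset MvPolynomial

lemma prod_minFac {g : ℕ} (hg : g ≠ 0) :
    ∏ q ∈ g.divisors.filter IsPrimePow, q.minFac = g := by
  have h1 := ArithmeticFunction.vonMangoldt_sum (n := g)
  simp only [ArithmeticFunction.vonMangoldt_apply] at h1
  rw [← sum_filter, ← Real.log_prod fun q _ => by exact_mod_cast (Nat.minFac_pos q).ne'] at h1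
  have h2 := Real.log_injOn_pos (Set.mem_Ioi.2 (prod_pos fun q _ => by
    exact_mod_cast Nat.minFac_pos q)) (Set.mem_Ioi.2 (by exact_mod_cast Nat.pos_of_ne_zero hg)) h1
  exact_mod_cast h2

lemma exists_nat {ι : Type} [Fintype ι] [DecidableEq ι] {u : ι → ℕ} {d : ℕ} (hd : d ≠ 0)
    (hu : ∀ i, u i ∣ d) : ∃ c : Finset ι → ℕ, (∀ S, S ≠ univ → 0 < c S) ∧
      ∀ I, ∏ J ∈ I.powerset, c J = (univ \ I).gcd u := by
  classical
  let A : ℕ → Finset ι := fun q => univ.filter fun i => ¬ q ∣ u i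
  let c' : Finset ι → ℕ := fun J =>
    ∏ q ∈ (d.divisors.filter IsPrimePow).filter (fun q => A q = J), q.minFac
  refine ⟨fun J => if J = univ then 0 else c' J, fun S hS => ?_, fun I => ?_⟩
  · simp only [hS, if_false]
    exact prod_pos fun q _ => Nat.minFac_pos q
  by_cases hI : I = univ
  · subst hI
    rw [sdiff_self, bot_eq_empty, gcd_empty]
    exact prod_eq_zero (mem_powerset_self _) (if_pos rfl)
  obtain ⟨i₀, hi₀⟩ : ∃ i, i ∉ I := by
    by_contra h
    exact hI (eq_univ_of_forall fun i => by_contra fun k => h ⟨i, k⟩)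
  have hg : (univ \ I).gcd u ∣ d := (gcd_dvd (by simp [hi₀])).trans (hu i₀)
  have h1 : ∀ J ∈ I.powerset, (if J = univ then 0 else c' J) = c' J := fun J hJ =>
    if_neg fun e : J = univ => hi₀ (mem_powerset.1 hJ (e ▸ mem_univ _))
  rw [prod_congr rfl h1, prod_fiberwise_eq_prod_filter,
    ← prod_minFac (ne_zero_of_dvd_ne_zero hd hg)]
  refine prod_congr ?_ fun _ _ => rfl
  ext q
  have h2 : A q ⊆ I ↔ q ∣ (univ \ I).gcd u := by
    rw [Finset.dvd_gcd_iff]
    simp only [A, subset_iff, mem_filter, mem_univ, true_and, mem_sdiff]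
    exact forall_congr' fun i => not_imp_comm
  simp only [mem_filter, mem_powerset, Nat.mem_divisors, h2]
  exact ⟨fun h => ⟨⟨h.2, ne_zero_of_dvd_ne_zero hd hg⟩, h.1.2⟩,
    fun h => ⟨⟨⟨h.1.1.trans hg, hd⟩, h.2⟩, h.1.1⟩⟩

variable {n : ℕ}

lemma cc_eq (w : Fin (n + 1) → ℕ) (d : ℕ) {c : Finset (Fin (n + 1)) → ℕ}
    (h0 : ∀ S, S ≠ univ → 0 < c S) (hc : ∀ I, ∏ J ∈ I.powerset, c J = (univ \ I).gcd (uu w d))
    (S : Finset (Fin (n + 1))) : cc w d S = c S := by
  induction S using Finset.strongInduction with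
  | H S ih =>
    rw [cc, strongInduction_eq]
    have e : ∏ T ∈ S.ssubsets.attach, cc w d T.1 = ∏ T ∈ S.ssubsets, (c T : ℚ) := by
      rw [← prod_attach S.ssubsets]
      exact prod_congr rfl fun T _ => ih T.1 (mem_ssubsets.1 T.2)
    have hne : ∏ T ∈ S.ssubsets, (c T : ℚ) ≠ 0 := prod_ne_zero_iff.2 fun T hT => by
      exact_mod_cast (h0 T fun k => (mem_ssubsets.1 hT).2 (k ▸ subset_univ S)).ne'
    change _ / ∏ T ∈ S.ssubsets.attach, cc w d T.1 = _
    rw [e, div_eq_iff hne, compl_eq_univ_sdiff, ← hc, ← mul_prod_erase _ _ (mem_powerset_self S)]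
    push_cast
    rfl

lemma whom_of_fun {w : Fin (n + 1) → ℕ} {d : ℕ} {f : MvPolynomial (Fin (n + 1)) ℂ}
    (hf : ∀ l : ℂ, l ≠ 0 → ∀ z, eval (fun i => l ^ w i * z i) f = l ^ d * eval z f) :
    IsWeightedHomogeneous w f d := by
  intro m hm
  have h1 : ∑ s ∈ f.support, monomial s ((2 : ℂ) ^ Finsupp.weight w s * coeff s f) =
      C ((2 : ℂ) ^ d) * f := by
    refine MvPolynomial.funext fun z => ?_
    rw [map_mul, eval_C, ← hf 2 two_ne_zero z, map_sum, eval_eq']
    refine sum_congr rfl fun s _ => ?_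
    rw [eval_monomial, Finsupp.prod_fintype _ _ fun _ => pow_zero _, Finsupp.weight_apply,
      Finsupp.sum_fintype s (fun i c => c • w i) fun _ => zero_smul _ _, ← prod_pow_eq_pow_sum]
    simp only [mul_pow, prod_mul_distrib, ← pow_mul, smul_eq_mul, mul_comm (w _)]
    ring
  have h2 := congrArg (coeff m) h1
  rw [coeff_C_mul, coeff_sum] at h2
  simp only [coeff_monomial, sum_ite_eq', mem_support_iff.2 hm, if_true] at h2
  have h3 := mul_right_cancel₀ hm h2
  have h4 : (2 : ℕ) ^ Finsupp.weight w m = 2 ^ d := by exact_mod_cast h3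
  exact Nat.pow_right_injective le_rfl h4

theorem main (hn : 1 ≤ n) (w : Fin (n + 1) → ℕ) (d : ℕ) (f : MvPolynomial (Fin (n + 1)) ℂ)
    (hw : ∀ i, 0 < w i) (hd : 0 < d)
    (hf : ∀ l : ℂ, l ≠ 0 → ∀ z, eval (fun i => l ^ w i * z i) f = l ^ d * eval z f)
    (hq : ∀ z, eval z f = 0 → (∀ i, eval z (pderiv i f) = 0) → z = 0) :
    ∃ D : Fin (rr w d) → ℕ, (∀ j, 0 < D j ∧ (D j : ℚ) = dd w d (j + 1)) ∧
      Nonempty (AddCommGroup.torsion (Hsing (n - 1) (Link f)) ≃+
        DirectSum (Fin (rr w d)) fun j => ZMod (D j)) := by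
  have hW := whom_of_fun hf
  have hq' : ∀ z : Fin (n + 1) → ℂ, (∀ i, eval z (pderiv i f) = 0) → z = 0 := fun z hz => by
    refine hq z ?_ hz
    have h1 := congrArg (eval z) hW.sum_weight_X_mul_pderiv
    simp only [map_sum, map_nsmul, map_mul, hz, mul_zero, smul_zero, sum_const_zero] at h1
    rw [nsmul_eq_mul] at h1
    exact (mul_eq_zero.1 h1.symm).resolve_left (by exact_mod_cast hd.ne')
  obtain ⟨c, h0, hc⟩ := exists_nat (u := uu w d) hd.ne' fun i =>
    Nat.div_dvd_of_dvd (Nat.gcd_dvd_left _ _)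
  obtain ⟨e⟩ := orlik n hn w d f hw hd hW hq' (uu w d) (vv w d) (fun _ => rfl) (fun _ => rfl) c hc
    (kk w d) fun I => by simp only [kk, Nat.odd_iff]
  refine ⟨fun j => ∏ I ∈ univ.filter (fun I => (((j : ℕ) + 1 : ℕ) : ℚ) ≤ kk w d I), c I,
    fun j => ⟨prod_pos fun I hI => h0 I ?_, ?_⟩,
    ⟨AddEquiv.trans e (DirectSum.addEquivProd fun j : Fin (rr w d) =>
      ZMod (∏ I ∈ univ.filter (fun I => (((j : ℕ) + 1 : ℕ) : ℚ) ≤ kk w d I), c I)).symm⟩⟩
  · rintro rfl
    have h1 := (mem_filter.1 hI).2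
    have h2 : kk w d univ = 0 := by simp [kk]
    rw [h2] at h1
    exact absurd h1 (not_le.2 (by positivity))
  · simp only [dd, cc_eq w d h0 hc, Nat.cast_prod]

end Pool.Agent.Lib.MP_1ba768_gt.Rec
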